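import Mathlib

/-!
# SYM-D6: linear disjointness

If `K` is algebraically closed in `E` (characteristic zero) and `K₁ / K` is finite, then `K₁` and
`E` are linearly disjoint over `K` inside any common extension `Ω`.
-/

namespace Pool.Agent.Helper55.SYM

open Polynomial

/-- the degree of a finite element does not drop over `E` -/
theorem natDegree_minpoly_eq {K E Ω : Type*} [Field K] [Field E] [Field Ω]
    [Algebra K E] [Algebra E Ω] [Algebra K Ω] [IsScalarTower K E Ω]
    (hK : ∀ e : E, IsAlgebraic K e → e ∈ Set.range (algebraMap K E)) (α : Ω)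
    (hα : IsIntegral K α) : (minpoly E α).natDegree = (minpoly K α).natDegree := by
  have hαE : IsIntegral E α := hα.tower_top
  apply le_antisymm
  · have hdvd : minpoly E α ∣ (minpoly K α).map (algebraMap K E) :=
      minpoly.dvd_map_of_isScalarTower K E α
    have h1 := natDegree_le_of_dvd hdvd
      (Polynomial.map_ne_zero (minpoly.ne_zero hα))
    rwa [natDegree_map] at h1
  · have hdvd : minpoly E α ∣ (minpoly K α).map (algebraMap K E) :=
      minpoly.dvd_map_of_isScalarTower K E α
    have hcoef : ∀ i, IsIntegral K ((minpoly E α).coeff i) := fun i =>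
      Polynomial.isIntegral_coeff_of_dvd (minpoly K α) (minpoly E α) (minpoly.monic hα)
        (minpoly.monic hαE) hdvd i
    have hlift : minpoly E α ∈ Polynomial.lifts (algebraMap K E) := by
      rw [Polynomial.lifts_iff_coeff_lifts]
      intro i
      exact hK _ (hcoef i).isAlgebraic
    obtain ⟨g, hg, hgd, hgm⟩ := Polynomial.lifts_and_natDegree_eq_and_monic hlift
      (minpoly.monic hαE)
    have hga : aeval α g = 0 := by
      have h2 : aeval α (g.map (algebraMap K E)) = 0 := by
        rw [hg]
        exact minpoly.aeval E α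
      rwa [aeval_map_algebraMap] at h2
    have h3 := natDegree_le_of_dvd (minpoly.dvd K α hga) hgm.ne_zero
    omega

/-- D6: linear disjointness -/
theorem linearIndependent_of_closed {K E Ω : Type*} [Field K] [CharZero K] [Field E] [Field Ω]
    [Algebra K E] [Algebra E Ω] [Algebra K Ω] [IsScalarTower K E Ω]
    (hK : ∀ e : E, IsAlgebraic K e → e ∈ Set.range (algebraMap K E))
    (K₁ : IntermediateField K Ω) [FiniteDimensional K K₁] (n : ℕ) (v : Fin n → E)
    (hv : LinearIndependent K v) : LinearIndependent K₁ (algebraMap E Ω ∘ v) := by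
  classical
  let pb := Field.powerBasisOfFiniteOfSeparable K K₁
  have hgen : IsIntegral K pb.gen := IsIntegral.of_finite K pb.gen
  have hα : IsIntegral K (pb.gen : Ω) := hgen.map K₁.val
  have hdeg : (minpoly E (pb.gen : Ω)).natDegree = pb.dim := by
    rw [natDegree_minpoly_eq hK (pb.gen : Ω) hα]
    have h1 : minpoly K (pb.gen : Ω) = minpoly K pb.gen :=
      minpoly.algHom_eq K₁.val (RingHom.injective _) pb.gen
    rw [h1]
    exact pb.natDegree_minpoly
  have hli : LinearIndependent E fun i : Fin pb.dim => (pb.gen : Ω) ^ (i : ℕ) := by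
    have h2 := linearIndependent_pow (K := E) (pb.gen : Ω)
    rw [hdeg] at h2
    exact h2
  rw [Fintype.linearIndependent_iff] at hli hv ⊢
  intro g hg
  let a : Fin n → Fin pb.dim → K := fun i j => pb.basis.repr (g i) j
  have hgi : ∀ i, (g i : Ω) = ∑ j, algebraMap K Ω (a i j) * (pb.gen : Ω) ^ (j : ℕ) := by
    intro i
    have h3 := pb.basis.sum_repr (g i)
    have h4 : K₁.val (∑ j, pb.basis.repr (g i) j • pb.basis j) = K₁.val (g i) := by rw [h3]
    rw [map_sum] at h4
    change _ = (g i : Ω) at h4
    rw [← h4]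
    refine Finset.sum_congr rfl fun j _ => ?_
    rw [map_smul, Algebra.smul_def, pb.basis_eq_pow]
    rw [map_pow]
    rfl
  have hsum : ∑ j : Fin pb.dim, (∑ i, a i j • v i) • (pb.gen : Ω) ^ (j : ℕ) = 0 := by
    rw [← hg]
    have h5 : ∀ j : Fin pb.dim, (∑ i, a i j • v i) • (pb.gen : Ω) ^ (j : ℕ) =
        ∑ i, algebraMap K Ω (a i j) * (pb.gen : Ω) ^ (j : ℕ) * algebraMap E Ω (v i) := by
      intro j
      rw [Finset.sum_smul]
      refine Finset.sum_congr rfl fun i _ => ?_
      rw [Algebra.smul_def, Algebra.smul_def, map_mul, ← IsScalarTower.algebraMap_apply K E Ω]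
      ring
    rw [Finset.sum_congr rfl fun j _ => h5 j, Finset.sum_comm]
    refine Finset.sum_congr rfl fun i _ => ?_
    rw [← Finset.sum_mul, ← hgi i]
    rfl
  have hz := hli _ hsum
  intro i
  have hai : ∀ j, a i j = 0 := fun j => hv (fun i => a i j) (hz j) i
  have h6 : pb.basis.repr (g i) = 0 := by
    ext j
    exact hai j
  exact (LinearEquiv.map_eq_zero_iff _).mp h6

end Pool.Agent.Helper55.SYM
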