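import Mathlib

set_option autoImplicit false

/-! Lusin's theorem: analytic sets are universally measurable. -/

namespace Pool.Agent.Helper55.Beer

open MeasureTheory Set Filter
open scoped ENNReal Topology

variable {X : Type*} [TopologicalSpace X] [T2Space X] [MeasurableSpace X] [BorelSpace X]

omit [TopologicalSpace X] [T2Space X] [BorelSpace X] in
lemma exists_bound (μ : Measure X) [IsFiniteMeasure μ] (f : (ℕ → ℕ) → X) (δ : ℝ≥0∞) (hδ : δ ≠ 0)
    (s : Set (ℕ → ℕ)) (k : ℕ) :
    ∃ n : ℕ, μ (f '' s) ≤ μ (f '' (s ∩ {x | x k ≤ n})) + δ := by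
  by_contra hcon
  push Not at hcon
  have hun : f '' s = ⋃ n : ℕ, f '' (s ∩ {x | x k ≤ n}) := by
    rw [← image_iUnion, ← inter_iUnion]
    congr 1
    ext x
    simp only [mem_inter_iff, mem_iUnion, mem_ofPred_eq]
    exact ⟨fun h => ⟨h, x k, le_rfl⟩, fun h => h.1⟩
  have hmono : Monotone (fun n : ℕ => f '' (s ∩ {x | x k ≤ n})) := by
    intro m n hmn
    apply image_mono
    intro x hx
    exact ⟨hx.1, le_trans hx.2 hmn⟩
  have h1 : μ (f '' s) = ⨆ n : ℕ, μ (f '' (s ∩ {x | x k ≤ n})) := by
    conv_lhs => rw [hun]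
    exact hmono.measure_iUnion
  have h2 : (⨆ n : ℕ, μ (f '' (s ∩ {x | x k ≤ n}))) + δ ≤ μ (f '' s) := by
    rw [ENNReal.iSup_add]
    exact iSup_le (fun n => (hcon n).le)
  rw [← h1] at h2
  have h3 : μ (f '' s) < μ (f '' s) + δ := ENNReal.lt_add_right (measure_ne_top μ _) hδ
  exact absurd h2 (not_le.mpr h3)

omit [T2Space X] [BorelSpace X] in
/-- Inner approximation of the range of a continuous map on the Baire space by compact sets. -/
theorem exists_compact (μ : Measure X) [IsFiniteMeasure μ] [μ.OuterRegular]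
    (f : (ℕ → ℕ) → X) (hf : Continuous f) (δ : ℝ≥0∞) (hδ : δ ≠ 0) :
    ∃ K : Set X, K ⊆ range f ∧ IsCompact K ∧ μ (range f) ≤ μ K + δ := by
  obtain ⟨δ', hδ'pos, hδ'sum⟩ := ENNReal.exists_pos_sum_of_countable' hδ ℕ
  choose n hn using fun (s : Set (ℕ → ℕ)) (k : ℕ) =>
    exists_bound μ f (δ' k) (hδ'pos k).ne' s k
  let A : ℕ → Set (ℕ → ℕ) := fun k => Nat.rec univ (fun k s => s ∩ {x | x k ≤ n s k}) k
  have hA0 : A 0 = univ := rfl
  have hAs : ∀ k, A (k + 1) = A k ∩ {x | x k ≤ n (A k) k} := fun k => rfl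
  set b : ℕ → ℕ := fun k => n (A k) k with hb
  have hAeq : ∀ k x, x ∈ A k ↔ ∀ i < k, x i ≤ b i := by
    intro k
    induction k with
    | zero => intro x; simp [hA0]
    | succ k ih =>
      intro x
      rw [hAs, mem_inter_iff, ih, mem_ofPred_eq]
      constructor
      · rintro ⟨h1, h2⟩ i hi
        rcases Nat.lt_succ_iff_lt_or_eq.mp hi with h | h
        · exact h1 i h
        · rw [h]; exact h2
      · intro h
        exact ⟨fun i hi => h i (by omega), h k (by omega)⟩
  have hmeas : ∀ k, μ (range f) ≤ μ (f '' A k) + ∑ i ∈ Finset.range k, δ' i := by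
    intro k
    induction k with
    | zero => simp [hA0]
    | succ k ih =>
      rw [Finset.sum_range_succ]
      calc μ (range f) ≤ μ (f '' A k) + ∑ i ∈ Finset.range k, δ' i := ih
        _ ≤ (μ (f '' A (k + 1)) + δ' k) + ∑ i ∈ Finset.range k, δ' i := by
            gcongr
            exact hn (A k) k
        _ = μ (f '' A (k + 1)) + (∑ i ∈ Finset.range k, δ' i + δ' k) := by ring
  have hmeas' : ∀ k, μ (range f) ≤ μ (f '' A k) + δ := by
    intro k
    refine (hmeas k).trans ?_
    gcongr
    exact (ENNReal.sum_le_tsum _).trans hδ'sum.le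
  set C : Set (ℕ → ℕ) := Set.pi univ (fun i => Iic (b i)) with hC
  have hCc : IsCompact C := isCompact_univ_pi (fun i => (Set.finite_Iic (b i)).isCompact)
  refine ⟨f '' C, image_subset_range f C, hCc.image hf, ?_⟩
  -- open neighbourhoods of `f '' C` contain some `f '' A k`
  have hopen : ∀ U : Set X, IsOpen U → f '' C ⊆ U → ∃ k, f '' A k ⊆ U := by
    intro U hU hCU
    by_contra hcon
    push Not at hcon
    have hex : ∀ k, ∃ x ∈ A k, f x ∉ U := by
      intro k
      obtain ⟨y, hy1, hy2⟩ := not_subset.mp (hcon k)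
      obtain ⟨x, hx, rfl⟩ := hy1
      exact ⟨x, hx, hy2⟩
    choose x hxA hxU using hex
    set x' : ℕ → (ℕ → ℕ) := fun k i => if i < k then x k i else 0 with hx'
    have hx'C : ∀ k, x' k ∈ C := by
      intro k i _
      simp only [hx', mem_Iic]
      by_cases h : i < k
      · rw [if_pos h]
        exact (hAeq k (x k)).mp (hxA k) i h
      · rw [if_neg h]; exact Nat.zero_le _
    obtain ⟨a, haC, φ, hφ, hlim⟩ := hCc.tendsto_subseq hx'C
    have hlim2 : Tendsto (x ∘ φ) atTop (𝓝 a) := by
      rw [tendsto_pi_nhds] at hlim ⊢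
      intro i
      refine (hlim i).congr' ?_
      filter_upwards [eventually_gt_atTop i] with k hk
      have : i < φ k := lt_of_lt_of_le hk (hφ.id_le k)
      simp only [Function.comp_apply, hx', if_pos this]
    have hlim3 : Tendsto (fun k => f (x (φ k))) atTop (𝓝 (f a)) :=
      (hf.tendsto a).comp hlim2
    have hev := hlim3.eventually (hU.mem_nhds (hCU (mem_image_of_mem f haC)))
    obtain ⟨k, hk⟩ := hev.exists
    exact hxU (φ k) hk
  by_contra hcon
  push Not at hcon
  have h1 : μ (f '' C) < μ (range f) - δ := lt_tsub_iff_right.mpr hcon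
  obtain ⟨U, hCU, hU, hUlt⟩ := Set.exists_isOpen_lt_of_lt (f '' C) _ h1
  obtain ⟨k, hk⟩ := hopen U hU hCU
  have h2 : μ (range f) ≤ μ U + δ := (hmeas' k).trans (by gcongr)
  exact absurd h2 (not_le.mpr (lt_tsub_iff_right.mp hUlt))

/-- **Lusin**: analytic sets are null-measurable for every finite outer regular measure. -/
theorem analytic_nullMeasurable (μ : Measure X) [IsFiniteMeasure μ] [μ.OuterRegular]
    {s : Set X} (hs : AnalyticSet s) : NullMeasurableSet s μ := by
  rw [AnalyticSet] at hs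
  rcases hs with rfl | ⟨f, hf, rfl⟩
  · exact MeasurableSet.empty.nullMeasurableSet
  choose K hKsub hKc hKm using fun n : ℕ =>
    exists_compact μ f hf (((n : ℝ≥0∞) + 1)⁻¹) (by simp)
  set T : Set X := ⋃ n, K n with hT
  have hTm : MeasurableSet T := MeasurableSet.iUnion (fun n => (hKc n).isClosed.measurableSet)
  have hTsub : T ⊆ range f := iUnion_subset hKsub
  have hle : μ (range f) ≤ μ T := by
    apply le_of_forall_pos_le_add
    intro δ hδ
    obtain ⟨n, hn⟩ := ENNReal.exists_inv_nat_lt hδ.ne'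
    calc μ (range f) ≤ μ (K n) + ((n : ℝ≥0∞) + 1)⁻¹ := hKm n
      _ ≤ μ T + δ := by
        apply add_le_add
        · exact measure_mono (subset_iUnion K n)
        · refine le_trans ?_ hn.le
          apply ENNReal.inv_le_inv.mpr
          exact le_self_add
  have hae := ae_eq_of_subset_of_measure_ge hTsub hle hTm.nullMeasurableSet (measure_ne_top μ _)
  exact hTm.nullMeasurableSet.congr hae

end Pool.Agent.Helper55.Beer
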