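import Pool.Agent.Helper55.BeerMeas

set_option autoImplicit false

/-! Selection of a `K_{3,2}` in a dense visibility graph; the core theorem. -/

namespace Pool.Agent.Helper55.Beer

open MeasureTheory Set
open scoped ENNReal

/-- One step of the selection. -/
lemma stage (ν : Measure (ℝ × ℝ)) [IsFiniteMeasure ν] (M : ℝ) (hM : 0 < M)
    (hmass : ν univ = ENNReal.ofReal M) (G : Set ((ℝ × ℝ) × (ℝ × ℝ))) (hG : MeasurableSet G)
    (d : ℝ) (hd : 0 < d) (B : Set (ℝ × ℝ)) (hB : MeasurableSet B) (hB0 : ν B ≠ 0)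
    (hdeg : ∀ b ∈ B, ENNReal.ofReal (d * M) ≤ ν ((fun a => (a, b)) ⁻¹' G))
    (X : Set (ℝ × ℝ)) (hX : MeasurableSet X) (hXs : ν X < ENNReal.ofReal (d / 2 * M)) :
    ∃ a, a ∉ X ∧ ENNReal.ofReal (d / 2) * ν B ≤ ν (B ∩ Prod.mk a ⁻¹' G) := by
  by_contra hcon
  push Not at hcon
  set G' : Set ((ℝ × ℝ) × (ℝ × ℝ)) := G ∩ (univ ×ˢ B) with hG'
  have hG'm : MeasurableSet G' := hG.inter (MeasurableSet.univ.prod hB)
  have hfin : ν B ≠ ⊤ := measure_ne_top ν B
  have e1 : (ν.prod ν) G' = ∫⁻ a, ν (B ∩ Prod.mk a ⁻¹' G) ∂ν := by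
    rw [Measure.prod_apply hG'm]
    congr 1
    ext a
    congr 1
    ext b
    simp only [hG', mem_preimage, mem_inter_iff, mem_prod, mem_univ, true_and]
    exact and_comm
  have e2 : ENNReal.ofReal (d * M) * ν B ≤ (ν.prod ν) G' := by
    rw [Measure.prod_apply_symm hG'm]
    calc ENNReal.ofReal (d * M) * ν B = ∫⁻ _ in B, ENNReal.ofReal (d * M) ∂ν := by
          rw [setLIntegral_const]
      _ ≤ ∫⁻ b in B, ν ((fun a => (a, b)) ⁻¹' G') ∂ν := by
          apply setLIntegral_mono' hB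
          intro b hb
          refine (hdeg b hb).trans (measure_mono ?_)
          intro a ha
          exact ⟨ha, mem_univ _, hb⟩
      _ ≤ ∫⁻ b, ν ((fun a => (a, b)) ⁻¹' G') ∂ν := setLIntegral_le_lintegral _ _
  have e3 : ∫⁻ a, ν (B ∩ Prod.mk a ⁻¹' G) ∂ν ≤
      ν B * ν X + ENNReal.ofReal (d / 2) * ν B * ENNReal.ofReal M := by
    rw [← lintegral_add_compl _ hX]
    apply add_le_add
    · calc ∫⁻ a in X, ν (B ∩ Prod.mk a ⁻¹' G) ∂ν ≤ ∫⁻ _ in X, ν B ∂ν :=
            lintegral_mono (fun a => measure_mono inter_subset_left)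
        _ = ν B * ν X := by rw [setLIntegral_const]
    · calc ∫⁻ a in Xᶜ, ν (B ∩ Prod.mk a ⁻¹' G) ∂ν
          ≤ ∫⁻ _ in Xᶜ, ENNReal.ofReal (d / 2) * ν B ∂ν :=
            setLIntegral_mono' hX.compl (fun a ha => (hcon a ha).le)
        _ = ENNReal.ofReal (d / 2) * ν B * ν Xᶜ := by rw [setLIntegral_const]
        _ ≤ ENNReal.ofReal (d / 2) * ν B * ENNReal.ofReal M := by
            rw [← hmass]
            gcongr
            exact subset_univ _
  have e4 : ENNReal.ofReal (d * M) * ν B ≤ (ν X + ENNReal.ofReal (d / 2 * M)) * ν B := by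
    calc ENNReal.ofReal (d * M) * ν B ≤ (ν.prod ν) G' := e2
      _ = ∫⁻ a, ν (B ∩ Prod.mk a ⁻¹' G) ∂ν := e1
      _ ≤ ν B * ν X + ENNReal.ofReal (d / 2) * ν B * ENNReal.ofReal M := e3
      _ = (ν X + ENNReal.ofReal (d / 2 * M)) * ν B := by
          rw [ENNReal.ofReal_mul (by positivity : (0 : ℝ) ≤ d / 2)]
          ring
  have e5 := (ENNReal.mul_le_mul_iff_left hB0 hfin).mp e4
  have e6 : ENNReal.ofReal (d * M) = ENNReal.ofReal (d / 2 * M) + ENNReal.ofReal (d / 2 * M) := by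
    rw [← ENNReal.ofReal_add (by positivity) (by positivity)]
    congr 1; ring
  rw [e6] at e5
  have e7 := (ENNReal.add_le_add_iff_right ENNReal.ofReal_ne_top).mp e5
  exact absurd hXs (not_lt.mpr e7)

/-- halving according to a sign -/
lemma half (ν : Measure (ℝ × ℝ)) [IsFiniteMeasure ν] (B : Set (ℝ × ℝ)) (hB : MeasurableSet B)
    (g : ℝ × ℝ → ℝ) (hg : Measurable g) (hne : ∀ b ∈ B, g b ≠ 0) :
    ∃ B' : Set (ℝ × ℝ), B' ⊆ B ∧ MeasurableSet B' ∧ ν B ≤ 2 * ν B' ∧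
      ∀ b ∈ B', ∀ b' ∈ B', 0 < g b * g b' := by
  have hP : MeasurableSet {b | 0 < g b} := measurableSet_lt measurable_const hg
  have hsum : ν B ≤ ν (B ∩ {b | 0 < g b}) + ν (B \ {b | 0 < g b}) := by
    rw [measure_inter_add_sdiff B hP]
  rcases le_total (ν (B ∩ {b | 0 < g b})) (ν (B \ {b | 0 < g b})) with h | h
  · refine ⟨B \ {b | 0 < g b}, sdiff_subset, hB.diff hP, ?_, ?_⟩
    · rw [two_mul]
      exact hsum.trans (add_le_add h le_rfl)
    · intro b hb b' hb'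
      have h1 : g b < 0 := lt_of_le_of_ne (not_lt.mp hb.2) (hne b hb.1)
      have h2 : g b' < 0 := lt_of_le_of_ne (not_lt.mp hb'.2) (hne b' hb'.1)
      exact mul_pos_of_neg_of_neg h1 h2
  · refine ⟨B ∩ {b | 0 < g b}, inter_subset_left, hB.inter hP, ?_, ?_⟩
    · rw [two_mul]
      exact hsum.trans (add_le_add le_rfl h)
    · intro b hb b' hb'
      exact mul_pos hb.2 hb'.2

lemma avoid (ν : Measure (ℝ × ℝ)) (B X : Set (ℝ × ℝ)) (h : ν X < ν B) : ∃ b ∈ B, b ∉ X := by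
  by_contra hcon
  push Not at hcon
  exact absurd (measure_mono (μ := ν) (fun b hb => hcon b hb : B ⊆ X)) (not_le.mpr h)

/-- The core theorem: a dense visibility graph contains a large triangle with boundary in `S`. -/
theorem core (ε : ℝ) (hε : 0 < ε) (hε1 : ε ≤ 1) (ν : Measure (ℝ × ℝ)) [IsFiniteMeasure ν]
    (hν : ν ≤ volume) (M : ℝ) (hM : 0 < M) (hmass : ν univ = ENNReal.ofReal M)
    (S : Set (ℝ × ℝ)) (G : Set ((ℝ × ℝ) × (ℝ × ℝ))) (hG : MeasurableSet G)
    (hGS : ∀ p ∈ G, segment ℝ p.1 p.2 ⊆ S)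
    (hdens : ENNReal.ofReal (ε * M ^ 2) ≤ (ν.prod ν) G) :
    ∃ p q r : ℝ × ℝ, segment ℝ p q ⊆ S ∧ segment ℝ p r ⊆ S ∧ segment ℝ q r ⊆ S ∧
      ((ε / 2) ^ 4 / 400) ^ 2 / 60 * M / 2 ≤ |ar p q r| := by
  set d : ℝ := ε / 2 with hd
  have hdpos : 0 < d := by positivity
  have hd1 : d ≤ 1 / 2 := by rw [hd]; linarith
  set η : ℝ := d ^ 4 / 400 with hη
  have hηpos : 0 < η := by positivity
  set T : ℝ := η ^ 2 / 60 * M with hT
  have hTpos : 0 < T := by positivity
  -- bad sets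
  set X : (ℝ × ℝ) → Set (ℝ × ℝ) :=
    fun o => {z | ENNReal.ofReal (η * M) < ν {y | |ar o z y| ≤ T}} with hX
  have hXm : ∀ o, MeasurableSet (X o) := fun o =>
    measurableSet_lt measurable_const (measurable_measure_prodMk_left (measurableSet_small o T))
  have hXs : ∀ o, ν (X o) ≤ ENNReal.ofReal (η * M) := fun o =>
    few_small η hηpos ν hν M hM hmass o
  have hslice : ∀ o z, z ∉ X o → ν {y | |ar o z y| ≤ T} ≤ ENNReal.ofReal (η * M) := by
    intro o z hz
    exact not_lt.mp hz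
  have hslm : ∀ o z : ℝ × ℝ, MeasurableSet {y | |ar o z y| ≤ T} := fun o z =>
    measurableSet_le (measurable_ar_right o z) measurable_const
  -- points of large degree
  set deg : (ℝ × ℝ) → ℝ≥0∞ := fun b => ν ((fun a => (a, b)) ⁻¹' G) with hdeg
  have hdegm : Measurable deg := measurable_measure_prodMk_right hG
  set B0 : Set (ℝ × ℝ) := {b | ENNReal.ofReal (d * M) ≤ deg b} with hB0
  have hB0m : MeasurableSet B0 := measurableSet_le measurable_const hdegm
  have hB0mass : ENNReal.ofReal (d * M) ≤ ν B0 := by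
    have h1 : (ν.prod ν) G = ∫⁻ b, deg b ∂ν := Measure.prod_apply_symm hG
    have h2 : ∫⁻ b, deg b ∂ν ≤ ENNReal.ofReal M * ν B0 + ENNReal.ofReal (d * M) * ENNReal.ofReal M := by
      rw [← lintegral_add_compl _ hB0m]
      apply add_le_add
      · calc ∫⁻ b in B0, deg b ∂ν ≤ ∫⁻ _ in B0, ENNReal.ofReal M ∂ν := by
              apply lintegral_mono
              intro b
              rw [← hmass]
              exact measure_mono (subset_univ _)
          _ = ENNReal.ofReal M * ν B0 := by rw [setLIntegral_const]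
      · calc ∫⁻ b in B0ᶜ, deg b ∂ν ≤ ∫⁻ _ in B0ᶜ, ENNReal.ofReal (d * M) ∂ν := by
              apply setLIntegral_mono' hB0m.compl
              intro b hb
              have hb' : ¬ ENNReal.ofReal (d * M) ≤ deg b := fun h => hb h
              exact (not_le.mp hb').le
          _ = ENNReal.ofReal (d * M) * ν B0ᶜ := by rw [setLIntegral_const]
          _ ≤ ENNReal.ofReal (d * M) * ENNReal.ofReal M := by
              rw [← hmass]
              gcongr
              exact subset_univ _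
    have h3 : ENNReal.ofReal (ε * M ^ 2) ≤
        ENNReal.ofReal M * ν B0 + ENNReal.ofReal (d * M) * ENNReal.ofReal M := by
      rw [h1] at hdens
      exact hdens.trans h2
    have h4 : ENNReal.ofReal (ε * M ^ 2) = ENNReal.ofReal M * ENNReal.ofReal (d * M) +
        ENNReal.ofReal (d * M) * ENNReal.ofReal M := by
      rw [← ENNReal.ofReal_mul hM.le, ← ENNReal.ofReal_mul (by positivity),
        ← ENNReal.ofReal_add (by positivity) (by positivity)]
      congr 1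
      rw [hd]; ring
    rw [h4] at h3
    have h5 := (ENNReal.add_le_add_iff_right
      (ENNReal.mul_ne_top ENNReal.ofReal_ne_top ENNReal.ofReal_ne_top)).mp h3
    exact (ENNReal.mul_le_mul_iff_right (ENNReal.ofReal_pos.mpr hM).ne' ENNReal.ofReal_ne_top).mp h5
  -- a general step
  have step : ∀ (B : Set (ℝ × ℝ)) (c : ℝ), B ⊆ B0 → MeasurableSet B → 0 < c →
      ENNReal.ofReal c ≤ ν B → ∀ Y : Set (ℝ × ℝ), MeasurableSet Y →
      ν Y ≤ ENNReal.ofReal (2 * η * M) →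
      ∃ a, a ∉ Y ∧ ENNReal.ofReal (d / 2 * c) ≤ ν (B ∩ Prod.mk a ⁻¹' G) := by
    intro B c hBB hBm hc hcB Y hY hYs
    have hY' : ν Y < ENNReal.ofReal (d / 2 * M) := by
      refine hYs.trans_lt ((ENNReal.ofReal_lt_ofReal_iff (by positivity)).mpr ?_)
      have : 2 * η < d / 2 := by
        rw [hη]
        have h1 : d ^ 4 ≤ d := by
          have : d ^ 4 ≤ d ^ 1 := pow_le_pow_of_le_one hdpos.le (by linarith) (by norm_num)
          simpa using this
        linarith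
      nlinarith
    obtain ⟨a, ha, hab⟩ := stage ν M hM hmass G hG d hdpos B hBm
      ((lt_of_lt_of_le (ENNReal.ofReal_pos.mpr hc) hcB).ne') (fun b hb => hBB hb) Y hY hY'
    refine ⟨a, ha, ?_⟩
    rw [ENNReal.ofReal_mul (by positivity)]
    exact (mul_le_mul_right hcB _).trans hab
  obtain ⟨a₁, -, h1⟩ := step B0 (d * M) subset_rfl hB0m (by positivity) hB0mass ∅
    MeasurableSet.empty (by simp)
  set B1 := B0 ∩ Prod.mk a₁ ⁻¹' G with hB1
  have hB1m : MeasurableSet B1 := hB0m.inter (measurable_prodMk_left hG)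
  obtain ⟨a₂, ha2, h2⟩ := step B1 (d / 2 * (d * M)) inter_subset_left hB1m (by positivity) h1
    (X a₁) (hXm a₁) ((hXs a₁).trans (ENNReal.ofReal_le_ofReal (by nlinarith [mul_pos hηpos hM])))
  set B2 := B1 ∩ Prod.mk a₂ ⁻¹' G with hB2
  have hB2m : MeasurableSet B2 := hB1m.inter (measurable_prodMk_left hG)
  obtain ⟨a₃, ha3, h3⟩ := step B2 (d / 2 * (d / 2 * (d * M)))
    (inter_subset_left.trans inter_subset_left) hB2m (by positivity) h2
    (X a₁ ∪ X a₂) ((hXm a₁).union (hXm a₂)) (by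
      refine (measure_union_le _ _).trans ((add_le_add (hXs a₁) (hXs a₂)).trans ?_)
      rw [← ENNReal.ofReal_add (by positivity) (by positivity)]
      exact ENNReal.ofReal_le_ofReal (by linarith))
  set B3 := B2 ∩ Prod.mk a₃ ⁻¹' G with hB3
  have hB3m : MeasurableSet B3 := hB2m.inter (measurable_prodMk_left hG)
  have ha31 : a₃ ∉ X a₁ := fun h => ha3 (Or.inl h)
  have ha32 : a₃ ∉ X a₂ := fun h => ha3 (Or.inr h)
  -- remove small triangles `a_i a_k b`
  set Y1 := {y | |ar a₁ a₂ y| ≤ T} ∪ {y | |ar a₁ a₃ y| ≤ T} ∪ {y | |ar a₂ a₃ y| ≤ T} with hY1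
  have hY1m : MeasurableSet Y1 := ((hslm _ _).union (hslm _ _)).union (hslm _ _)
  have three : ∀ A C D : Set (ℝ × ℝ), ν A ≤ ENNReal.ofReal (η * M) →
      ν C ≤ ENNReal.ofReal (η * M) → ν D ≤ ENNReal.ofReal (η * M) →
      ν (A ∪ C ∪ D) ≤ ENNReal.ofReal (3 * η * M) := by
    intro A C D hA hC hD
    refine (measure_union_le _ _).trans ((add_le_add (measure_union_le _ _) le_rfl).trans ?_)
    refine (add_le_add (add_le_add hA hC) hD).trans ?_
    rw [← ENNReal.ofReal_add (by positivity) (by positivity),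
      ← ENNReal.ofReal_add (by positivity) (by positivity)]
    exact ENNReal.ofReal_le_ofReal (by linarith)
  have hY1s : ν Y1 ≤ ENNReal.ofReal (3 * η * M) :=
    three _ _ _ (hslice a₁ a₂ ha2) (hslice a₁ a₃ ha31) (hslice a₂ a₃ ha32)
  set B4 := B3 \ Y1 with hB4
  have hB4m : MeasurableSet B4 := hB3m.diff hY1m
  have hB4mass : ENNReal.ofReal (47 * η * M) ≤ ν B4 := by
    have k1 : ν B3 ≤ ν B4 + ν Y1 := by
      calc ν B3 ≤ ν (B4 ∪ Y1) := by
            apply measure_mono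
            intro b hb
            by_cases h : b ∈ Y1
            · exact Or.inr h
            · exact Or.inl ⟨hb, h⟩
        _ ≤ ν B4 + ν Y1 := measure_union_le _ _
    have k2 : ENNReal.ofReal (50 * η * M) ≤ ν B4 + ENNReal.ofReal (3 * η * M) := by
      refine le_trans ?_ (k1.trans (add_le_add le_rfl hY1s))
      refine le_trans (ENNReal.ofReal_le_ofReal ?_) h3
      rw [hη]
      apply le_of_eq
      ring
    have k3 : ENNReal.ofReal (50 * η * M) =
        ENNReal.ofReal (47 * η * M) + ENNReal.ofReal (3 * η * M) := by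
      rw [← ENNReal.ofReal_add (by positivity) (by positivity)]
      congr 1; ring
    rw [k3] at k2
    exact (ENNReal.add_le_add_iff_right ENNReal.ofReal_ne_top).mp k2
  have hbig : ∀ b ∈ B4, T < |ar a₁ a₂ b| ∧ T < |ar a₁ a₃ b| ∧ T < |ar a₂ a₃ b| := by
    intro b hb
    refine ⟨?_, ?_, ?_⟩
    · by_contra h; exact hb.2 (Or.inl (Or.inl (not_lt.mp h)))
    · by_contra h; exact hb.2 (Or.inl (Or.inr (not_lt.mp h)))
    · by_contra h; exact hb.2 (Or.inr (not_lt.mp h))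
  have hne_of : ∀ x : ℝ, T < |x| → x ≠ 0 := by
    intro x hx h0
    rw [h0, abs_zero] at hx
    linarith
  have mar : ∀ o z : ℝ × ℝ, Measurable (fun w : ℝ × ℝ => ar o z w) := by
    intro o z
    apply Continuous.measurable
    unfold ar
    fun_prop
  obtain ⟨B5, hs5, hm5, hv5, hp5⟩ := half ν B4 hB4m (fun w => ar a₁ a₂ w) (mar _ _)
    (fun b hb => hne_of _ (hbig b hb).1)
  obtain ⟨B6, hs6, hm6, hv6, hp6⟩ := half ν B5 hm5 (fun w => ar a₁ a₃ w) (mar _ _)
    (fun b hb => hne_of _ (hbig b (hs5 hb)).2.1)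
  obtain ⟨B7, hs7, hm7, hv7, hp7⟩ := half ν B6 hm6 (fun w => ar a₂ a₃ w) (mar _ _)
    (fun b hb => hne_of _ (hbig b (hs5 (hs6 hb))).2.2)
  have hB7 : ENNReal.ofReal (3 * η * M) < ν B7 := by
    have k1 : ν B4 ≤ 8 * ν B7 := by
      calc ν B4 ≤ 2 * ν B5 := hv5
        _ ≤ 2 * (2 * ν B6) := by gcongr
        _ ≤ 2 * (2 * (2 * ν B7)) := by gcongr
        _ = 8 * ν B7 := by ring
    by_contra hcon
    push Not at hcon
    have k2 : ENNReal.ofReal (47 * η * M) ≤ 8 * ENNReal.ofReal (3 * η * M) :=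
      hB4mass.trans (k1.trans (mul_le_mul_right hcon _))
    have k3 : (8 : ℝ≥0∞) = ENNReal.ofReal 8 := by norm_num
    rw [k3, ← ENNReal.ofReal_mul (by norm_num), ENNReal.ofReal_le_ofReal_iff (by positivity)] at k2
    nlinarith [mul_pos hηpos hM]
  obtain ⟨b, hb, hbX⟩ := avoid ν B7 (X a₁ ∪ X a₂ ∪ X a₃)
    ((three _ _ _ (hXs a₁) (hXs a₂) (hXs a₃)).trans_lt hB7)
  have hb1 : b ∉ X a₁ := fun h => hbX (Or.inl (Or.inl h))
  have hb2 : b ∉ X a₂ := fun h => hbX (Or.inl (Or.inr h))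
  have hb3 : b ∉ X a₃ := fun h => hbX (Or.inr h)
  obtain ⟨b', hb', hbX'⟩ := avoid ν B7
    ({y | |ar a₁ b y| ≤ T} ∪ {y | |ar a₂ b y| ≤ T} ∪ {y | |ar a₃ b y| ≤ T})
    ((three _ _ _ (hslice a₁ b hb1) (hslice a₂ b hb2) (hslice a₃ b hb3)).trans_lt hB7)
  have hb'1 : T < |ar a₁ b b'| := by
    by_contra h; exact hbX' (Or.inl (Or.inl (not_lt.mp h)))
  have hb'2 : T < |ar a₂ b b'| := by
    by_contra h; exact hbX' (Or.inl (Or.inr (not_lt.mp h)))
  have hb'3 : T < |ar a₃ b b'| := by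
    by_contra h; exact hbX' (Or.inr (not_lt.mp h))
  have hb4 : b ∈ B4 := hs5 (hs6 (hs7 hb))
  have hb4' : b' ∈ B4 := hs5 (hs6 (hs7 hb'))
  have hg3 : ∀ x ∈ B4, (a₃, x) ∈ G := fun x hx => hx.1.2
  have hg2 : ∀ x ∈ B4, (a₂, x) ∈ G := fun x hx => hx.1.1.2
  have hg1 : ∀ x ∈ B4, (a₁, x) ∈ G := fun x hx => hx.1.1.1.2
  obtain ⟨u1, u2, u3⟩ := hbig b hb4
  obtain ⟨v1, v2, v3⟩ := hbig b' hb4'
  exact k32_triangle S a₁ a₂ a₃ b b' T hTpos (hGS _ (hg1 b hb4)) (hGS _ (hg1 b' hb4'))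
    (hGS _ (hg2 b hb4)) (hGS _ (hg2 b' hb4')) (hGS _ (hg3 b hb4)) (hGS _ (hg3 b' hb4'))
    u1.le v1.le (hp5 b (hs6 (hs7 hb)) b' (hs6 (hs7 hb')))
    u2.le v2.le (hp6 b (hs7 hb) b' (hs7 hb'))
    u3.le v3.le (hp7 b hb b' hb')
    hb'1.le hb'2.le hb'3.le

end Pool.Agent.Helper55.Beer
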