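import Mathlib

set_option autoImplicit false

/-! Planar geometry used in the proof of the Beer index problem. -/

namespace Pool.Agent.Helper55.Beer

open MeasureTheory Set

/-- twice the signed area of the triangle `o y w` -/
def ar (o y w : ℝ × ℝ) : ℝ := (y.1 - o.1) * (w.2 - o.2) - (y.2 - o.2) * (w.1 - o.1)

lemma ar_swap (o y w : ℝ × ℝ) : ar o w y = - ar o y w := by
  unfold ar; ring

lemma ar_self (o y : ℝ × ℝ) : ar o y y = 0 := by
  unfold ar; ring

lemma continuous_ar : Continuous (fun p : (ℝ × ℝ) × (ℝ × ℝ) × (ℝ × ℝ) => ar p.1 p.2.1 p.2.2) := by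
  unfold ar
  fun_prop

/-! ### The crossing lemma -/

/-- The crossing lemma, oriented form. -/
lemma crossing_aux (a₁ a₂ b b' : ℝ × ℝ) (σ T : ℝ) (hσ : σ = 1 ∨ σ = -1) (hT : 0 < T)
    (hP : T ≤ σ * ar a₁ a₂ b) (hP' : T ≤ σ * ar a₁ a₂ b')
    (hA1 : T ≤ σ * ar a₁ b b') (hA2 : T ≤ σ * ar a₂ b b') :
    ∃ c : ℝ × ℝ, c ∈ segment ℝ a₁ b ∧ c ∈ segment ℝ a₂ b' ∧
      (T / 2 ≤ |ar c b a₂| ∨ T / 2 ≤ |ar c a₁ b'|) := by
  set P := ar a₁ a₂ b with hPdef
  set P' := ar a₁ a₂ b' with hP'def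
  set A₁ := ar a₁ b b' with hA1def
  set A₂ := ar a₂ b b' with hA2def
  have hid : P + A₁ = P' + A₂ := by
    rw [hPdef, hP'def, hA1def, hA2def]; unfold ar; ring
  have hσ2 : σ * σ = 1 := by rcases hσ with h | h <;> rw [h] <;> norm_num
  set D := σ * P' + σ * A₂ with hD
  have hDpos : 0 < D := by linarith
  have hD' : D = σ * P + σ * A₁ := by rw [hD]; linear_combination (-σ) * hid
  -- parameters
  set s := σ * P' / D with hs
  set t := σ * P / D with ht
  have hs0 : 0 ≤ s := by rw [hs]; apply div_nonneg <;> linarith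
  have hs1 : s ≤ 1 := by rw [hs, div_le_one hDpos]; linarith
  have ht0 : 0 ≤ t := by rw [ht]; apply div_nonneg <;> linarith
  have ht1 : t ≤ 1 := by rw [ht, div_le_one hDpos]; linarith
  have hDne : D ≠ 0 := hDpos.ne'
  have hsD : s * D = σ * P' := by rw [hs]; field_simp
  have htD : t * D = σ * P := by rw [ht]; field_simp
  set c : ℝ × ℝ := ((1 - s) * a₁.1 + s * b.1, (1 - s) * a₁.2 + s * b.2) with hc
  have hDσ : D = σ * (P' + A₂) := by rw [hD]; ring
  have hσne : σ ≠ 0 := by rcases hσ with h | h <;> rw [h] <;> norm_num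
  have hc2 : c = ((1 - t) * a₂.1 + t * b'.1, (1 - t) * a₂.2 + t * b'.2) := by
    have e1 : D * ((1 - s) * a₁.1 + s * b.1) = D * ((1 - t) * a₂.1 + t * b'.1) := by
      have : D * ((1 - s) * a₁.1 + s * b.1) - D * ((1 - t) * a₂.1 + t * b'.1)
          = D * (a₁.1 - a₂.1) + (s * D) * (b.1 - a₁.1) - (t * D) * (b'.1 - a₂.1) := by ring
      have h2 : D * (a₁.1 - a₂.1) + (s * D) * (b.1 - a₁.1) - (t * D) * (b'.1 - a₂.1) = 0 := by
        rw [hsD, htD, hDσ, hPdef, hP'def, hA2def]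
        unfold ar
        ring
      linarith
    have e2 : D * ((1 - s) * a₁.2 + s * b.2) = D * ((1 - t) * a₂.2 + t * b'.2) := by
      have : D * ((1 - s) * a₁.2 + s * b.2) - D * ((1 - t) * a₂.2 + t * b'.2)
          = D * (a₁.2 - a₂.2) + (s * D) * (b.2 - a₁.2) - (t * D) * (b'.2 - a₂.2) := by ring
      have h2 : D * (a₁.2 - a₂.2) + (s * D) * (b.2 - a₁.2) - (t * D) * (b'.2 - a₂.2) = 0 := by
        rw [hsD, htD, hDσ, hPdef, hP'def, hA2def]
        unfold ar
        ring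
      linarith
    rw [hc]
    ext
    · exact mul_left_cancel₀ hDne e1
    · exact mul_left_cancel₀ hDne e2
  refine ⟨c, ?_, ?_, ?_⟩
  · refine ⟨1 - s, s, by linarith, hs0, by ring, ?_⟩
    rw [hc]
    ext <;> simp
  · refine ⟨1 - t, t, by linarith, ht0, by ring, ?_⟩
    rw [hc2]
    ext <;> simp
  · -- areas
    have har1 : ar c b a₂ = -(1 - s) * P := by
      rw [hc, hPdef]; unfold ar; ring
    have har2 : ar c a₁ b' = -(1 - t) * P' := by
      rw [hc2, hP'def]; unfold ar; ring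
    have h1s : (1 - s) * D = σ * A₂ := by
      have : (1 - s) * D = D - s * D := by ring
      rw [this, hsD, hD]; ring
    have h1t : (1 - t) * D = σ * A₁ := by
      have : (1 - t) * D = D - t * D := by ring
      rw [this, htD, hD']; ring
    have habs : ∀ x : ℝ, |x| = |σ * x| := by
      intro x
      rw [abs_mul]
      rcases hσ with h | h <;> rw [h] <;> simp
    by_cases hcmp : σ * P' ≤ σ * A₂
    · left
      rw [har1, habs]
      have e : σ * (-(1 - s) * P) = -((1 - s) * (σ * P)) := by ring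
      rw [e, abs_neg]
      have h3 : 1 / 2 ≤ 1 - s := by
        have : (1 / 2) * D ≤ (1 - s) * D := by rw [h1s, hD]; linarith
        exact le_of_mul_le_mul_right this hDpos
      have h4 : T / 2 ≤ (1 - s) * (σ * P) := by nlinarith
      exact le_trans h4 (le_abs_self _)
    · right
      push Not at hcmp
      rw [har2, habs]
      have e : σ * (-(1 - t) * P') = -((σ * A₁) * s) := by
        have : (σ * (-(1 - t) * P')) * D = (-((σ * A₁) * s)) * D := by
          have e1 : (σ * (-(1 - t) * P')) * D = -((1 - t) * D) * (σ * P') := by ring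
          have e2 : (-((σ * A₁) * s)) * D = -(σ * A₁) * (s * D) := by ring
          rw [e1, e2, h1t, hsD]
        exact mul_right_cancel₀ hDne this
      rw [e, abs_neg]
      have h3 : 1 / 2 ≤ s := by
        have : (1 / 2) * D ≤ s * D := by rw [hsD, hD]; linarith
        exact le_of_mul_le_mul_right this hDpos
      have h4 : T / 2 ≤ (σ * A₁) * s := by nlinarith
      exact le_trans h4 (le_abs_self _)

/-- From a crossing to a triangle with boundary in `S`. -/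
lemma crossing_triangle (S : Set (ℝ × ℝ)) (a₁ a₂ b b' : ℝ × ℝ) (T : ℝ) (hT : 0 < T)
    (h1b : segment ℝ a₁ b ⊆ S) (h1b' : segment ℝ a₁ b' ⊆ S)
    (h2b : segment ℝ a₂ b ⊆ S) (h2b' : segment ℝ a₂ b' ⊆ S)
    (hP : T ≤ |ar a₁ a₂ b|) (hP' : T ≤ |ar a₁ a₂ b'|)
    (hPP : 0 < ar a₁ a₂ b * ar a₁ a₂ b')
    (hA1 : T ≤ |ar a₁ b b'|) (hA2 : T ≤ |ar a₂ b b'|)
    (hAA : 0 < ar a₁ b b' * ar a₂ b b') :
    ∃ p q r : ℝ × ℝ, segment ℝ p q ⊆ S ∧ segment ℝ p r ⊆ S ∧ segment ℝ q r ⊆ S ∧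
      T / 2 ≤ |ar p q r| := by
  -- the oriented consequence
  have main : ∀ (b b' : ℝ × ℝ) (σ : ℝ), (σ = 1 ∨ σ = -1) → segment ℝ a₁ b ⊆ S →
      segment ℝ a₁ b' ⊆ S → segment ℝ a₂ b ⊆ S → segment ℝ a₂ b' ⊆ S →
      T ≤ σ * ar a₁ a₂ b → T ≤ σ * ar a₁ a₂ b' → T ≤ σ * ar a₁ b b' → T ≤ σ * ar a₂ b b' →
      ∃ p q r : ℝ × ℝ, segment ℝ p q ⊆ S ∧ segment ℝ p r ⊆ S ∧ segment ℝ q r ⊆ S ∧
        T / 2 ≤ |ar p q r| := by
    intro b b' σ hσ g1b g1b' g2b g2b' k1 k2 k3 k4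
    obtain ⟨c, hc1, hc2, hc3⟩ := crossing_aux a₁ a₂ b b' σ T hσ hT k1 k2 k3 k4
    have sub : ∀ {x y : ℝ × ℝ} {z w : ℝ × ℝ}, segment ℝ x y ⊆ S → z ∈ segment ℝ x y →
        w ∈ segment ℝ x y → segment ℝ z w ⊆ S := by
      intro x y z w hS hz hw
      exact ((convex_segment x y).segment_subset hz hw).trans hS
    rcases hc3 with h | h
    · refine ⟨c, b, a₂, ?_, ?_, ?_, h⟩
      · exact sub g1b hc1 (right_mem_segment ℝ _ _)
      · exact sub g2b' hc2 (left_mem_segment ℝ _ _)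
      · rw [segment_symm]; exact g2b
    · refine ⟨c, a₁, b', ?_, ?_, ?_, h⟩
      · exact sub g1b hc1 (left_mem_segment ℝ _ _)
      · exact sub g2b' hc2 (right_mem_segment ℝ _ _)
      · exact g1b'
  have hswap1 : ar a₁ b' b = - ar a₁ b b' := ar_swap _ _ _
  have hswap2 : ar a₂ b' b = - ar a₂ b b' := ar_swap _ _ _
  rcases lt_or_ge 0 (ar a₁ a₂ b) with hp | hp
  · have hp' : 0 < ar a₁ a₂ b' := by
      by_contra h; push Not at h; nlinarith
    rw [abs_of_pos hp] at hP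
    rw [abs_of_pos hp'] at hP'
    rcases lt_or_ge 0 (ar a₁ b b') with ha | ha
    · have ha' : 0 < ar a₂ b b' := by
        by_contra h; push Not at h; nlinarith
      rw [abs_of_pos ha] at hA1
      rw [abs_of_pos ha'] at hA2
      exact main b b' 1 (Or.inl rfl) h1b h1b' h2b h2b' (by linarith) (by linarith) (by linarith)
        (by linarith)
    · have ha0 : ar a₁ b b' ≠ 0 := fun h => by rw [h] at hAA; simp at hAA
      have ha1 : ar a₁ b b' < 0 := lt_of_le_of_ne ha ha0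
      have ha' : ar a₂ b b' < 0 := by
        by_contra h; push Not at h; nlinarith
      rw [abs_of_neg ha1] at hA1
      rw [abs_of_neg ha'] at hA2
      exact main b' b 1 (Or.inl rfl) h1b' h1b h2b' h2b (by linarith) (by linarith) (by linarith)
        (by linarith)
  · have hp0 : ar a₁ a₂ b ≠ 0 := fun h => by rw [h] at hPP; simp at hPP
    have hp1 : ar a₁ a₂ b < 0 := lt_of_le_of_ne hp hp0
    have hp' : ar a₁ a₂ b' < 0 := by
      by_contra h; push Not at h; nlinarith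
    rw [abs_of_neg hp1] at hP
    rw [abs_of_neg hp'] at hP'
    rcases lt_or_ge 0 (ar a₁ b b') with ha | ha
    · have ha' : 0 < ar a₂ b b' := by
        by_contra h; push Not at h; nlinarith
      rw [abs_of_pos ha] at hA1
      rw [abs_of_pos ha'] at hA2
      exact main b' b (-1) (Or.inr rfl) h1b' h1b h2b' h2b (by linarith) (by linarith)
        (by linarith) (by linarith)
    · have ha0 : ar a₁ b b' ≠ 0 := fun h => by rw [h] at hAA; simp at hAA
      have ha1 : ar a₁ b b' < 0 := lt_of_le_of_ne ha ha0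
      have ha' : ar a₂ b b' < 0 := by
        by_contra h; push Not at h; nlinarith
      rw [abs_of_neg ha1] at hA1
      rw [abs_of_neg ha'] at hA2
      exact main b b' (-1) (Or.inr rfl) h1b h1b' h2b h2b' (by linarith) (by linarith)
        (by linarith) (by linarith)

/-- Three points `a i` and two points `b, b'` in the same region: there is a big triangle. -/
lemma k32_triangle (S : Set (ℝ × ℝ)) (a₁ a₂ a₃ b b' : ℝ × ℝ) (T : ℝ) (hT : 0 < T)
    (h1b : segment ℝ a₁ b ⊆ S) (h1b' : segment ℝ a₁ b' ⊆ S)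
    (h2b : segment ℝ a₂ b ⊆ S) (h2b' : segment ℝ a₂ b' ⊆ S)
    (h3b : segment ℝ a₃ b ⊆ S) (h3b' : segment ℝ a₃ b' ⊆ S)
    (hP12 : T ≤ |ar a₁ a₂ b|) (hP12' : T ≤ |ar a₁ a₂ b'|) (hS12 : 0 < ar a₁ a₂ b * ar a₁ a₂ b')
    (hP13 : T ≤ |ar a₁ a₃ b|) (hP13' : T ≤ |ar a₁ a₃ b'|) (hS13 : 0 < ar a₁ a₃ b * ar a₁ a₃ b')
    (hP23 : T ≤ |ar a₂ a₃ b|) (hP23' : T ≤ |ar a₂ a₃ b'|) (hS23 : 0 < ar a₂ a₃ b * ar a₂ a₃ b')
    (hA1 : T ≤ |ar a₁ b b'|) (hA2 : T ≤ |ar a₂ b b'|) (hA3 : T ≤ |ar a₃ b b'|) :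
    ∃ p q r : ℝ × ℝ, segment ℝ p q ⊆ S ∧ segment ℝ p r ⊆ S ∧ segment ℝ q r ⊆ S ∧
      T / 2 ≤ |ar p q r| := by
  have n1 : ar a₁ b b' ≠ 0 := fun h => by rw [h] at hA1; simp at hA1; linarith
  have n2 : ar a₂ b b' ≠ 0 := fun h => by rw [h] at hA2; simp at hA2; linarith
  have n3 : ar a₃ b b' ≠ 0 := fun h => by rw [h] at hA3; simp at hA3; linarith
  rcases lt_or_gt_of_ne n1 with s1 | s1 <;> rcases lt_or_gt_of_ne n2 with s2 | s2 <;>
    rcases lt_or_gt_of_ne n3 with s3 | s3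
  all_goals first
    | exact crossing_triangle S a₁ a₂ b b' T hT h1b h1b' h2b h2b' hP12 hP12' hS12 hA1 hA2
        (by nlinarith)
    | exact crossing_triangle S a₁ a₃ b b' T hT h1b h1b' h3b h3b' hP13 hP13' hS13 hA1 hA3
        (by nlinarith)
    | exact crossing_triangle S a₂ a₃ b b' T hT h2b h2b' h3b h3b' hP23 hP23' hS23 hA2 hA3
        (by nlinarith)

end Pool.Agent.Helper55.Beer
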