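import Pool.Agent.Helper55.BeerCore
import Pool.Agent.Helper55.Analytic

set_option autoImplicit false

/-! The Beer index theorem: a set of large Beer index contains the boundary of a large triangle. -/

namespace Pool.Agent.Helper55.Beer

open MeasureTheory Set
open scoped ENNReal

/-- For Borel `S` the set of pairs of mutually visible points is null-measurable. -/
theorem seg_nullMeasurable (S : Set (ℝ × ℝ)) (hS : MeasurableSet S) :
    NullMeasurableSet {p : (ℝ × ℝ) × (ℝ × ℝ) | segment ℝ p.1 p.2 ⊆ S} volume := by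
  set Q : Set (((ℝ × ℝ) × (ℝ × ℝ)) × ℝ) :=
    {q | q.2 ∈ Icc (0 : ℝ) 1} ∩ (fun q => q.1.1 + q.2 • (q.1.2 - q.1.1)) ⁻¹' Sᶜ with hQ
  have hQm : MeasurableSet Q := by
    apply MeasurableSet.inter
    · exact measurable_snd measurableSet_Icc
    · have hc : Continuous (fun q : ((ℝ × ℝ) × (ℝ × ℝ)) × ℝ => q.1.1 + q.2 • (q.1.2 - q.1.1)) := by
        fun_prop
      exact hc.measurable hS.compl
  have hAn : AnalyticSet (Prod.fst '' Q) := hQm.analyticSet.image_of_continuous continuous_fst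
  have hcompl : {p : (ℝ × ℝ) × (ℝ × ℝ) | segment ℝ p.1 p.2 ⊆ S} = (Prod.fst '' Q)ᶜ := by
    ext p
    simp only [mem_ofPred_eq, mem_compl_iff, mem_image, not_exists, not_and]
    rw [segment_eq_image', image_subset_iff]
    constructor
    · rintro h ⟨p', t⟩ ⟨ht, hnot⟩ rfl
      exact hnot (h ht)
    · intro h t ht
      by_contra hnot
      exact h (p, t) ⟨ht, hnot⟩ rfl
  rw [hcompl]
  have h1 : NullMeasurableSet (Prod.fst '' Q) (volume : Measure ((ℝ × ℝ) × (ℝ × ℝ))).toFinite :=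
    analytic_nullMeasurable _ hAn
  exact (h1.mono_ac (absolutelyContinuous_toFinite _)).compl

/-- The main theorem in quantitative form. -/
theorem main_null (ε : ℝ) (hε : 0 < ε) (hε1 : ε ≤ 1) (S : Set (ℝ × ℝ)) (h0 : 0 < volume S)
    (htop : volume S < ⊤)
    (hseg : NullMeasurableSet {p : (ℝ × ℝ) × (ℝ × ℝ) | segment ℝ p.1 p.2 ⊆ S} volume)
    (hdens : ENNReal.ofReal ε * (volume S) ^ 2 ≤
      volume {p : (ℝ × ℝ) × (ℝ × ℝ) | segment ℝ p.1 p.2 ⊆ S}) :
    ∃ p q r : ℝ × ℝ, segment ℝ p q ⊆ S ∧ segment ℝ p r ⊆ S ∧ segment ℝ q r ⊆ S ∧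
      ((ε / 2) ^ 4 / 400) ^ 2 / 60 * (volume S).toReal / 2 ≤ |ar p q r| := by
  set S₁ := toMeasurable volume S with hS₁
  have hS₁m : MeasurableSet S₁ := measurableSet_toMeasurable _ _
  have hSS₁ : S ⊆ S₁ := subset_toMeasurable _ _
  have hvol : volume S₁ = volume S := measure_toMeasurable S
  set M := (volume S).toReal with hM
  have hMpos : 0 < M := ENNReal.toReal_pos h0.ne' htop.ne
  have hMof : volume S = ENNReal.ofReal M := (ENNReal.ofReal_toReal htop.ne).symm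
  set ν : Measure (ℝ × ℝ) := volume.restrict S₁ with hν
  have : IsFiniteMeasure ν := ⟨by rw [hν, Measure.restrict_apply_univ, hvol]; exact htop⟩
  have hmass : ν univ = ENNReal.ofReal M := by
    rw [hν, Measure.restrict_apply_univ, hvol, hMof]
  obtain ⟨G, hGsub, hGm, hGae⟩ := hseg.exists_measurable_subset_ae_eq
  have hGS : G ⊆ S₁ ×ˢ S₁ := by
    intro p hp
    have h1 : segment ℝ p.1 p.2 ⊆ S := hGsub hp
    exact ⟨hSS₁ (h1 (left_mem_segment ℝ _ _)), hSS₁ (h1 (right_mem_segment ℝ _ _))⟩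
  have hprod : (ν.prod ν) G = volume G := by
    rw [hν, Measure.prod_restrict, Measure.restrict_apply hGm, inter_eq_self_of_subset_left hGS]
    rfl
  have hd : ENNReal.ofReal (ε * M ^ 2) ≤ (ν.prod ν) G := by
    rw [hprod, measure_congr hGae]
    refine le_trans (le_of_eq ?_) hdens
    rw [hMof, ← ENNReal.ofReal_pow hMpos.le, ← ENNReal.ofReal_mul hε.le]
  exact core ε hε hε1 ν Measure.restrict_le_self M hMpos hmass S G hGm
    (fun p hp => hGsub hp) hd

/-- Convex-set form, for all `ε > 0`. -/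
theorem main_convex (ε : ℝ) (hε : 0 < ε) : ∃ δ : ℝ, 0 < δ ∧
    ∀ S : Set (ℝ × ℝ), 0 < volume S → volume S < ⊤ →
      NullMeasurableSet {p : (ℝ × ℝ) × (ℝ × ℝ) | segment ℝ p.1 p.2 ⊆ S} volume →
      ENNReal.ofReal ε * (volume S) ^ 2 ≤
        volume {p : (ℝ × ℝ) × (ℝ × ℝ) | segment ℝ p.1 p.2 ⊆ S} →
      ∃ C : Set (ℝ × ℝ), Convex ℝ C ∧ Bornology.IsBounded C ∧
        ENNReal.ofReal δ * volume S ≤ volume C ∧ frontier C ⊆ S := by
  set ε' := min ε 1 with hε'
  have hε'pos : 0 < ε' := lt_min hε one_pos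
  refine ⟨((ε' / 2) ^ 4 / 400) ^ 2 / 480, by positivity, ?_⟩
  intro S h0 htop hseg hdens
  have hdens' : ENNReal.ofReal ε' * (volume S) ^ 2 ≤
      volume {p : (ℝ × ℝ) × (ℝ × ℝ) | segment ℝ p.1 p.2 ⊆ S} := by
    refine le_trans ?_ hdens
    gcongr
    exact min_le_left _ _
  obtain ⟨p, q, r, h1, h2, h3, h4⟩ :=
    main_null ε' hε'pos (min_le_right _ _) S h0 htop hseg hdens'
  obtain ⟨C, hC1, hC2, hC3, hC4⟩ := exists_convex S p q r h1 h2 h3
  refine ⟨C, hC1, hC2, ?_, hC4⟩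
  refine le_trans ?_ hC3
  have hMof : volume S = ENNReal.ofReal (volume S).toReal := (ENNReal.ofReal_toReal htop.ne).symm
  conv_lhs => rw [hMof]
  rw [← ENNReal.ofReal_mul (by positivity)]
  apply ENNReal.ofReal_le_ofReal
  linarith

end Pool.Agent.Helper55.Beer
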