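import Pool.Agent.Helper55.BeerTri

set_option autoImplicit false

/-! Few triples of points of a planar set of finite measure span a triangle of small area. -/

namespace Pool.Agent.Helper55.Beer

open MeasureTheory Set
open scoped ENNReal

/-- the line through `o` and `y` has measure zero -/
lemma line_null (o y : ℝ × ℝ) (h : y ≠ o) : volume {w : ℝ × ℝ | ar o y w = 0} = 0 := by
  set L : (ℝ × ℝ) →ₗ[ℝ] ℝ × ℝ := lin (-(y.2 - o.2)) (y.1 - o.1) 0 0 with hL
  have hset : {w : ℝ × ℝ | ar o y w = 0}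
      = (fun w => w + (-o)) ⁻¹' (LinearMap.ker L : Set (ℝ × ℝ)) := by
    ext w
    simp only [mem_ofPred_eq, mem_preimage, SetLike.mem_coe, LinearMap.mem_ker, hL, lin_apply]
    have e1 : -(y.2 - o.2) * (w + -o).1 + (y.1 - o.1) * (w + -o).2 = ar o y w := by
      unfold ar; simp; ring
    rw [e1]
    simp [Prod.ext_iff]
  rw [hset, measure_preimage_add_right]
  apply Measure.addHaar_submodule
  intro htop
  have hker := LinearMap.ker_eq_top.mp htop
  have h1 := congrArg (fun f : (ℝ × ℝ) →ₗ[ℝ] ℝ × ℝ => (f (1, 0)).1) hker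
  have h2 := congrArg (fun f : (ℝ × ℝ) →ₗ[ℝ] ℝ × ℝ => (f (0, 1)).1) hker
  simp only [hL, lin_apply, LinearMap.zero_apply, Prod.fst_zero] at h1 h2
  apply h
  ext <;> linarith

/-- If all triangles `o y y'` with `y, y' ∈ B` have small area then `B` has small measure. -/
lemma all_pairs (o : ℝ × ℝ) (B : Set (ℝ × ℝ)) (s : ℝ) (hs : 0 ≤ s)
    (h : ∀ y ∈ B, ∀ y' ∈ B, |ar o y y'| ≤ s) : volume B ≤ ENNReal.ofReal (8 * s) := by
  by_contra hcon
  push Not at hcon
  have hdesc : ∀ n : ℕ, ∀ y ∈ B, ∀ y' ∈ B, |ar o y y'| ≤ s / 2 ^ n := by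
    intro n
    induction n with
    | zero => simpa using h
    | succ n ih =>
      intro y hy y' hy'
      by_contra hlt
      push Not at hlt
      set r := s / 2 ^ n with hr
      have hr0 : 0 ≤ r := by positivity
      have hrs : r ≤ s := by
        rw [hr]
        apply div_le_self hs
        exact one_le_pow₀ (by norm_num)
      have hr2 : s / 2 ^ (n + 1) = r / 2 := by rw [hr, pow_succ]; field_simp
      rw [hr2] at hlt
      have hpos : 0 < |ar o y y'| := lt_of_le_of_lt (by positivity) hlt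
      have hne : ar o y y' ≠ 0 := abs_pos.mp hpos
      have hsub : B ⊆ {w : ℝ × ℝ | |ar o y w| ≤ r ∧ |ar o y' w| ≤ r} :=
        fun w hw => ⟨ih y hy w hw, ih y' hy' w hw⟩
      have h1 := (measure_mono hsub).trans (par_volume o y y' r hr0 hne)
      have h2 : 4 * r ^ 2 / |ar o y y'| ≤ 8 * s := by
        rw [div_le_iff₀ hpos]
        nlinarith
      exact absurd (h1.trans (ENNReal.ofReal_le_ofReal h2)) (not_le.mpr hcon)
  have hzero : ∀ y ∈ B, ∀ y' ∈ B, ar o y y' = 0 := by
    intro y hy y' hy'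
    have hlim : Filter.Tendsto (fun n : ℕ => s / 2 ^ n) Filter.atTop (nhds 0) := by
      have h1 := (tendsto_pow_atTop_nhds_zero_of_lt_one (r := (1 / 2 : ℝ)) (by norm_num)
        (by norm_num)).const_mul s
      simp only [mul_zero] at h1
      refine h1.congr (fun n => ?_)
      rw [one_div, inv_pow]; rfl
    have h1 : |ar o y y'| ≤ 0 := ge_of_tendsto' hlim (fun n => hdesc n y hy y' hy')
    exact abs_nonpos_iff.mp h1
  have hB0 : volume B = 0 := by
    by_cases hex : ∃ y ∈ B, y ≠ o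
    · obtain ⟨y, hy, hyo⟩ := hex
      exact measure_mono_null (fun w hw => hzero y hy w hw) (line_null o y hyo)
    · push Not at hex
      exact measure_mono_null (fun w hw => hex w hw) (measure_singleton o)
  rw [hB0] at hcon
  exact absurd hcon (by simp)

lemma measurable_ar_pair (o : ℝ × ℝ) :
    Measurable (fun p : (ℝ × ℝ) × (ℝ × ℝ) => |ar o p.1 p.2|) := by
  apply Continuous.measurable
  unfold ar
  fun_prop

lemma measurableSet_big (o : ℝ × ℝ) (s : ℝ) :
    MeasurableSet {p : (ℝ × ℝ) × (ℝ × ℝ) | s < |ar o p.1 p.2|} :=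
  measurableSet_lt measurable_const (measurable_ar_pair o)

lemma measurableSet_small (o : ℝ × ℝ) (s : ℝ) :
    MeasurableSet {p : (ℝ × ℝ) × (ℝ × ℝ) | |ar o p.1 p.2| ≤ s} :=
  measurableSet_le (measurable_ar_pair o) measurable_const

lemma measurable_ar_right (o y : ℝ × ℝ) : Measurable (fun w : ℝ × ℝ => |ar o y w|) := by
  apply Continuous.measurable
  unfold ar
  fun_prop

/-- If almost all pairs of `ν` span (with `o`) a triangle of small area, then `ν` is small. -/
lemma most_pairs (ν : Measure (ℝ × ℝ)) [IsFiniteMeasure ν] (hν : ν ≤ volume) (o : ℝ × ℝ)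
    (s β : ℝ) (hs : 0 < s) (hβ : 0 < β) (hmass : ν univ = ENNReal.ofReal β)
    (h : (ν.prod ν) {p : (ℝ × ℝ) × (ℝ × ℝ) | s < |ar o p.1 p.2|} < ENNReal.ofReal (β ^ 2 / 100)) :
    β ≤ 7 * s := by
  set f : (ℝ × ℝ) → ℝ≥0∞ := fun y => ν {w | s < |ar o y w|} with hf
  have hfm : Measurable f := measurable_measure_prodMk_left (measurableSet_big o s)
  have hint : ∫⁻ y, f y ∂ν = (ν.prod ν) {p : (ℝ × ℝ) × (ℝ × ℝ) | s < |ar o p.1 p.2|} := by
    rw [Measure.prod_apply (measurableSet_big o s)]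
    rfl
  -- Markov
  have hmarkov := mul_meas_ge_le_lintegral (μ := ν) hfm (ENNReal.ofReal (β / 10))
  rw [hint] at hmarkov
  have hbad : ν {y | ENNReal.ofReal (β / 10) ≤ f y} ≤ ENNReal.ofReal (β / 10) := by
    by_contra hc
    push Not at hc
    have h1 : ENNReal.ofReal (β / 10) * ENNReal.ofReal (β / 10) ≤
        ENNReal.ofReal (β / 10) * ν {y | ENNReal.ofReal (β / 10) ≤ f y} :=
      mul_le_mul_right hc.le _
    have h2 := (h1.trans hmarkov).trans_lt h
    rw [← ENNReal.ofReal_mul (by positivity)] at h2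
    have h3 : β / 10 * (β / 10) = β ^ 2 / 100 := by ring
    rw [h3] at h2
    exact lt_irrefl _ h2
  set B : Set (ℝ × ℝ) := {y | f y < ENNReal.ofReal (β / 10)} with hB
  have hBm : MeasurableSet B := measurableSet_lt hfm measurable_const
  have hBc : Bᶜ = {y | ENNReal.ofReal (β / 10) ≤ f y} := by
    ext y; simp [hB]
  -- the mass of `B`
  have hBmass : ENNReal.ofReal (9 * β / 10) ≤ ν B := by
    have h1 : ν univ ≤ ν B + ν Bᶜ := by
      rw [← union_compl_self B]; exact measure_union_le _ _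
    rw [hmass, hBc] at h1
    have h2 : ENNReal.ofReal β ≤ ν B + ENNReal.ofReal (β / 10) := h1.trans (by gcongr)
    have h3 : ENNReal.ofReal β = ENNReal.ofReal (9 * β / 10) + ENNReal.ofReal (β / 10) := by
      rw [← ENNReal.ofReal_add (by positivity) (by positivity)]; congr 1; ring
    rw [h3] at h2
    exact (ENNReal.add_le_add_iff_right ENNReal.ofReal_ne_top).mp h2
  -- all pairs in `B` are small
  have hpairs : ∀ y ∈ B, ∀ y' ∈ B, |ar o y y'| ≤ 5 * s ^ 2 / β := by
    intro y hy y' hy'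
    by_cases h0 : ar o y y' = 0
    · rw [h0, abs_zero]; positivity
    have hpos : 0 < |ar o y y'| := abs_pos.mpr h0
    have hcov : (univ : Set (ℝ × ℝ)) ⊆ ({w | s < |ar o y w|} ∪ {w | s < |ar o y' w|}) ∪
        {w | |ar o y w| ≤ s ∧ |ar o y' w| ≤ s} := by
      intro w _
      by_cases h1 : s < |ar o y w|
      · exact Or.inl (Or.inl h1)
      · by_cases h2 : s < |ar o y' w|
        · exact Or.inl (Or.inr h2)
        · exact Or.inr ⟨not_lt.mp h1, not_lt.mp h2⟩
    have h1 : ν univ ≤ f y + f y' + ν {w | |ar o y w| ≤ s ∧ |ar o y' w| ≤ s} :=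
      (measure_mono hcov).trans ((measure_union_le _ _).trans (by
        gcongr
        exact measure_union_le _ _))
    have h2 : ν {w | |ar o y w| ≤ s ∧ |ar o y' w| ≤ s} ≤
        ENNReal.ofReal (4 * s ^ 2 / |ar o y y'|) :=
      (hν _).trans (par_volume o y y' s hs.le h0)
    have h3 : ENNReal.ofReal β ≤ ENNReal.ofReal (β / 10) + ENNReal.ofReal (β / 10) +
        ENNReal.ofReal (4 * s ^ 2 / |ar o y y'|) := by
      rw [← hmass]
      exact h1.trans (add_le_add (add_le_add (le_of_lt hy) (le_of_lt hy')) h2)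
    rw [← ENNReal.ofReal_add (by positivity) (by positivity),
      ← ENNReal.ofReal_add (by positivity) (by positivity),
      ENNReal.ofReal_le_ofReal_iff (by positivity)] at h3
    have h4 : 8 / 10 * β ≤ 4 * s ^ 2 / |ar o y y'| := by linarith
    rw [le_div_iff₀ hpos] at h4
    rw [le_div_iff₀ hβ]
    nlinarith
  have hall := all_pairs o B (5 * s ^ 2 / β) (by positivity) hpairs
  have h5 := (hBmass.trans (hν B)).trans hall
  rw [ENNReal.ofReal_le_ofReal_iff (by positivity)] at h5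
  have h6 : 9 * β / 10 * β ≤ 8 * (5 * s ^ 2) := by
    have : 8 * (5 * s ^ 2 / β) * β = 8 * (5 * s ^ 2) := by field_simp
    rw [← this]
    exact mul_le_mul_of_nonneg_right h5 hβ.le
  nlinarith

/-- Uniform smallness: for all but few `z`, few `y` span with `o, z` a triangle of small area. -/
lemma few_small (η : ℝ) (hη : 0 < η) (ν : Measure (ℝ × ℝ)) [IsFiniteMeasure ν]
    (hν : ν ≤ volume) (M : ℝ) (hM : 0 < M) (hmass : ν univ = ENNReal.ofReal M) (o : ℝ × ℝ) :
    ν {z | ENNReal.ofReal (η * M) < ν {y | |ar o z y| ≤ η ^ 2 / 60 * M}} ≤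
      ENNReal.ofReal (η * M) := by
  set t : ℝ := η ^ 2 / 60 * M with ht
  set s : ℝ := η / 8 * M with hs
  have htpos : 0 < t := by positivity
  have hspos : 0 < s := by positivity
  set N : (ℝ × ℝ) → Set (ℝ × ℝ) := fun z => {y | |ar o z y| ≤ t} with hN
  have hNm : ∀ z, MeasurableSet (N z) := fun z =>
    measurableSet_le (measurable_ar_right o z) measurable_const
  have hnm : Measurable (fun z => ν (N z)) :=
    measurable_measure_prodMk_left (measurableSet_small o t)
  set Z : Set (ℝ × ℝ) := {z | ENNReal.ofReal (η * M) < ν (N z)} with hZ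
  have hZm : MeasurableSet Z := measurableSet_lt measurable_const hnm
  by_contra hcon
  push Not at hcon
  set W : Set ((ℝ × ℝ) × (ℝ × ℝ)) := {p | s < |ar o p.1 p.2|} with hW
  have hWm : MeasurableSet W := measurableSet_big o s
  -- the triple set
  set Q : Set ((ℝ × ℝ) × ((ℝ × ℝ) × (ℝ × ℝ))) :=
    {q | q.2 ∈ W ∧ |ar o q.1 q.2.1| ≤ t ∧ |ar o q.1 q.2.2| ≤ t} with hQ
  have hQm : MeasurableSet Q := by
    have hQeq : Q = Prod.snd ⁻¹' W ∩
        ({q : (ℝ × ℝ) × ((ℝ × ℝ) × (ℝ × ℝ)) | |ar o q.1 q.2.1| ≤ t} ∩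
          {q : (ℝ × ℝ) × ((ℝ × ℝ) × (ℝ × ℝ)) | |ar o q.1 q.2.2| ≤ t}) := by
      ext q; rfl
    rw [hQeq]
    refine (measurable_snd hWm).inter (MeasurableSet.inter ?_ ?_)
    · refine measurableSet_le ?_ measurable_const
      apply Continuous.measurable
      unfold ar
      fun_prop
    · refine measurableSet_le ?_ measurable_const
      apply Continuous.measurable
      unfold ar
      fun_prop
  have hQ1 : (ν.prod (ν.prod ν)) Q = ∫⁻ z, (ν.prod ν) (W ∩ (N z ×ˢ N z)) ∂ν := by
    rw [Measure.prod_apply hQm]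
    rfl
  have hQ2 : (ν.prod (ν.prod ν)) Q = ∫⁻ p, ν ((fun z => (z, p)) ⁻¹' Q) ∂(ν.prod ν) :=
    Measure.prod_apply_symm hQm
  -- upper bound
  have hup : (ν.prod (ν.prod ν)) Q ≤ ENNReal.ofReal (4 * t ^ 2 / s) * (ENNReal.ofReal M) ^ 2 := by
    rw [hQ2]
    have hpt : ∀ p : (ℝ × ℝ) × (ℝ × ℝ), ν ((fun z => (z, p)) ⁻¹' Q) ≤
        ENNReal.ofReal (4 * t ^ 2 / s) := by
      intro p
      by_cases hp : p ∈ W
      · have hps : s < |ar o p.1 p.2| := hp
        have hne : ar o p.1 p.2 ≠ 0 := by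
          intro h0; rw [h0, abs_zero] at hps; linarith
        have hsub : (fun z => (z, p)) ⁻¹' Q ⊆ {z | |ar o p.1 z| ≤ t ∧ |ar o p.2 z| ≤ t} := by
          rintro z ⟨_, h1, h2⟩
          refine ⟨?_, ?_⟩
          · rw [ar_swap, abs_neg]; exact h1
          · rw [ar_swap, abs_neg]; exact h2
        refine (hν _).trans ((measure_mono hsub).trans ((par_volume o p.1 p.2 t htpos.le hne).trans
          (ENNReal.ofReal_le_ofReal ?_)))
        apply div_le_div_of_nonneg_left (by positivity) hspos hps.le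
      · have : (fun z => (z, p)) ⁻¹' Q = ∅ := by
          ext z; simp only [hQ, mem_preimage, mem_ofPred_eq, mem_empty_iff_false, iff_false]
          exact fun h => hp h.1
        rw [this, measure_empty]
        exact zero_le
    calc ∫⁻ p, ν ((fun z => (z, p)) ⁻¹' Q) ∂(ν.prod ν)
        ≤ ∫⁻ _, ENNReal.ofReal (4 * t ^ 2 / s) ∂(ν.prod ν) := lintegral_mono hpt
      _ = ENNReal.ofReal (4 * t ^ 2 / s) * (ENNReal.ofReal M) ^ 2 := by
        rw [lintegral_const, ← univ_prod_univ, Measure.prod_prod, hmass, pow_two (ENNReal.ofReal M)]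
  -- lower bound
  have hlow : ENNReal.ofReal ((η * M) ^ 2 / 100) * ENNReal.ofReal (η * M) ≤
      (ν.prod (ν.prod ν)) Q := by
    rw [hQ1]
    have hpt : ∀ z ∈ Z, ENNReal.ofReal ((η * M) ^ 2 / 100) ≤ (ν.prod ν) (W ∩ (N z ×ˢ N z)) := by
      intro z hz
      by_contra hc
      push Not at hc
      set νz := ν.restrict (N z) with hνz
      have hfin : ν (N z) ≠ ⊤ := measure_ne_top ν _
      set β := (ν (N z)).toReal with hβ
      have hβmass : νz univ = ENNReal.ofReal β := by
        rw [hνz, Measure.restrict_apply_univ, hβ, ENNReal.ofReal_toReal hfin]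
      have hβgt : η * M < β := by
        have h1 : ENNReal.ofReal (η * M) < ν (N z) := hz
        rw [← ENNReal.ofReal_toReal hfin] at h1
        exact (ENNReal.ofReal_lt_ofReal_iff_of_nonneg (by positivity)).mp h1
      have hβpos : 0 < β := lt_trans (by positivity) hβgt
      have hprod : (νz.prod νz) W < ENNReal.ofReal (β ^ 2 / 100) := by
        rw [hνz, Measure.prod_restrict, Measure.restrict_apply hWm]
        refine hc.trans_le (ENNReal.ofReal_le_ofReal ?_)
        have : (η * M) ^ 2 ≤ β ^ 2 := by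
          apply pow_le_pow_left₀ (by positivity) hβgt.le
        linarith
      have h7 := most_pairs νz (Measure.restrict_le_self.trans hν) o s β hspos hβpos hβmass hprod
      rw [hs] at h7
      nlinarith [mul_pos hη hM]
    calc ENNReal.ofReal ((η * M) ^ 2 / 100) * ENNReal.ofReal (η * M)
        ≤ ENNReal.ofReal ((η * M) ^ 2 / 100) * ν Z := mul_le_mul_right hcon.le _
      _ = ∫⁻ _ in Z, ENNReal.ofReal ((η * M) ^ 2 / 100) ∂ν := by
        rw [setLIntegral_const]
      _ ≤ ∫⁻ z in Z, (ν.prod ν) (W ∩ (N z ×ˢ N z)) ∂ν := by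
        apply setLIntegral_mono' hZm hpt
      _ ≤ ∫⁻ z, (ν.prod ν) (W ∩ (N z ×ˢ N z)) ∂ν := setLIntegral_le_lintegral _ _
  have hfinal := hlow.trans hup
  rw [← ENNReal.ofReal_pow hM.le, ← ENNReal.ofReal_mul (by positivity),
    ← ENNReal.ofReal_mul (by positivity), ENNReal.ofReal_le_ofReal_iff (by positivity)] at hfinal
  rw [ht, hs] at hfinal
  have h8 : 4 * (η ^ 2 / 60 * M) ^ 2 / (η / 8 * M) * M ^ 2 = 4 * 8 / 3600 * (η ^ 3 * M ^ 3) := by
    field_simp
    ring
  rw [h8] at hfinal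
  have h9 : (η * M) ^ 2 / 100 * (η * M) = 1 / 100 * (η ^ 3 * M ^ 3) := by ring
  rw [h9] at hfinal
  have h10 : 0 < η ^ 3 * M ^ 3 := by positivity
  nlinarith

end Pool.Agent.Helper55.Beer
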