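import Pool.Agent.Helper55.BeerGeom

set_option autoImplicit false

/-! From a triangle with boundary in `S` to a convex set; area of a parallelogram. -/

namespace Pool.Agent.Helper55.Beer

open MeasureTheory Set

/-- the linear map with matrix `!![a, b; c, d]` -/
noncomputable def lin (a b c d : ℝ) : (ℝ × ℝ) →ₗ[ℝ] (ℝ × ℝ) :=
  Matrix.toLin (Module.Basis.finTwoProd ℝ) (Module.Basis.finTwoProd ℝ) !![a, b; c, d]

lemma lin_apply (a b c d : ℝ) (x : ℝ × ℝ) :
    lin a b c d x = (a * x.1 + b * x.2, c * x.1 + d * x.2) :=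
  Matrix.toLin_finTwoProd_apply _ _ _ _ _

lemma lin_det (a b c d : ℝ) : LinearMap.det (lin a b c d) = a * d - b * c := by
  unfold lin
  rw [LinearMap.det_toLin, Matrix.det_fin_two_of]

/-- standard closed triangle -/
def T0 : Set (ℝ × ℝ) := {u | 0 ≤ u.1 ∧ 0 ≤ u.2 ∧ u.1 + u.2 ≤ 1}

lemma T0_closed : IsClosed T0 := by
  unfold T0
  apply IsClosed.inter
  · exact isClosed_le continuous_const continuous_fst
  · apply IsClosed.inter
    · exact isClosed_le continuous_const continuous_snd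
    · exact isClosed_le (continuous_fst.add continuous_snd) continuous_const

lemma T0_convex : Convex ℝ T0 := by
  intro x hx y hy a b ha hb hab
  obtain ⟨hx1, hx2, hx3⟩ := hx
  obtain ⟨hy1, hy2, hy3⟩ := hy
  refine ⟨?_, ?_, ?_⟩
  · simp only [Prod.fst_add, Prod.smul_fst, smul_eq_mul]; positivity
  · simp only [Prod.snd_add, Prod.smul_snd, smul_eq_mul]; positivity
  · simp only [Prod.fst_add, Prod.smul_fst, smul_eq_mul, Prod.snd_add, Prod.smul_snd]
    nlinarith

lemma T0_bounded : Bornology.IsBounded T0 := by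
  apply (Metric.isBounded_Icc ((0 : ℝ), (0 : ℝ)) ((1 : ℝ), (1 : ℝ))).subset
  rintro ⟨x, y⟩ ⟨h1, h2, h3⟩
  simp only at h1 h2 h3
  exact ⟨⟨h1, h2⟩, ⟨by simp only; linarith, by simp only; linarith⟩⟩

lemma T0_volume : ENNReal.ofReal (1 / 4) ≤ volume T0 := by
  have hsub : (Icc (0 : ℝ) (1 / 2)) ×ˢ (Icc (0 : ℝ) (1 / 2)) ⊆ T0 := by
    rintro ⟨x, y⟩ ⟨⟨h1, h2⟩, ⟨h3, h4⟩⟩
    simp only at h1 h2 h3 h4
    exact ⟨h1, h3, by simp only; linarith⟩
  refine le_trans ?_ (measure_mono hsub)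
  rw [Measure.volume_eq_prod, Measure.prod_prod, Real.volume_Icc, ← ENNReal.ofReal_mul (by norm_num)]
  apply ENNReal.ofReal_le_ofReal
  norm_num

lemma T0_frontier : frontier T0 ⊆ {u | u ∈ T0 ∧ (u.1 = 0 ∨ u.2 = 0 ∨ u.1 + u.2 = 1)} := by
  intro u hu
  rw [T0_closed.frontier_eq] at hu
  obtain ⟨hu1, hu2⟩ := hu
  refine ⟨hu1, ?_⟩
  by_contra hcon
  push Not at hcon
  obtain ⟨c1, c2, c3⟩ := hcon
  apply hu2
  have hopen : IsOpen {v : ℝ × ℝ | 0 < v.1 ∧ 0 < v.2 ∧ v.1 + v.2 < 1} := by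
    apply IsOpen.inter
    · exact isOpen_lt continuous_const continuous_fst
    · apply IsOpen.inter
      · exact isOpen_lt continuous_const continuous_snd
      · exact isOpen_lt (continuous_fst.add continuous_snd) continuous_const
  have hsub : {v : ℝ × ℝ | 0 < v.1 ∧ 0 < v.2 ∧ v.1 + v.2 < 1} ⊆ T0 := by
    rintro v ⟨h1, h2, h3⟩
    exact ⟨h1.le, h2.le, h3.le⟩
  apply interior_maximal hsub hopen
  obtain ⟨k1, k2, k3⟩ := hu1
  exact ⟨lt_of_le_of_ne k1 (Ne.symm c1), lt_of_le_of_ne k2 (Ne.symm c2), lt_of_le_of_ne k3 c3⟩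

/-- A triangle with boundary in `S` gives a convex set with frontier in `S`. -/
lemma exists_convex (S : Set (ℝ × ℝ)) (p q r : ℝ × ℝ) (hpq : segment ℝ p q ⊆ S)
    (hpr : segment ℝ p r ⊆ S) (hqr : segment ℝ q r ⊆ S) :
    ∃ C : Set (ℝ × ℝ), Convex ℝ C ∧ Bornology.IsBounded C ∧
      ENNReal.ofReal (|ar p q r| / 4) ≤ volume C ∧ frontier C ⊆ S := by
  by_cases h0 : ar p q r = 0
  · refine ⟨∅, convex_empty, Bornology.isBounded_empty, ?_, by simp⟩
    rw [h0]; simp
  set L : (ℝ × ℝ) →ₗ[ℝ] (ℝ × ℝ) := lin (q.1 - p.1) (r.1 - p.1) (q.2 - p.2) (r.2 - p.2) with hL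
  have hdet : LinearMap.det L = ar p q r := by
    rw [hL, lin_det]; unfold ar; ring
  have hdet0 : LinearMap.det L ≠ 0 := by rw [hdet]; exact h0
  set e := (L.equivOfDetNeZero hdet0).toContinuousLinearEquiv.toHomeomorph with he
  set g : (ℝ × ℝ) ≃ₜ (ℝ × ℝ) := e.trans (Homeomorph.addLeft p) with hg
  have hgapp : ∀ u : ℝ × ℝ, g u = (p.1 + ((q.1 - p.1) * u.1 + (r.1 - p.1) * u.2),
      p.2 + ((q.2 - p.2) * u.1 + (r.2 - p.2) * u.2)) := by
    intro u
    have : g u = p + L u := rfl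
    rw [this, hL, lin_apply]
    rfl
  have himg : g '' T0 = (fun w => p + w) '' (L '' T0) := by
    rw [image_image]
    rfl
  refine ⟨g '' T0, ?_, ?_, ?_, ?_⟩
  · rw [himg]
    exact (T0_convex.linear_image L).translate p
  · have hc : IsCompact T0 := Metric.isCompact_of_isClosed_isBounded T0_closed T0_bounded
    exact (hc.image g.continuous).isBounded
  · have hpre : (fun w => p + w) '' (L '' T0) = (fun w => -p + w) ⁻¹' (L '' T0) := by
      rw [Set.image_add_left]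
    rw [himg, hpre, measure_preimage_add, Measure.addHaar_image_linearMap, hdet]
    have : ENNReal.ofReal (|ar p q r| / 4) = ENNReal.ofReal |ar p q r| * ENNReal.ofReal (1 / 4) := by
      rw [← ENNReal.ofReal_mul (abs_nonneg _)]
      congr 1
      ring
    rw [this]
    gcongr
    exact T0_volume
  · rw [← g.image_frontier]
    rintro _ ⟨u, hu, rfl⟩
    obtain ⟨⟨h1, h2, h3⟩, h4⟩ := T0_frontier hu
    rw [hgapp]
    rcases h4 with h | h | h
    · apply hpr
      refine ⟨1 - u.2, u.2, by linarith, h2, by ring, ?_⟩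
      ext
      · simp [h]; ring
      · simp [h]; ring
    · apply hpq
      refine ⟨1 - u.1, u.1, by linarith, h1, by ring, ?_⟩
      ext
      · simp [h]; ring
      · simp [h]; ring
    · apply hqr
      refine ⟨u.1, u.2, h1, h2, h, ?_⟩
      have h5 : u.1 = 1 - u.2 := by linarith
      ext
      · simp [h5]; ring
      · simp [h5]; ring

/-- Area of a parallelogram (upper bound). -/
lemma par_volume (o y y' : ℝ × ℝ) (s : ℝ) (hs : 0 ≤ s) (h : ar o y y' ≠ 0) :
    volume {w : ℝ × ℝ | |ar o y w| ≤ s ∧ |ar o y' w| ≤ s} ≤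
      ENNReal.ofReal (4 * s ^ 2 / |ar o y y'|) := by
  set L : (ℝ × ℝ) →ₗ[ℝ] (ℝ × ℝ) :=
    lin (-(y.2 - o.2)) (y.1 - o.1) (-(y'.2 - o.2)) (y'.1 - o.1) with hL
  have hdet : LinearMap.det L = ar o y y' := by
    rw [hL, lin_det]; unfold ar; ring
  have hset : {w : ℝ × ℝ | |ar o y w| ≤ s ∧ |ar o y' w| ≤ s}
      = (fun w => w + (-o)) ⁻¹' (L ⁻¹' ((Icc (-s) s) ×ˢ (Icc (-s) s))) := by
    ext w
    simp only [mem_ofPred_eq, mem_preimage, mem_prod, hL, lin_apply, mem_Icc]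
    rw [abs_le, abs_le]
    have e1 : -(y.2 - o.2) * (w + -o).1 + (y.1 - o.1) * (w + -o).2 = ar o y w := by
      unfold ar; simp; ring
    have e2 : -(y'.2 - o.2) * (w + -o).1 + (y'.1 - o.1) * (w + -o).2 = ar o y' w := by
      unfold ar; simp; ring
    rw [e1, e2]
  rw [hset, measure_preimage_add_right, Measure.addHaar_preimage_linearMap volume (by rw [hdet]; exact h),
    hdet, Measure.volume_eq_prod, Measure.prod_prod, Real.volume_Icc,
    ← ENNReal.ofReal_mul (by linarith), ← ENNReal.ofReal_mul (abs_nonneg _)]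
  apply ENNReal.ofReal_le_ofReal
  rw [abs_inv]
  apply le_of_eq
  field_simp
  ring

end Pool.Agent.Helper55.Beer
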