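import Pool.Agent.Helper55.GQLocal

set_option autoImplicit false

/-!
# Elation groups of generalized quadrangles of order `(t^2, t)`: symmetries are central
-/

namespace Pool.Agent.Helper55.GQ

open Finset

section geom

variable {P L : Type} {I : P → L → Prop} {s t : ℕ}

/-- `Col x p`: the points `x` and `p` are collinear (or equal). -/
def Col (I : P → L → Prop) (x p : P) : Prop := ∃ l : L, I x l ∧ I p l

lemma exists_line [Finite P] [Finite L] (H : IsGQ I s t) (x : P) : ∃ l : L, I x l := by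
  have h := H.h2 x
  by_contra hne
  push Not at hne
  have : {l : L | I x l} = ∅ := by ext l; simp [hne l]
  rw [this, Set.ncard_empty] at h
  omega

/-- On a line not through `x` there is a unique point collinear with `x`. -/
lemma foot (H : IsGQ I s t) {x : P} {M : L} (hM : ¬ I x M) :
    ∃ y : P, I y M ∧ Col I x y ∧ ∀ q : P, I q M → Col I x q → q = y := by
  obtain ⟨y, ⟨hy, hc⟩, hu⟩ := H.h4 x M hM
  exact ⟨y, hy, hc, fun q hq hc' => hu q ⟨hq, hc'⟩⟩

/-- no triangles -/
lemma no_tri (H : IsGQ I s t) {z : P} {M : L} (hz : ¬ I z M) {p q : P} (hp : I p M) (hq : I q M)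
    (h1 : Col I z p) (h2 : Col I z q) : p = q := by
  obtain ⟨y, _, _, hu⟩ := foot H hz
  rw [hu p hp h1, hu q hq h2]

lemma exists_other_line (H : IsGQ I s t) (ht : 0 < t) (x : P) (K : L) :
    ∃ N : L, I x N ∧ N ≠ K := by
  by_contra hne
  push Not at hne
  have h := H.h2 x
  have hsub : {l : L | I x l} ⊆ {K} := by
    intro l hl
    exact hne l hl
  have := Set.ncard_le_ncard hsub (Set.finite_singleton K)
  rw [h, Set.ncard_singleton] at this
  omega

lemma exists_other_point (H : IsGQ I s t) (hs : 0 < s) (M : L) (y : P) :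
    ∃ p : P, I p M ∧ p ≠ y := by
  by_contra hne
  push Not at hne
  have h := H.h1 M
  have hsub : {p : P | I p M} ⊆ {y} := by
    intro p hp
    exact hne p hp
  have := Set.ncard_le_ncard hsub (Set.finite_singleton y)
  rw [h, Set.ncard_singleton] at this
  omega

lemma exists_third_point (H : IsGQ I s t) (hs : 1 < s) (M : L) (y z : P) :
    ∃ p : P, I p M ∧ p ≠ y ∧ p ≠ z := by
  classical
  by_contra hne
  push Not at hne
  have h := H.h1 M
  have hsub : {p : P | I p M} ⊆ {y, z} := by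
    intro p hp
    by_cases h1 : p = y
    · left; exact h1
    · right; exact hne p hp h1
  have := Set.ncard_le_ncard hsub (Set.toFinite _)
  have h2 : ({y, z} : Set P).ncard ≤ 2 := Set.ncard_insert_le _ _ |>.trans (by simp)
  omega

lemma Col.symm' {x p : P} (h : Col I x p) : Col I p x := by
  obtain ⟨l, h1, h2⟩ := h
  exact ⟨l, h2, h1⟩

/-- Connectivity of the collinearity graph on the points not collinear with `x`. -/
lemma aff_connected (H : IsGQ I s t) (hs : 1 < s) (ht : 0 < t) (x : P)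
    (R : P → P → Prop)
    (htrans : ∀ p q r, ¬ Col I x p → ¬ Col I x q → ¬ Col I x r → R p q → R q r → R p r)
    (hcol : ∀ p q, ¬ Col I x p → ¬ Col I x q → Col I p q → R p q)
    {p q : P} (hp : ¬ Col I x p) (hq : ¬ Col I x q) : R p q := by
  by_cases hpq : Col I p q
  · exact hcol p q hp hq hpq
  by_cases hex : ∃ m, ¬ Col I x m ∧ Col I p m ∧ Col I m q
  · obtain ⟨m, hm, h1, h2⟩ := hex
    exact htrans p m q hp hm hq (hcol p m hp hm h1) (hcol m q hm hq h2)
  push Not at hex
  -- all common neighbours of `p` and `q` are collinear with `x`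
  have hxl : ∀ l, I p l → ¬ I x l := fun l hl hx => hp ⟨l, hx, hl⟩
  -- a line through p
  obtain ⟨M, hpM⟩ : ∃ M : L, I p M := by
    obtain ⟨N, hN, _⟩ : ∃ N : L, I p N ∧ True := by
      by_contra hne
      push Not at hne
      have h := H.h2 p
      have : {l : L | I p l} = ∅ := by
        ext l; simp only [Set.mem_ofPred_eq, Set.mem_empty_iff_false, iff_false]
        intro hl; exact (hne l hl).elim
      rw [this, Set.ncard_empty] at h
      omega
    exact ⟨N, hN⟩
  have hxM : ¬ I x M := hxl M hpM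
  obtain ⟨y, hyM, hyc, hyu⟩ := foot H hxM
  have hqM : ¬ I q M := fun h => hpq ⟨M, hpM, h⟩
  obtain ⟨m, hmM, hmc, hmu⟩ := foot H hqM
  -- `m` is collinear with `x`
  have hmx : Col I x m := by
    by_contra hmx
    exact hex m hmx ⟨M, hpM, hmM⟩ hmc.symm'
  have hmy : m = y := hyu m hmM hmx
  subst hmy
  -- third point r on M
  obtain ⟨r, hrM, hrp, hrm⟩ := exists_third_point H hs M p m
  have hr : ¬ Col I x r := fun h => hrm (hyu r hrM h)
  have hrq : ¬ Col I q r := fun h => hrm (hmu r hrM h)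
  obtain ⟨M', hrM', hM'M⟩ := exists_other_line H ht r M
  have hqM' : ¬ I q M' := fun h => hrq ⟨M', h, hrM'⟩
  obtain ⟨m', hm'M', hm'c, hm'u⟩ := foot H hqM'
  by_cases hm'x : Col I x m'
  · exfalso
    obtain ⟨K, hxK, hm'K⟩ := hm'x
    have hpK : ¬ I p K := fun h => hp ⟨K, hxK, h⟩
    obtain ⟨w, hwK, hwc, _⟩ := foot H hpK
    -- w is collinear with q
    have hwx : Col I x w := ⟨K, hxK, hwK⟩
    have hwq : Col I q w := by
      obtain ⟨Mw, hpMw, hwMw⟩ := hwc
      have hxMw : ¬ I x Mw := hxl Mw hpMw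
      have hqMw : ¬ I q Mw := fun h => hpq ⟨Mw, hpMw, h⟩
      obtain ⟨w', hw'M, hw'c, hw'u⟩ := foot H hqMw
      have hw'x : Col I x w' := by
        by_contra hw'x
        exact hex w' hw'x ⟨Mw, hpMw, hw'M⟩ hw'c.symm'
      have : w' = w := no_tri H hxMw hw'M hwMw hw'x hwx
      rw [← this]; exact hw'c
    have hqK : ¬ I q K := fun h => hq ⟨K, hxK, h⟩
    have hwm' : w = m' := no_tri H hqK hwK hm'K hwq hm'c
    subst hwm'
    -- w is collinear with p and r, both on M
    have hwM : ¬ I w M := by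
      intro h
      have : r = w := by
        by_contra hne
        exact hM'M (H.h3 r w M' M hne hrM' hm'M' hrM h)
      exact hr (this ▸ hwx)
    have : p = r := no_tri H hwM hpM hrM hwc.symm' ⟨M', hm'M', hrM'⟩
    exact hrp this.symm
  · have h1 : R p r := hcol p r hp hr ⟨M, hpM, hrM⟩
    have h2 : R r m' := hcol r m' hr hm'x ⟨M', hrM', hm'M'⟩
    have h3 : R m' q := hcol m' q hm'x hq hm'c.symm'
    exact htrans p r q hp hr hq h1 (htrans r m' q hr hm'x hq h2 h3)

end geom

section aut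

variable {P L : Type} {I : P → L → Prop} {s t : ℕ}

lemma col_iff {g1 : Equiv.Perm P} {g2 : Equiv.Perm L}
    (hI : ∀ (p : P) (l : L), I (g1 p) (g2 l) ↔ I p l) {p q : P} :
    Col I (g1 p) (g1 q) ↔ Col I p q := by
  constructor
  · rintro ⟨l, h1, h2⟩
    refine ⟨g2.symm l, ?_, ?_⟩
    · rw [← hI, Equiv.apply_symm_apply]; exact h1
    · rw [← hI, Equiv.apply_symm_apply]; exact h2
  · rintro ⟨l, h1, h2⟩
    exact ⟨g2 l, (hI _ _).2 h1, (hI _ _).2 h2⟩

lemma T_aut [Fintype P] {g1 : Equiv.Perm P} {g2 : Equiv.Perm L}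
    (hI : ∀ (p : P) (l : L), I (g1 p) (g2 l) ↔ I p l) (Q R : L) :
    T I (g2 Q) (g2 R) = T I Q R := by
  classical
  unfold T
  rw [← Equiv.sum_comp g1 (fun p => inc I p (g2 Q) * inc I p (g2 R))]
  refine Finset.sum_congr rfl (fun p _ => ?_)
  unfold inc
  simp only [hI]

lemma e_aut [Fintype P] {g1 : Equiv.Perm P} {g2 : Equiv.Perm L}
    (hI : ∀ (p : P) (l : L), I (g1 p) (g2 l) ↔ I p l) (Q R : L) :
    e I s t (g2 Q) (g2 R) = e I s t Q R := by
  classical
  unfold e
  rw [T_aut hI]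
  simp only [EmbeddingLike.apply_eq_iff_eq]

/-- fixed points on the lines through `x` -/
lemma no_fix_on (H : IsGQ I s t) {x : P} {g1 : Equiv.Perm P} {g2 : Equiv.Perm L}
    (hI : ∀ (p : P) (l : L), I (g1 p) (g2 l) ↔ I p l)
    (haff : ∀ p, ¬ Col I x p → g1 p ≠ p)
    {M : L} (hxM : ¬ I x M) (hM : g2 M = M) {y : P} (hyM : I y M) (hyx : Col I x y)
    {N : L} (hxN : I x N) (hyN : ¬ I y N) {p : P} (hpN : I p N) (hpx : p ≠ x) : g1 p ≠ p := by
  intro hfix
  have hcp : Col I x p := ⟨N, hxN, hpN⟩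
  have hpM : ¬ I p M := by
    intro h
    have : p = y := no_tri H hxM h hyM hcp hyx
    exact hyN (this ▸ hpN)
  obtain ⟨m, hmM, hmc, hmu⟩ := foot H hpM
  have hgm : g1 m = m := by
    refine hmu _ ?_ ?_
    · have := (hI m M).2 hmM
      rwa [hM] at this
    · have := (col_iff hI (p := p) (q := m)).2 hmc
      rwa [hfix] at this
  have hmx : Col I x m := by
    by_contra h
    exact haff m h hgm
  have hmy : m = y := no_tri H hxM hmM hyM hmx hyx
  subst hmy
  obtain ⟨K, hxK, hmK⟩ := hyx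
  have hpK : ¬ I p K := by
    intro h
    have : N = K := H.h3 p x N K hpx hpN hxN h hxK
    exact hyN (this ▸ hmK)
  have : m = x := no_tri H hpK hmK hxK hmc hcp.symm'
  exact hxM (this ▸ hyM)

variable [Fintype P] [Fintype L]

/-- contribution of the lines through a point that moves along a fixed line. -/
lemma sum_moved (H : IsGQ I s t) {g1 : Equiv.Perm P} {g2 : Equiv.Perm L}
    (hI : ∀ (p : P) (l : L), I (g1 p) (g2 l) ↔ I p l)
    {M : L} (hM : g2 M = M) {p : P} (hpM : I p M) (hp : g1 p ≠ p) :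
    ∑ Q : L, inc I p Q * e I s t Q (g2 Q) = (t : ℤ) ^ 2 + t := by
  classical
  have hgpM : I (g1 p) M := by
    have := (hI p M).2 hpM
    rwa [hM] at this
  have hQ : ∀ Q : L, inc I p Q * e I s t Q (g2 Q)
      = inc I p Q + (if Q = M then ((t : ℤ) ^ 2 - 1) else 0) := by
    intro Q
    by_cases hpQ : I p Q
    · by_cases hQM : Q = M
      · subst hQM
        rw [hM, e_self H, inc_of I hpQ, if_pos rfl]; ring
      · have hgpQ : I (g1 p) (g2 Q) := (hI p Q).2 hpQ
        have hgQM : g2 Q ≠ M := by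
          intro h
          rw [← hM] at h
          exact hQM (g2.injective h)
        have hne : Q ≠ g2 Q := by
          intro h
          have : I (g1 p) Q := h ▸ hgpQ
          exact hQM (H.h3 p (g1 p) Q M (Ne.symm hp) hpQ this hpM hgpM)
        have hno : ¬ ∃ z : P, I z Q ∧ I z (g2 Q) := by
          rintro ⟨z, hz1, hz2⟩
          by_cases hzM : I z M
          · have h1 : z = p := by
              by_contra h
              exact hQM (H.h3 z p Q M h hz1 hpQ hzM hpM)
            have h2 : z = g1 p := by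
              by_contra h
              exact hgQM (H.h3 z (g1 p) (g2 Q) M h hz2 hgpQ hzM hgpM)
            exact hp (h2.symm.trans h1)
          · exact hp (no_tri H hzM hpM hgpM ⟨Q, hz1, hpQ⟩ ⟨g2 Q, hz2, hgpQ⟩).symm
        rw [e_zero hne hno, inc_of I hpQ, if_neg hQM]; ring
    · have hQM : Q ≠ M := fun h => hpQ (h ▸ hpM)
      rw [inc_of_not I hpQ, if_neg hQM]; ring
  rw [Finset.sum_congr rfl (fun Q _ => hQ Q), Finset.sum_add_distrib, sum_inc_lines I H.h2,
    Finset.sum_ite_eq', if_pos (Finset.mem_univ M)]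
  ring

/-- An automorphism of a GQ of order `(t^2,t)` that fixes `x` linewise, fixes no point
noncollinear with `x`, and fixes a line `M` not on `x` fixes all lines on the point of `M`
collinear with `x`. -/
lemma fixes_all (H : IsGQ I s t) (hs : s = t ^ 2) (ht : 0 < t) {x : P}
    {g1 : Equiv.Perm P} {g2 : Equiv.Perm L}
    (hI : ∀ (p : P) (l : L), I (g1 p) (g2 l) ↔ I p l)
    (hx : g1 x = x) (hxl : ∀ l, I x l → g2 l = l)
    (haff : ∀ p, ¬ Col I x p → g1 p ≠ p)
    {M : L} (hxM : ¬ I x M) (hM : g2 M = M) {y : P} (hyM : I y M) (hyx : Col I x y) :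
    g1 y = y ∧ ∀ Q : L, I y Q → g2 Q = Q := by
  classical
  -- `y` is fixed
  have hgy : g1 y = y := by
    refine no_tri H hxM ?_ hyM ?_ hyx
    · have := (hI y M).2 hyM
      rwa [hM] at this
    · have := (col_iff hI (p := x) (q := y)).2 hyx
      rwa [hx] at this
  refine ⟨hgy, ?_⟩
  obtain ⟨K, hxK, hyK⟩ := hyx
  have hxy : x ≠ y := fun h => hxM (h ▸ hyM)
  obtain ⟨N, hxN, hNK⟩ := exists_other_line H ht x K
  have hyN : ¬ I y N := fun h => hNK (H.h3 x y N K hxy hxN h hxK hyK)
  have hyx : Col I x y := ⟨K, hxK, hyK⟩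
  set D : P → ℤ := fun p => ∑ Q : L, inc I p Q * e I s t Q (g2 Q) with hD
  have hmain := local_eq H hs ht g2 (fun Q R => e_aut hI Q R) hM (hxl N hxN)
  -- evaluate both sides
  have hL : ∑ p : P, inc I p M * D p = D y + s * ((t : ℤ) ^ 2 + t) := by
    have h1 : ∀ p : P, inc I p M * D p
        = inc I p M * ((t : ℤ) ^ 2 + t) + (if p = y then (D y - ((t : ℤ) ^ 2 + t)) else 0) := by
      intro p
      by_cases hpM : I p M
      · by_cases hpy : p = y
        · subst hpy; rw [inc_of I hpM, if_pos rfl]; ring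
        · have hpa : ¬ Col I x p := fun h => hpy (no_tri H hxM hpM hyM h hyx)
          have : D p = (t : ℤ) ^ 2 + t := sum_moved H hI hM hpM (haff p hpa)
          rw [inc_of I hpM, this, if_neg hpy]; ring
      · have hpy : p ≠ y := fun h => hpM (h ▸ hyM)
        rw [inc_of_not I hpM, if_neg hpy]; ring
    rw [Finset.sum_congr rfl (fun p _ => h1 p), Finset.sum_add_distrib, ← Finset.sum_mul,
      sum_inc_points I H.h1, Finset.sum_ite_eq', if_pos (Finset.mem_univ y)]
    ring
  have hR : ∑ p : P, inc I p N * D p = D x + s * ((t : ℤ) ^ 2 + t) := by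
    have h1 : ∀ p : P, inc I p N * D p
        = inc I p N * ((t : ℤ) ^ 2 + t) + (if p = x then (D x - ((t : ℤ) ^ 2 + t)) else 0) := by
      intro p
      by_cases hpN : I p N
      · by_cases hpx : p = x
        · subst hpx; rw [inc_of I hpN, if_pos rfl]; ring
        · have hfix : g1 p ≠ p := no_fix_on H hI haff hxM hM hyM hyx hxN hyN hpN hpx
          have : D p = (t : ℤ) ^ 2 + t := sum_moved H hI (hxl N hxN) hpN hfix
          rw [inc_of I hpN, this, if_neg hpx]; ring
      · have hpx : p ≠ x := fun h => hpN (h ▸ hxN)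
        rw [inc_of_not I hpN, if_neg hpx]; ring
    rw [Finset.sum_congr rfl (fun p _ => h1 p), Finset.sum_add_distrib, ← Finset.sum_mul,
      sum_inc_points I H.h1, Finset.sum_ite_eq', if_pos (Finset.mem_univ x)]
    ring
  have hDxy : D y = D x := by
    have : ∑ p : P, inc I p M * D p = ∑ p : P, inc I p N * D p := hmain
    rw [hL, hR] at this
    linarith
  have hDx : D x = ((t : ℤ) + 1) * t ^ 2 := by
    have h1 : ∀ Q : L, inc I x Q * e I s t Q (g2 Q) = inc I x Q * (t : ℤ) ^ 2 := by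
      intro Q
      by_cases hQ : I x Q
      · rw [hxl Q hQ, e_self H]
      · rw [inc_of_not I hQ]; ring
    show ∑ Q : L, inc I x Q * e I s t Q (g2 Q) = _
    rw [Finset.sum_congr rfl (fun Q _ => h1 Q), ← Finset.sum_mul, sum_inc_lines I H.h2]
  -- conclude
  intro Q0 hQ0
  by_contra hne
  have hle : ∀ Q : L, inc I y Q * e I s t Q (g2 Q) ≤ inc I y Q * (t : ℤ) ^ 2 := by
    intro Q
    by_cases hQ : I y Q
    · rw [inc_of I hQ, one_mul, one_mul]
      by_cases hQf : g2 Q = Q
      · rw [hQf, e_self H]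
      · have hyQ' : I y (g2 Q) := by
          have := (hI y Q).2 hQ
          rwa [hgy] at this
        rw [e_one H (Ne.symm hQf) hQ hyQ']
        nlinarith [sq_nonneg (t : ℤ), (by exact_mod_cast Nat.zero_le t : (0 : ℤ) ≤ t)]
    · rw [inc_of_not I hQ]; simp
  have hlt : inc I y Q0 * e I s t Q0 (g2 Q0) < inc I y Q0 * (t : ℤ) ^ 2 := by
    have hyQ' : I y (g2 Q0) := by
      have := (hI y Q0).2 hQ0
      rwa [hgy] at this
    rw [inc_of I hQ0, e_one H (Ne.symm hne) hQ0 hyQ']
    have : (0 : ℤ) < t := by exact_mod_cast ht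
    nlinarith [sq_nonneg (t : ℤ)]
  have hsum : D y < ((t : ℤ) + 1) * t ^ 2 := by
    have h1 : D y < ∑ Q : L, inc I y Q * (t : ℤ) ^ 2 :=
      Finset.sum_lt_sum (fun Q _ => hle Q) ⟨Q0, Finset.mem_univ _, hlt⟩
    rwa [← Finset.sum_mul, sum_inc_lines I H.h2] at h1
  rw [hDxy, hDx] at hsum
  exact lt_irrefl _ hsum

end aut

section main

variable {P L : Type} {I : P → L → Prop} {s t : ℕ}

theorem main [Fintype P] [Fintype L] (H : IsGQ I s t) (hs : s = t ^ 2) (ht : 1 < t) (x : P)
    (G : Subgroup (Equiv.Perm P × Equiv.Perm L))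
    (hI : ∀ g ∈ G, ∀ (p : P) (l : L), I (g.1 p) (g.2 l) ↔ I p l)
    (hx : ∀ g ∈ G, g.1 x = x ∧ ∀ l : L, I x l → g.2 l = l)
    (hreg : ∀ p q : P, (¬ ∃ l : L, I x l ∧ I p l) → (¬ ∃ l : L, I x l ∧ I q l) →
      ∃! g : Equiv.Perm P × Equiv.Perm L, g ∈ G ∧ g.1 p = q)
    (σ : Equiv.Perm P × Equiv.Perm L) (hσ : σ ∈ G)
    (hσx : ∀ p : P, (∃ l : L, I x l ∧ I p l) → σ.1 p = p)
    (g : Equiv.Perm P × Equiv.Perm L) (hg : g ∈ G) : σ * g = g * σ := by
  classical
  have ht0 : 0 < t := by omega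
  have hs1 : 1 < s := by rw [hs]; nlinarith
  -- elements ≠ 1 fix no affine point
  have haff : ∀ h ∈ G, h ≠ 1 → ∀ p, ¬ Col I x p → h.1 p ≠ p := by
    intro h hh hne p hp hfix
    obtain ⟨k, _, hk⟩ := hreg p p hp hp
    have h1 := hk h ⟨hh, hfix⟩
    have h2 := hk 1 ⟨G.one_mem, rfl⟩
    exact hne (h1.trans h2.symm)
  -- a symmetry in G fixing an affine line is 1
  have hsym1 : ∀ c ∈ G, (∀ p : P, Col I x p → c.1 p = p) → ∀ M : L, ¬ I x M → c.2 M = M →
      c = 1 := by
    intro c hc hcx M hxM hcM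
    by_contra hne
    obtain ⟨y, hyM, hyx, _⟩ := foot H hxM
    obtain ⟨K, hxK, hyK⟩ := hyx
    have hxy : x ≠ y := fun h => hxM (h ▸ hyM)
    obtain ⟨N, hxN, hNK⟩ := exists_other_line H ht0 x K
    have hyN : ¬ I y N := fun h => hNK (H.h3 x y N K hxy hxN h hxK hyK)
    obtain ⟨p, hpN, hpx⟩ := exists_other_point H (by omega) N x
    exact no_fix_on H (hI c hc) (haff c hc hne) hxM hcM hyM ⟨K, hxK, hyK⟩ hxN hyN hpN hpx
      (hcx p ⟨N, hxN, hpN⟩)
  -- elements fixing an affine line commute with σ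
  have hcomm : ∀ h ∈ G, ∀ M : L, ¬ I x M → h.2 M = M → σ * h = h * σ := by
    intro h hh M hxM hhM
    by_cases hne : h = 1
    · subst hne; simp
    obtain ⟨y, hyM, hyx, _⟩ := foot H hxM
    obtain ⟨hhy, hall⟩ := fixes_all H hs ht0 (hI h hh) (hx h hh).1 (hx h hh).2
      (haff h hh hne) hxM hhM hyM hyx
    have hc : σ⁻¹ * (h⁻¹ * (σ * h)) = 1 := by
      refine hsym1 _ ?_ ?_ M hxM ?_
      · exact G.mul_mem (G.inv_mem hσ) (G.mul_mem (G.inv_mem hh) (G.mul_mem hσ hh))
      · intro p hp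
        have hcol : Col I x (h.1 p) := by
          obtain ⟨l, hxl, hpl⟩ := hp
          refine ⟨l, hxl, ?_⟩
          have := (hI h hh p l).2 hpl
          rwa [(hx h hh).2 l hxl] at this
        have h1 : σ.1 (h.1 p) = h.1 p := hσx _ hcol
        have h2 : σ.1 p = p := hσx _ hp
        show σ.1⁻¹ (h.1⁻¹ (σ.1 (h.1 p))) = p
        rw [h1, show h.1⁻¹ (h.1 p) = p from h.1.symm_apply_apply p]
        rw [Equiv.Perm.inv_eq_iff_eq, h2]
      · show σ.2⁻¹ (h.2⁻¹ (σ.2 (h.2 M))) = M
        have hyσ : I y (σ.2 M) := by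
          have := (hI σ hσ y M).2 hyM
          rwa [hσx y hyx] at this
        have h3 : h.2 (σ.2 M) = σ.2 M := hall _ hyσ
        have h4 : h.2⁻¹ (σ.2 M) = σ.2 M := by
          rw [Equiv.Perm.inv_eq_iff_eq, h3]
        rw [hhM, h4]
        exact σ.2.symm_apply_apply M
    have h5 : σ * h = h * σ := by
      have h6 : h⁻¹ * (σ * h) = σ := by
        have := congrArg (fun z => σ * z) hc
        simpa using this
      have := congrArg (fun z => h * z) h6
      simpa using this
    exact h5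
  -- elements moving an affine point to a collinear one
  have hcol : ∀ p q, ¬ Col I x p → ¬ Col I x q → Col I p q →
      (∀ h ∈ G, h.1 p = q → σ * h = h * σ) := by
    intro p q hp hq hpq h hh hhp
    by_cases hpq' : p = q
    · have : h = 1 := by
        by_contra hne
        exact haff h hh hne p hp (hhp.trans hpq'.symm)
      subst this; simp
    obtain ⟨M, hpM, hqM⟩ := hpq
    have hxM : ¬ I x M := fun h => hp ⟨M, h, hpM⟩
    refine hcomm h hh M hxM ?_
    obtain ⟨y, hyM, ⟨K, hxK, hyK⟩, _⟩ := foot H hxM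
    have hqK : ¬ I q K := fun h => hq ⟨K, hxK, h⟩
    have hqhM : I q (h.2 M) := by
      have := (hI h hh p M).2 hpM
      rwa [hhp] at this
    have hyhM : I (h.1 y) (h.2 M) := (hI h hh y M).2 hyM
    have hhyK : I (h.1 y) K := by
      have := (hI h hh y K).2 hyK
      rwa [(hx h hh).2 K hxK] at this
    have hyy : y = h.1 y := no_tri H hqK hyK hhyK ⟨M, hqM, hyM⟩ ⟨h.2 M, hqhM, hyhM⟩
    have hqy : q ≠ y := fun h => hqK (h ▸ hyK)
    rw [← hyy] at hyhM
    exact H.h3 q y (h.2 M) M hqy hqhM hyhM hqM hyM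
  -- all elements, by connectivity
  have hall : ∀ p q, ¬ Col I x p → ¬ Col I x q → (∀ h ∈ G, h.1 p = q → σ * h = h * σ) := by
    intro p q hp hq
    refine aff_connected H hs1 ht0 x (fun p q => ∀ h ∈ G, h.1 p = q → σ * h = h * σ) ?_ hcol hp hq
    intro a b c ha hb hc hab hbc h hh hac
    obtain ⟨k, ⟨hk, hkab⟩, _⟩ := hreg a b ha hb
    have h1 : σ * k = k * σ := hab k hk hkab
    have h2 : σ * (h * k⁻¹) = (h * k⁻¹) * σ := by
      refine hbc (h * k⁻¹) (G.mul_mem hh (G.inv_mem hk)) ?_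
      show h.1 (k.1⁻¹ b) = c
      rw [← hkab, show k.1⁻¹ (k.1 a) = a from k.1.symm_apply_apply a, hac]
    calc σ * h = σ * (h * k⁻¹) * k := by group
      _ = (h * k⁻¹) * (σ * k) := by rw [h2]; group
      _ = h * σ := by rw [h1]; group
  -- there is an affine point
  obtain ⟨K, hxK⟩ := exists_line H x
  obtain ⟨y, hyK, hyx⟩ := exists_other_point H (by omega) K x
  obtain ⟨M, hyM, hMK⟩ := exists_other_line H ht0 y K
  have hxM : ¬ I x M := fun h => hMK (H.h3 x y M K (Ne.symm hyx) h hyM hxK hyK)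
  obtain ⟨p, hpM, hpy⟩ := exists_other_point H (by omega) M y
  have hp : ¬ Col I x p := fun h => hpy (no_tri H hxM hpM hyM h ⟨K, hxK, hyK⟩)
  have hgp : ¬ Col I x (g.1 p) := by
    intro h
    apply hp
    rw [← col_iff (hI g hg), (hx g hg).1]; exact h
  exact hall p (g.1 p) hp hgp g hg rfl

end main

end Pool.Agent.Helper55.GQ
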