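import Pool.Agent.Helper55.GQElation

set_option autoImplicit false

/-!
# From an elation generalized quadrangle with a center of symmetry to its Kantor family,
and Higman's inequality
-/

namespace Pool.Agent.Helper55.GQ

open Finset

section higman

variable {P L : Type} [Fintype P] [Fintype L] {I : P → L → Prop} {s t : ℕ}

/-- Higman's inequality. -/
lemma higman [Nonempty L] (H : IsGQ I s t) (ht : 1 < t) : s ≤ t ^ 2 := by
  have h0 : ∑ a : L, ∑ b : L, ∑ c : L,
      (∑ Q : L, e I s t a Q * e I s t b Q * e I s t c Q) ^ 2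
      = ∑ Q : L, ∑ R : L, (((t : ℤ) + 1) * (s + t)) ^ 3 * e I s t Q R ^ 3 := by
    have h1 : ∀ a b c : L, (∑ Q : L, e I s t a Q * e I s t b Q * e I s t c Q) ^ 2
        = ∑ Q : L, ∑ R : L, (e I s t Q a * e I s t a R) *
            ((e I s t Q b * e I s t b R) * (e I s t Q c * e I s t c R)) := by
      intro a b c
      rw [sq, Finset.sum_mul_sum]
      refine Finset.sum_congr rfl (fun Q _ => Finset.sum_congr rfl (fun R _ => ?_))
      rw [e_symm Q a, e_symm Q b, e_symm Q c]; ring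
    have h2 : ∀ a b : L, ∑ c : L, (∑ Q : L, e I s t a Q * e I s t b Q * e I s t c Q) ^ 2
        = ∑ Q : L, ∑ R : L, (e I s t Q a * e I s t a R) *
            ((e I s t Q b * e I s t b R) * (((t : ℤ) + 1) * (s + t) * e I s t Q R)) := by
      intro a b
      rw [Finset.sum_congr rfl (fun c _ => h1 a b c), Finset.sum_comm]
      refine Finset.sum_congr rfl (fun Q _ => ?_)
      rw [Finset.sum_comm]
      refine Finset.sum_congr rfl (fun R _ => ?_)
      rw [← Finset.mul_sum, ← Finset.mul_sum, e_sq H]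
    have h3 : ∀ a : L, ∑ b : L, ∑ c : L, (∑ Q : L, e I s t a Q * e I s t b Q * e I s t c Q) ^ 2
        = ∑ Q : L, ∑ R : L, (e I s t Q a * e I s t a R) *
            ((((t : ℤ) + 1) * (s + t) * e I s t Q R) * (((t : ℤ) + 1) * (s + t) * e I s t Q R)) := by
      intro a
      rw [Finset.sum_congr rfl (fun b _ => h2 a b), Finset.sum_comm]
      refine Finset.sum_congr rfl (fun Q _ => ?_)
      rw [Finset.sum_comm]
      refine Finset.sum_congr rfl (fun R _ => ?_)
      rw [← Finset.mul_sum, ← Finset.sum_mul, e_sq H]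
    rw [Finset.sum_congr rfl (fun a _ => h3 a), Finset.sum_comm]
    refine Finset.sum_congr rfl (fun Q _ => ?_)
    rw [Finset.sum_comm]
    refine Finset.sum_congr rfl (fun R _ => ?_)
    rw [← Finset.sum_mul, e_sq H]; ring
  have h1 : (0 : ℤ) ≤ ∑ Q : L, ∑ R : L, (((t : ℤ) + 1) * (s + t)) ^ 3 * e I s t Q R ^ 3 := by
    rw [← h0]
    exact Finset.sum_nonneg (fun a _ => Finset.sum_nonneg
      (fun b _ => Finset.sum_nonneg (fun c _ => sq_nonneg _)))
  have h2 : ∀ Q : L, ∑ R : L, (((t : ℤ) + 1) * (s + t)) ^ 3 * e I s t Q R ^ 3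
      = (((t : ℤ) + 1) * (s + t)) ^ 3 * (((t : ℤ) ^ 2 - 1) * t ^ 2 * (t ^ 2 - s)) := by
    classical
    intro Q
    rw [← Finset.mul_sum]
    congr 1
    rw [Finset.sum_congr rfl (fun R _ => e_cube H Q R), Finset.sum_add_distrib,
      Finset.sum_add_distrib, ← Finset.mul_sum, e_row H, Finset.sum_ite_eq]
    simp only [Finset.mem_univ, if_true, Finset.sum_const, Finset.card_univ, nsmul_eq_mul]
    rw [card_lines H]
    ring
  rw [Finset.sum_congr rfl (fun Q _ => h2 Q)] at h1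
  simp only [Finset.sum_const, Finset.card_univ, nsmul_eq_mul] at h1
  have ht' : (1 : ℤ) < t := by exact_mod_cast ht
  have hs' : (0 : ℤ) ≤ s := by positivity
  have hL : (0 : ℤ) < Fintype.card L := by exact_mod_cast Fintype.card_pos
  have hpos : (0 : ℤ) < (((t : ℤ) + 1) * (s + t)) ^ 3 := by positivity
  have hpos2 : (0 : ℤ) < ((t : ℤ) ^ 2 - 1) * t ^ 2 := by
    have : (0 : ℤ) < (t : ℤ) ^ 2 - 1 := by nlinarith
    positivity
  by_contra hlt
  push Not at hlt
  have hlt' : ((t : ℤ) ^ 2 - s) < 0 := by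
    have : ((t ^ 2 : ℕ) : ℤ) < s := by exact_mod_cast hlt
    push_cast at this
    linarith
  have : (Fintype.card L : ℤ) * ((((t : ℤ) + 1) * (s + t)) ^ 3 *
      (((t : ℤ) ^ 2 - 1) * t ^ 2 * (t ^ 2 - s))) < 0 := by
    apply mul_neg_of_pos_of_neg hL
    apply mul_neg_of_pos_of_neg hpos
    exact mul_neg_of_pos_of_neg hpos2 hlt'
  linarith

lemma card_points (H : IsGQ I s t) [Nonempty L] :
    (Fintype.card P : ℤ) = (s + 1) * (s * t + 1) := by
  have h1 : ∑ p : P, ∑ l : L, inc I p l = (Fintype.card P : ℤ) * (t + 1) := by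
    rw [Finset.sum_congr rfl (fun p _ => sum_inc_lines I H.h2 p)]
    simp
  have h2 : ∑ p : P, ∑ l : L, inc I p l = (Fintype.card L : ℤ) * (s + 1) := by
    rw [Finset.sum_comm, Finset.sum_congr rfl (fun l _ => sum_inc_points I H.h1 l)]
    simp
  have h3 : ((t : ℤ) + 1) * Fintype.card P = (t + 1) * ((s + 1) * (s * t + 1)) := by
    rw [card_lines H] at h2; linarith
  have h4 : ((t : ℤ) + 1) ≠ 0 := by positivity
  exact mul_left_cancel₀ h4 h3

/-- number of points not collinear with `x`. -/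
lemma card_aff (H : IsGQ I s t) [Nonempty L] (x : P) :
    Nat.card {p : P // ¬ Col I x p} = s ^ 2 * t := by
  classical
  have hkey : ∀ p : P, ∑ m : L, inc I x m * inc I p m
      = (if Col I x p then 1 else 0) + (if p = x then (t : ℤ) else 0) := by
    intro p
    by_cases hpx : p = x
    · subst hpx
      have hc : Col I p p := by
        obtain ⟨l, hl⟩ := exists_line H p
        exact ⟨l, hl, hl⟩
      rw [if_pos hc, if_pos rfl, Finset.sum_congr rfl (fun m _ => inc_mul_self I p m),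
        sum_inc_lines I H.h2]
      ring
    · rw [if_neg hpx, add_zero]
      by_cases hc : Col I x p
      · rw [if_pos hc]
        obtain ⟨l, hxl, hpl⟩ := hc
        rw [Finset.sum_eq_single l]
        · rw [inc_of I hxl, inc_of I hpl]; norm_num
        · intro m _ hm
          by_cases h1 : I x m
          · by_cases h2 : I p m
            · exact absurd (H.h3 p x m l hpx h2 h1 hpl hxl) hm
            · rw [inc_of_not I h2, mul_zero]
          · rw [inc_of_not I h1, zero_mul]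
        · intro h; exact absurd (Finset.mem_univ l) h
      · rw [if_neg hc]
        refine Finset.sum_eq_zero (fun m _ => ?_)
        by_cases h1 : I x m
        · by_cases h2 : I p m
          · exact absurd ⟨m, h1, h2⟩ hc
          · rw [inc_of_not I h2, mul_zero]
        · rw [inc_of_not I h1, zero_mul]
  have h1 : ∑ p : P, ∑ m : L, inc I x m * inc I p m = ((t : ℤ) + 1) * (s + 1) := by
    rw [Finset.sum_comm]
    have h2 : ∀ m : L, ∑ p : P, inc I x m * inc I p m = inc I x m * (s + 1) := by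
      intro m
      rw [← Finset.mul_sum, sum_inc_points I H.h1]
    rw [Finset.sum_congr rfl (fun m _ => h2 m), ← Finset.sum_mul, sum_inc_lines I H.h2]
  rw [Finset.sum_congr rfl (fun p _ => hkey p), Finset.sum_add_distrib, Finset.sum_ite_eq',
    if_pos (Finset.mem_univ x), Finset.sum_boole] at h1
  have h3 : (Finset.univ.filter (fun p => Col I x p)).card
      + (Finset.univ.filter (fun p => ¬ Col I x p)).card = Fintype.card P := by
    rw [Finset.card_filter_add_card_filter_not]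
    exact Finset.card_univ
  have h4 : Nat.card {p : P // ¬ Col I x p} = (Finset.univ.filter (fun p => ¬ Col I x p)).card := by
    rw [Nat.card_eq_fintype_card, Fintype.card_subtype]
  rw [h4]
  have h5 : (((Finset.univ.filter (fun p => ¬ Col I x p)).card : ℕ) : ℤ) = s ^ 2 * t := by
    have h6 : (((Finset.univ.filter (fun p => Col I x p)).card : ℕ) : ℤ)
      + (((Finset.univ.filter (fun p => ¬ Col I x p)).card : ℕ) : ℤ) = (Fintype.card P : ℤ) := by
      exact_mod_cast h3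
    rw [card_points H] at h6
    linarith
  exact_mod_cast h5

end higman

section data

variable {P L : Type} {I : P → L → Prop} {s t : ℕ}

/-- stabilizer of a line in an automorphism group -/
def stabL (G : Subgroup (Equiv.Perm P × Equiv.Perm L)) (M : L) : Subgroup G where
  carrier := {g | g.1.2 M = M}
  mul_mem' := by
    intro a b ha hb
    show a.1.2 (b.1.2 M) = M
    rw [show b.1.2 M = M from hb, show a.1.2 M = M from ha]
  one_mem' := rfl
  inv_mem' := by
    intro a ha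
    show a.1.2⁻¹ M = M
    rw [Equiv.Perm.inv_eq_iff_eq]
    exact (show a.1.2 M = M from ha).symm

lemma mem_stabL {G : Subgroup (Equiv.Perm P × Equiv.Perm L)} {M : L} {g : G} :
    g ∈ stabL G M ↔ g.1.2 M = M := Iff.rfl

/-- the symmetries about `x` contained in `G` -/
def symS (I : P → L → Prop) (x : P) (G : Subgroup (Equiv.Perm P × Equiv.Perm L)) :
    Subgroup G where
  carrier := {g | ∀ p : P, Col I x p → g.1.1 p = p}
  mul_mem' := by
    intro a b ha hb p hp
    show a.1.1 (b.1.1 p) = p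
    rw [hb p hp, ha p hp]
  one_mem' := fun _ _ => rfl
  inv_mem' := by
    intro a ha p hp
    show a.1.1⁻¹ p = p
    rw [Equiv.Perm.inv_eq_iff_eq]
    exact (ha p hp).symm

lemma mem_symS {x : P} {G : Subgroup (Equiv.Perm P × Equiv.Perm L)} {g : G} :
    g ∈ symS I x G ↔ ∀ p : P, Col I x p → g.1.1 p = p := Iff.rfl

end data

section group

variable {P L : Type} {I : P → L → Prop} {s t : ℕ}

/-- An elation group at `x` of a generalized quadrangle of order `(s,t)`. -/
structure IsElation (I : P → L → Prop) (s t : ℕ) (x : P)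
    (G : Subgroup (Equiv.Perm P × Equiv.Perm L)) : Prop where
  gq : IsGQ I s t
  hI : ∀ g ∈ G, ∀ (p : P) (l : L), I (g.1 p) (g.2 l) ↔ I p l
  hx : ∀ g ∈ G, g.1 x = x ∧ ∀ l : L, I x l → g.2 l = l
  hreg : ∀ p q : P, (¬ Col I x p) → (¬ Col I x q) →
      ∃! g : Equiv.Perm P × Equiv.Perm L, g ∈ G ∧ g.1 p = q

variable {x : P} {G : Subgroup (Equiv.Perm P × Equiv.Perm L)}

lemma IsElation.noFix (E : IsElation I s t x G) {h : Equiv.Perm P × Equiv.Perm L} (hh : h ∈ G)
    (hne : h ≠ 1) {p : P} (hp : ¬ Col I x p) : h.1 p ≠ p := by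
  intro hfix
  obtain ⟨k, _, hk⟩ := E.hreg p p hp hp
  have h1 := hk h ⟨hh, hfix⟩
  have h2 := hk 1 ⟨G.one_mem, rfl⟩
  exact hne (h1.trans h2.symm)

lemma IsElation.eq_of_apply (E : IsElation I s t x G) {g h : Equiv.Perm P × Equiv.Perm L}
    (hg : g ∈ G) (hh : h ∈ G) {p : P} (hp : ¬ Col I x p) (h1 : g.1 p = h.1 p) : g = h := by
  by_contra hne
  have h2 : h⁻¹ * g ≠ 1 := by
    intro h3
    apply hne
    have := congrArg (fun z => h * z) h3
    simpa using this
  apply E.noFix (G.mul_mem (G.inv_mem hh) hg) h2 hp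
  show h.1⁻¹ (g.1 p) = p
  rw [h1]
  exact h.1.symm_apply_apply p

lemma IsElation.aff_iff (E : IsElation I s t x G) {g : Equiv.Perm P × Equiv.Perm L}
    (hg : g ∈ G) {p : P} : Col I x (g.1 p) ↔ Col I x p := by
  have := col_iff (E.hI g hg) (p := x) (q := p)
  rwa [(E.hx g hg).1] at this

/-- an element moving an affine point to a point on a line `M` through it stabilizes `M` -/
lemma IsElation.stab_of (E : IsElation I s t x G) {g : Equiv.Perm P × Equiv.Perm L}
    (hg : g ∈ G) {p : P} (hp : ¬ Col I x p) {M : L} (hpM : I p M) (hgpM : I (g.1 p) M) :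
    g.2 M = M := by
  by_cases h1 : g = 1
  · subst h1; rfl
  have H := E.gq
  have hxM : ¬ I x M := fun h => hp ⟨M, h, hpM⟩
  obtain ⟨y, hyM, ⟨K, hxK, hyK⟩, _⟩ := foot H hxM
  have hqK : ¬ I (g.1 p) K := fun h => hp ((E.aff_iff hg).1 ⟨K, hxK, h⟩)
  have hqhM : I (g.1 p) (g.2 M) := (E.hI g hg p M).2 hpM
  have hyhM : I (g.1 y) (g.2 M) := (E.hI g hg y M).2 hyM
  have hhyK : I (g.1 y) K := by
    have := (E.hI g hg y K).2 hyK
    rwa [(E.hx g hg).2 K hxK] at this
  have hyy : y = g.1 y := no_tri H hqK hyK hhyK ⟨M, hgpM, hyM⟩ ⟨g.2 M, hqhM, hyhM⟩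
  have hqy : g.1 p ≠ y := fun h => hqK (h ▸ hyK)
  rw [← hyy] at hyhM
  exact H.h3 (g.1 p) y (g.2 M) M hqy hqhM hyhM hgpM hyM

/-- a symmetry in `G` fixing an affine line is trivial -/
lemma IsElation.sym_one (E : IsElation I s t x G) (hs : 0 < s) (ht : 0 < t)
    {c : Equiv.Perm P × Equiv.Perm L} (hc : c ∈ G) (hcx : ∀ p : P, Col I x p → c.1 p = p)
    {M : L} (hxM : ¬ I x M) (hcM : c.2 M = M) : c = 1 := by
  by_contra hne
  have H := E.gq
  obtain ⟨y, hyM, hyx, _⟩ := foot H hxM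
  obtain ⟨K, hxK, hyK⟩ := hyx
  have hxy : x ≠ y := fun h => hxM (h ▸ hyM)
  obtain ⟨N, hxN, hNK⟩ := exists_other_line H ht x K
  have hyN : ¬ I y N := fun h => hNK (H.h3 x y N K hxy hxN h hxK hyK)
  obtain ⟨p, hpN, hpx⟩ := exists_other_point H (by omega) N x
  exact no_fix_on H (E.hI c hc) (fun p hp => E.noFix hc hne hp) hxM hcM hyM ⟨K, hxK, hyK⟩ hxN hyN
    hpN hpx (hcx p ⟨N, hxN, hpN⟩)

lemma IsElation.exists_aff [Finite P] [Finite L] (E : IsElation I s t x G) (hs : 0 < s)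
    (ht : 0 < t) : ∃ p : P, ¬ Col I x p := by
  have H := E.gq
  obtain ⟨K, hxK⟩ := exists_line H x
  obtain ⟨y, hyK, hyx⟩ := exists_other_point H (by omega) K x
  obtain ⟨M, hyM, hMK⟩ := exists_other_line H ht y K
  have hxM : ¬ I x M := fun h => hMK (H.h3 x y M K (Ne.symm hyx) h hyM hxK hyK)
  obtain ⟨p, hpM, hpy⟩ := exists_other_point H (by omega) M y
  exact ⟨p, fun h => hpy (no_tri H hxM hpM hyM h ⟨K, hxK, hyK⟩)⟩

lemma IsElation.card_G [Fintype P] [Fintype L] [Nonempty L] (E : IsElation I s t x G)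
    {y0 : P} (hy0 : ¬ Col I x y0) : Nat.card G = s ^ 2 * t := by
  rw [← card_aff E.gq x]
  refine Nat.card_congr (Equiv.ofBijective
    (fun g : G => (⟨g.1.1 y0, fun h => hy0 ((E.aff_iff g.2).1 h)⟩ : {p : P // ¬ Col I x p}))
    ⟨?_, ?_⟩)
  · intro g h hgh
    have : g.1.1 y0 = h.1.1 y0 := congrArg Subtype.val hgh
    exact Subtype.ext (E.eq_of_apply g.2 h.2 hy0 this)
  · rintro ⟨q, hq⟩
    obtain ⟨g, ⟨hg, hgq⟩, _⟩ := E.hreg y0 q hy0 hq
    exact ⟨⟨g, hg⟩, Subtype.ext hgq⟩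

lemma IsElation.card_stabL [Finite P] [Finite L] (E : IsElation I s t x G)
    {y0 : P} (hy0 : ¬ Col I x y0) {M : L} (hM : I y0 M) : Nat.card (stabL G M) = s := by
  have H := E.gq
  have hxM : ¬ I x M := fun h => hy0 ⟨M, h, hM⟩
  obtain ⟨y, hyM, hyx, hyu⟩ := foot H hxM
  have h1 : ({p : P | I p M} \ {y}).ncard = s := by
    rw [Set.ncard_diff_singleton_of_mem (show y ∈ {p : P | I p M} from hyM), H.h1 M]
    omega
  rw [← h1, ← Nat.card_coe_set_eq]
  refine Nat.card_congr (Equiv.ofBijective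
    (fun g : stabL G M => (⟨g.1.1.1 y0, ?_⟩ : ({p : P | I p M} \ {y} : Set P))) ⟨?_, ?_⟩)
  · refine ⟨?_, ?_⟩
    · show I (g.1.1.1 y0) M
      have := (E.hI g.1.1 g.1.2 y0 M).2 hM
      rwa [show g.1.1.2 M = M from g.2] at this
    · intro h
      have h2 : g.1.1.1 y0 = y := h
      apply hy0
      rw [← E.aff_iff g.1.2, h2]
      exact hyx
  · intro g h hgh
    have : g.1.1.1 y0 = h.1.1.1 y0 := congrArg Subtype.val hgh
    exact Subtype.ext (Subtype.ext (E.eq_of_apply g.1.2 h.1.2 hy0 this))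
  · rintro ⟨q, hqM, hqy⟩
    have hq : ¬ Col I x q := fun h => hqy (hyu q hqM h)
    obtain ⟨g, ⟨hg, hgq⟩, _⟩ := E.hreg y0 q hy0 hq
    refine ⟨⟨⟨g, hg⟩, ?_⟩, Subtype.ext hgq⟩
    exact E.stab_of hg hy0 hM (by rw [hgq]; exact hqM)

/-- K1 -/
lemma IsElation.K1 (E : IsElation I s t x G) {y0 : P} (hy0 : ¬ Col I x y0)
    {M N R : L} (hM : I y0 M) (hN : I y0 N) (hR : I y0 R) (hMN : M ≠ N)
    (hNR : N ≠ R) (hMR : M ≠ R) {a b : G} (ha : a ∈ stabL G M) (hb : b ∈ stabL G N)
    (hab : a * b ∈ stabL G R) : a = 1 ∧ b = 1 := by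
  have H := E.gq
  -- elements of two different stabilizers are trivial
  have htriv : ∀ {U V : L}, I y0 U → I y0 V → U ≠ V → ∀ {c : G}, c ∈ stabL G U →
      c ∈ stabL G V → c = 1 := by
    intro U V hU hV hUV c hcU hcV
    have h1 : I (c.1.1 y0) U := by
      have := (E.hI c.1 c.2 y0 U).2 hU
      rwa [show c.1.2 U = U from hcU] at this
    have h2 : I (c.1.1 y0) V := by
      have := (E.hI c.1 c.2 y0 V).2 hV
      rwa [show c.1.2 V = V from hcV] at this
    have h3 : c.1.1 y0 = y0 := by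
      by_contra hne
      exact hUV (H.h3 _ _ U V hne h1 hU h2 hV)
    exact Subtype.ext (E.eq_of_apply c.2 G.one_mem hy0 h3)
  by_cases ha1 : a = 1
  · subst ha1
    rw [one_mul] at hab
    exact ⟨rfl, htriv hN hR hNR hb hab⟩
  exfalso
  have haM : I (a.1.1 y0) M := by
    have := (E.hI a.1 a.2 y0 M).2 hM
    rwa [show a.1.2 M = M from ha] at this
  have haN : I (a.1.1 y0) (a.1.2 N) := (E.hI a.1 a.2 y0 N).2 hN
  have habN : I ((a * b).1.1 y0) (a.1.2 N) := by
    have h1 : I (b.1.1 y0) N := by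
      have := (E.hI b.1 b.2 y0 N).2 hN
      rwa [show b.1.2 N = N from hb] at this
    exact (E.hI a.1 a.2 (b.1.1 y0) N).2 h1
  have habR : I ((a * b).1.1 y0) R := by
    have := (E.hI (a * b).1 (a * b).2 y0 R).2 hR
    rwa [show (a * b).1.2 R = R from hab] at this
  have hay : a.1.1 y0 ≠ y0 := by
    intro h
    exact ha1 (Subtype.ext (E.eq_of_apply a.2 G.one_mem hy0 h))
  have hyaN : ¬ I y0 (a.1.2 N) := by
    intro h
    have h1 : a.1.2 N = M := H.h3 _ _ _ _ hay haN h haM hM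
    have h2 : a.1.2 N = a.1.2 M := by rw [h1]; exact (show a.1.2 M = M from ha).symm
    exact hMN (a.1.2.injective h2).symm
  have h1 : a.1.1 y0 = (a * b).1.1 y0 :=
    no_tri H hyaN haN habN ⟨M, hM, haM⟩ ⟨R, hR, habR⟩
  rw [← h1] at habR
  exact hMR (H.h3 _ _ M R hay haM hM habR hR)

/-- K2 -/
lemma IsElation.K2 (E : IsElation I s t x G) {y0 : P} (hy0 : ¬ Col I x y0)
    {M N : L} (hM : I y0 M) (hN : I y0 N) (hMN : M ≠ N) {a c : G} (ha : a ∈ stabL G M)
    (hc : c ∈ symS I x G) (hac : a * c ∈ stabL G N) : a * c = 1 := by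
  have H := E.gq
  by_contra hne
  have hxM : ¬ I x M := fun h => hy0 ⟨M, h, hM⟩
  have hxN : ¬ I x N := fun h => hy0 ⟨N, h, hN⟩
  obtain ⟨y, hyM, hyx, hyu⟩ := foot H hxM
  obtain ⟨z, hzN, hzx, hzu⟩ := foot H hxN
  -- `a` fixes `y`
  have hay : a.1.1 y = y := by
    refine hyu _ ?_ ?_
    · have := (E.hI a.1 a.2 y M).2 hyM
      rwa [show a.1.2 M = M from ha] at this
    · exact (E.aff_iff a.2).2 hyx
  have hacy : (a * c).1.1 y = y := by
    show a.1.1 (c.1.1 y) = y
    rw [hc y hyx, hay]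
  obtain ⟨K, hxK, hyK⟩ := hyx
  have hyx' : y ≠ x := fun h => hxM (h ▸ hyM)
  have hy0K : ¬ I y0 K := fun h => hy0 ⟨K, hxK, h⟩
  have hzK : ¬ I z K := by
    intro hzK
    have : y = z := no_tri H hy0K hyK hzK ⟨M, hM, hyM⟩ ⟨N, hN, hzN⟩
    subst this
    have hy0y : y0 ≠ y := fun h => hy0K (h ▸ hyK)
    exact hMN (H.h3 y0 y M N hy0y hM hyM hN hzN)
  exact no_fix_on H (E.hI (a * c).1 (a * c).2)
    (fun p hp => E.noFix (a * c).2 (fun h => hne (Subtype.ext h)) hp) hxN
    (show (a * c).1.2 N = N from hac) hzN hzx hxK hzK hyK hyx' hacy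

/-- the symmetries form a normal subgroup -/
lemma IsElation.normal_symS (E : IsElation I s t x G) : (symS I x G).Normal := by
  constructor
  intro c hc g p hp
  show g.1.1 (c.1.1 (g.1.1⁻¹ p)) = p
  have h1 : Col I x (g.1.1⁻¹ p) := by
    have := (E.aff_iff (g⁻¹).2 (p := p)).2 hp
    exact this
  rw [hc _ h1]
  exact g.1.1.apply_symm_apply p

/-- the number of symmetries, if `x` is a center of symmetry -/
lemma IsElation.card_symS [Finite P] [Finite L] (E : IsElation I s t x G) (hs : 0 < s)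
    (ht : 0 < t)
    (hS : ∀ v w : P, Col I x v → Col I x w → ¬ Col I v w → ∀ a b : P, a ≠ x → b ≠ x →
      Col I a v → Col I a w → Col I b v → Col I b w →
      ∃ σ ∈ G, (∀ p : P, Col I x p → σ.1 p = p) ∧ σ.1 a = b) :
    Nat.card (symS I x G) = t := by
  have H := E.gq
  obtain ⟨K, hxK⟩ := exists_line H x
  obtain ⟨K', hxK', hKK'⟩ := exists_other_line H ht x K
  obtain ⟨v, hvK, hvx⟩ := exists_other_point H hs K x
  obtain ⟨w, hwK', hwx⟩ := exists_other_point H hs K' x
  have hxv : Col I x v := ⟨K, hxK, hvK⟩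
  have hxw : Col I x w := ⟨K', hxK', hwK'⟩
  have hvK' : ¬ I v K' := fun h => hKK' (H.h3 v x K' K hvx h hxK' hvK hxK)
  have hwK : ¬ I w K := fun h => hKK' (H.h3 w x K' K hwx hwK' hxK' h hxK)
  have hvw : ¬ Col I v w := by
    intro h
    exact hwx (no_tri H hvK' hwK' hxK' h hxv.symm')
  have h1 : ({l : L | I v l} \ {K}).ncard = t := by
    rw [Set.ncard_diff_singleton_of_mem (show K ∈ {l : L | I v l} from hvK), H.h2 v]
    omega
  obtain ⟨m0, hvm0, hm0K⟩ := exists_other_line H ht v K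
  have hxm : ∀ m : L, I v m → m ≠ K → ¬ I x m := by
    intro m hvm hmK h
    exact hmK (H.h3 v x m K hvx hvm h hvK hxK)
  rw [← h1, ← Nat.card_coe_set_eq]
  refine Nat.card_congr (Equiv.ofBijective
    (fun g : symS I x G => (⟨g.1.1.2 m0, ?_⟩ : ({l : L | I v l} \ {K} : Set L))) ⟨?_, ?_⟩)
  · refine ⟨?_, ?_⟩
    · show I v (g.1.1.2 m0)
      have := (E.hI g.1.1 g.1.2 v m0).2 hvm0
      rwa [g.2 v hxv] at this
    · intro h
      have h2 : g.1.1.2 m0 = g.1.1.2 K := by
        rw [(E.hx g.1.1 g.1.2).2 K hxK]; exact h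
      exact hm0K (g.1.1.2.injective h2)
  · intro g h hgh
    have h2 : g.1.1.2 m0 = h.1.1.2 m0 := congrArg Subtype.val hgh
    have h3 : (h⁻¹ * g).1.1 = 1 := by
      refine E.sym_one hs ht (h⁻¹ * g).1.2 (h⁻¹ * g).2 (hxm m0 hvm0 hm0K) ?_
      show h.1.1.2⁻¹ (g.1.1.2 m0) = m0
      rw [h2]
      exact h.1.1.2.symm_apply_apply m0
    have h4 : h⁻¹ * g = 1 := Subtype.ext (Subtype.ext h3)
    exact (inv_mul_eq_one.1 h4).symm
  · rintro ⟨m, hvm, hmK⟩
    have hmK : m ≠ K := hmK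
    -- the points of `m0` and `m` collinear with `w`
    have hwm0 : ¬ I w m0 := fun h => hvw ⟨m0, hvm0, h⟩
    have hwm : ¬ I w m := fun h => hvw ⟨m, hvm, h⟩
    obtain ⟨a, ham0, haw, _⟩ := foot H hwm0
    obtain ⟨b, hbm, hbw, _⟩ := foot H hwm
    have hax : a ≠ x := fun h => hxm m0 hvm0 hm0K (h ▸ ham0)
    have hbx : b ≠ x := fun h => hxm m hvm hmK (h ▸ hbm)
    obtain ⟨σ, hσ, hσx, hσa⟩ := hS v w hxv hxw hvw a b hax hbx ⟨m0, ham0, hvm0⟩ haw.symm'
      ⟨m, hbm, hvm⟩ hbw.symm'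
    refine ⟨⟨⟨σ, hσ⟩, hσx⟩, Subtype.ext ?_⟩
    show σ.2 m0 = m
    have hvσ : I v (σ.2 m0) := by
      have := (E.hI σ hσ v m0).2 hvm0
      rwa [hσx v hxv] at this
    have hbσ : I b (σ.2 m0) := by
      have := (E.hI σ hσ a m0).2 ham0
      rwa [hσa] at this
    have hvb : v ≠ b := by
      intro h
      subst h
      exact hvw hbw.symm'
    exact H.h3 v b _ _ hvb hvσ hbσ hvm hbm

end group

end Pool.Agent.Helper55.GQ
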