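import Mathlib

set_option autoImplicit false

/-!
# A local trace identity for automorphisms of generalized quadrangles of order `(t^2, t)`
-/

namespace Pool.Agent.Helper55.GQ

open Finset

section basic

variable {P L : Type} [Fintype P] [Fintype L] (I : P → L → Prop)

open Classical in
/-- incidence number -/
noncomputable def inc (p : P) (l : L) : ℤ := if I p l then 1 else 0

/-- number of common points -/
noncomputable def T (Q R : L) : ℤ := ∑ p : P, inc I p Q * inc I p R

omit [Fintype L] in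
lemma T_symm (Q R : L) : T I Q R = T I R Q := by
  unfold T; exact Finset.sum_congr rfl (fun p _ => mul_comm _ _)

omit [Fintype P] [Fintype L] in
lemma inc_of {p : P} {l : L} (h : I p l) : inc I p l = 1 := by simp [inc, h]

omit [Fintype P] [Fintype L] in
lemma inc_of_not {p : P} {l : L} (h : ¬ I p l) : inc I p l = 0 := by simp [inc, h]

omit [Fintype P] [Fintype L] in
lemma inc_mul_self (p : P) (l : L) : inc I p l * inc I p l = inc I p l := by
  unfold inc; split_ifs <;> simp

omit [Fintype L] in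
lemma sum_inc_points {s : ℕ} (h1 : ∀ l : L, {p : P | I p l}.ncard = s + 1) (l : L) :
    ∑ p : P, inc I p l = (s : ℤ) + 1 := by
  classical
  have h := h1 l
  rw [Set.ncard_eq_toFinset_card'] at h
  unfold inc
  rw [Finset.sum_boole]
  have : (Finset.univ.filter (fun p => I p l)).card = s + 1 := by
    rw [← h]; congr 1; ext p; simp
  rw [this]; push_cast; ring

omit [Fintype P] in
lemma sum_inc_lines {t : ℕ} (h2 : ∀ p : P, {l : L | I p l}.ncard = t + 1) (p : P) :
    ∑ l : L, inc I p l = (t : ℤ) + 1 := by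
  classical
  have h := h2 p
  rw [Set.ncard_eq_toFinset_card'] at h
  unfold inc
  rw [Finset.sum_boole]
  have : (Finset.univ.filter (fun l => I p l)).card = t + 1 := by
    rw [← h]; congr 1; ext l; simp
  rw [this]; push_cast; ring

end basic

section gq

variable {P L : Type} [Fintype P] [Fintype L] (I : P → L → Prop) (s t : ℕ)

/-- The axioms of a generalized quadrangle of order `(s,t)`. -/
structure IsGQ : Prop where
  h1 : ∀ l : L, {p : P | I p l}.ncard = s + 1
  h2 : ∀ p : P, {l : L | I p l}.ncard = t + 1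
  h3 : ∀ (p q : P) (l m : L), p ≠ q → I p l → I q l → I p m → I q m → l = m
  h4 : ∀ (p : P) (l : L), ¬ I p l → ∃! q : P, I q l ∧ ∃ m : L, I p m ∧ I q m

variable {I s t}

omit [Fintype L] in
lemma T_self (H : IsGQ I s t) (Q : L) : T I Q Q = (s : ℤ) + 1 := by
  unfold T
  rw [← sum_inc_points I H.h1 Q]
  exact Finset.sum_congr rfl (fun p _ => inc_mul_self I p Q)

omit [Fintype L] in
lemma T_one (H : IsGQ I s t) {Q R : L} (hne : Q ≠ R) {p : P} (hQ : I p Q) (hR : I p R) :
    T I Q R = 1 := by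
  unfold T
  rw [Finset.sum_eq_single p]
  · rw [inc_of I hQ, inc_of I hR]; norm_num
  · intro q _ hq
    by_cases h1 : I q Q
    · by_cases h2 : I q R
      · exact absurd (H.h3 q p Q R hq h1 hQ h2 hR) hne
      · rw [inc_of_not I h2, mul_zero]
    · rw [inc_of_not I h1, zero_mul]
  · intro h; exact absurd (Finset.mem_univ p) h

omit [Fintype L] in
lemma T_zero {Q R : L} (h : ¬ ∃ p : P, I p Q ∧ I p R) : T I Q R = 0 := by
  unfold T
  refine Finset.sum_eq_zero (fun p _ => ?_)
  by_cases h1 : I p Q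
  · by_cases h2 : I p R
    · exact absurd ⟨p, h1, h2⟩ h
    · rw [inc_of_not I h2, mul_zero]
  · rw [inc_of_not I h1, zero_mul]

lemma key_sum (H : IsGQ I s t) (p : P) (l : L) :
    ∑ m : L, inc I p m * T I m l = ((s : ℤ) + t) * inc I p l + 1 := by
  classical
  by_cases hp : I p l
  · have hpt : ∀ m : L, inc I p m * T I m l = inc I p m + (if m = l then (s : ℤ) else 0) := by
      intro m
      by_cases hm : I p m
      · by_cases hml : m = l
        · subst hml
          rw [inc_of I hm, T_self H, if_pos rfl]; ring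
        · rw [inc_of I hm, T_one H hml hm hp, if_neg hml]; ring
      · have hml : m ≠ l := fun h => hm (h ▸ hp)
        rw [inc_of_not I hm, if_neg hml]; ring
    rw [Finset.sum_congr rfl (fun m _ => hpt m), Finset.sum_add_distrib, sum_inc_lines I H.h2 p,
      Finset.sum_ite_eq' , if_pos (Finset.mem_univ l), inc_of I hp]
    ring
  · obtain ⟨q, ⟨hql, m0, hpm0, hqm0⟩, huniq⟩ := H.h4 p l hp
    rw [inc_of_not I hp, Finset.sum_eq_single m0]
    · have hne : m0 ≠ l := fun h => hp (h ▸ hpm0)
      rw [inc_of I hpm0, T_one H hne hqm0 hql]; ring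
    · intro m _ hm
      by_cases hpm : I p m
      · rw [T_zero, mul_zero]
        rintro ⟨r, hrm, hrl⟩
        have hrq : r = q := huniq r ⟨hrl, m, hpm, hrm⟩
        subst hrq
        have hpr : p ≠ r := fun h => hp (h ▸ hrl)
        exact hm (H.h3 p r m m0 hpr hpm hrm hpm0 hqm0)
      · rw [inc_of_not I hpm, zero_mul]
    · intro h; exact absurd (Finset.mem_univ m0) h

lemma T_sq (H : IsGQ I s t) (Q R : L) :
    ∑ m : L, T I Q m * T I m R = ((s : ℤ) + t) * T I Q R + (s + 1) := by
  have : ∀ m : L, T I Q m * T I m R = ∑ p : P, inc I p Q * (inc I p m * T I m R) := by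
    intro m
    conv_lhs => rw [T, Finset.sum_mul]
    exact Finset.sum_congr rfl (fun p _ => by ring)
  rw [Finset.sum_congr rfl (fun m _ => this m), Finset.sum_comm]
  have h2 : ∀ p : P, ∑ m : L, inc I p Q * (inc I p m * T I m R)
      = ((s : ℤ) + t) * (inc I p Q * inc I p R) + inc I p Q := by
    intro p
    rw [← Finset.mul_sum, key_sum H]; ring
  rw [Finset.sum_congr rfl (fun p _ => h2 p), Finset.sum_add_distrib, ← Finset.mul_sum,
    sum_inc_points I H.h1 Q]
  rfl

lemma T_row (H : IsGQ I s t) (Q : L) : ∑ R : L, T I Q R = ((s : ℤ) + 1) * (t + 1) := by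
  unfold T
  rw [Finset.sum_comm]
  have h2 : ∀ p : P, ∑ R : L, inc I p Q * inc I p R = inc I p Q * (t + 1) := by
    intro p
    rw [← Finset.mul_sum, sum_inc_lines I H.h2]
  rw [Finset.sum_congr rfl (fun p _ => h2 p), ← Finset.sum_mul, sum_inc_points I H.h1]

lemma card_lines (H : IsGQ I s t) [Nonempty L] :
    (Fintype.card L : ℤ) = (t + 1) * (s * t + 1) := by
  obtain ⟨Q⟩ := ‹Nonempty L›
  have h1 : ∑ R : L, ∑ m : L, T I Q m * T I m R = (((s : ℤ) + 1) * (t + 1)) * (((s : ℤ) + 1) * (t + 1)) := by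
    rw [Finset.sum_comm]
    have : ∀ m : L, ∑ R : L, T I Q m * T I m R = T I Q m * (((s : ℤ) + 1) * (t + 1)) := by
      intro m; rw [← Finset.mul_sum, T_row H]
    rw [Finset.sum_congr rfl (fun m _ => this m), ← Finset.sum_mul, T_row H]
  have h2 : ∑ R : L, ∑ m : L, T I Q m * T I m R
      = ((s : ℤ) + t) * (((s : ℤ) + 1) * (t + 1)) + (s + 1) * Fintype.card L := by
    rw [Finset.sum_congr rfl (fun R _ => T_sq H Q R), Finset.sum_add_distrib, ← Finset.mul_sum,
      T_row H]
    simp [mul_comm]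
  have h3 : ((s : ℤ) + 1) * Fintype.card L = (s + 1) * ((t + 1) * (s * t + 1)) := by
    rw [h2] at h1; linarith
  have h4 : ((s : ℤ) + 1) ≠ 0 := by positivity
  exact mul_left_cancel₀ h4 h3

/-- `t^2` times the cosine matrix of the eigenvalue `-s-1` of the concurrency graph. -/
noncomputable def e (I : P → L → Prop) (s t : ℕ) (Q R : L) : ℤ :=
  by classical exact 1 + ((t : ℤ) + 1) * ((if Q = R then ((s : ℤ) + t) else 0) - T I Q R)

omit [Fintype L] in
lemma e_self (H : IsGQ I s t) (Q : L) : e I s t Q Q = (t : ℤ) ^ 2 := by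
  unfold e; rw [if_pos rfl, T_self H]; ring

omit [Fintype L] in
lemma e_one (H : IsGQ I s t) {Q R : L} (hne : Q ≠ R) {p : P} (hQ : I p Q) (hR : I p R) :
    e I s t Q R = -(t : ℤ) := by
  unfold e; rw [if_neg hne, T_one H hne hQ hR]; ring

omit [Fintype L] in
lemma e_zero {Q R : L} (hne : Q ≠ R) (h : ¬ ∃ p : P, I p Q ∧ I p R) :
    e I s t Q R = 1 := by
  unfold e; rw [if_neg hne, T_zero h]; ring

omit [Fintype L] in
lemma e_symm (Q R : L) : e I s t Q R = e I s t R Q := by
  classical
  unfold e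
  rw [T_symm I Q R]
  by_cases h : Q = R
  · subst h; rfl
  · rw [if_neg h, if_neg (fun h' => h h'.symm)]

lemma e_sq (H : IsGQ I s t) (Q R : L) :
    ∑ m : L, e I s t Q m * e I s t m R = ((t : ℤ) + 1) * (s + t) * e I s t Q R := by
  classical
  have : Nonempty L := ⟨Q⟩
  have hexp : ∀ m : L, e I s t Q m * e I s t m R
      = 1 + ((t : ℤ) + 1) * (s + t) * (if Q = m then 1 else 0)
        + ((t : ℤ) + 1) * (s + t) * (if m = R then 1 else 0)
        - ((t : ℤ) + 1) * T I Q m - ((t : ℤ) + 1) * T I R m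
        + ((t : ℤ) + 1) ^ 2 * ((s : ℤ) + t) ^ 2 * (if Q = m then (if m = R then 1 else 0) else 0)
        - ((t : ℤ) + 1) ^ 2 * ((s : ℤ) + t) * (if Q = m then T I m R else 0)
        - ((t : ℤ) + 1) ^ 2 * ((s : ℤ) + t) * (if m = R then T I Q m else 0)
        + ((t : ℤ) + 1) ^ 2 * (T I Q m * T I m R) := by
    intro m
    unfold e
    rw [T_symm I R m]
    split_ifs <;> ring
  rw [Finset.sum_congr rfl (fun m _ => hexp m)]
  simp only [Finset.sum_add_distrib, Finset.sum_sub_distrib, ← Finset.mul_sum]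
  rw [Finset.sum_ite_eq, Finset.sum_ite_eq', Finset.sum_ite_eq, Finset.sum_ite_eq,
    Finset.sum_ite_eq', T_row H, T_row H, T_sq H]
  simp only [Finset.mem_univ, if_true, Finset.sum_const, Finset.card_univ, nsmul_eq_mul, mul_one]
  rw [card_lines H]
  unfold e
  by_cases h : Q = R
  · subst h; simp only [if_true]; ring
  · simp only [if_neg h]; ring

lemma e_row (H : IsGQ I s t) (Q : L) : ∑ R : L, e I s t Q R = 0 := by
  classical
  have : Nonempty L := ⟨Q⟩
  unfold e
  rw [Finset.sum_add_distrib, ← Finset.mul_sum, Finset.sum_sub_distrib, Finset.sum_ite_eq,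
    T_row H]
  simp only [Finset.mem_univ, if_true, Finset.sum_const, Finset.card_univ, nsmul_eq_mul, mul_one]
  rw [card_lines H]; ring

/-- entries of `e` are `t^2`, `-t`, `1`; consequence for cubes. -/
lemma e_cube (H : IsGQ I s t) (Q R : L) :
    e I s t Q R ^ 3 = ((t : ℤ) - t ^ 2) + (t ^ 2 - t + 1) * e I s t Q R
      + (by classical exact if Q = R then ((t : ℤ) ^ 6 - t ^ 4 + t ^ 3 - t) else 0) := by
  classical
  by_cases h : Q = R
  · subst h
    rw [e_self H, if_pos rfl]; ring
  · rw [if_neg h]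
    by_cases h2 : ∃ p : P, I p Q ∧ I p R
    · obtain ⟨p, hp, hp'⟩ := h2
      rw [e_one H h hp hp']; ring
    · rw [e_zero h h2]; ring

lemma e_cube_sum (H : IsGQ I s t) (hs : s = t ^ 2) (Q : L) : ∑ R : L, e I s t Q R ^ 3 = 0 := by
  classical
  have : Nonempty L := ⟨Q⟩
  rw [Finset.sum_congr rfl (fun R _ => e_cube H Q R), Finset.sum_add_distrib,
    Finset.sum_add_distrib, ← Finset.mul_sum, e_row H, Finset.sum_ite_eq]
  simp only [Finset.mem_univ, if_true, Finset.sum_const, Finset.card_univ, nsmul_eq_mul]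
  rw [card_lines H]
  subst hs
  push_cast
  ring

/-- The Krein identity: the trilinear form on the eigenspace vanishes. -/
lemma krein (H : IsGQ I s t) (hs : s = t ^ 2) (A B C : L) :
    ∑ Q : L, e I s t A Q * e I s t B Q * e I s t C Q = 0 := by
  have h0 : ∑ a : L, ∑ b : L, ∑ c : L,
      (∑ Q : L, e I s t a Q * e I s t b Q * e I s t c Q) ^ 2 = 0 := by
    have h1 : ∀ a b c : L, (∑ Q : L, e I s t a Q * e I s t b Q * e I s t c Q) ^ 2
        = ∑ Q : L, ∑ R : L, (e I s t Q a * e I s t a R) *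
            ((e I s t Q b * e I s t b R) * (e I s t Q c * e I s t c R)) := by
      intro a b c
      rw [sq, Finset.sum_mul_sum]
      refine Finset.sum_congr rfl (fun Q _ => Finset.sum_congr rfl (fun R _ => ?_))
      rw [e_symm Q a, e_symm Q b, e_symm Q c]; ring
    have h2 : ∀ a b : L, ∑ c : L, (∑ Q : L, e I s t a Q * e I s t b Q * e I s t c Q) ^ 2
        = ∑ Q : L, ∑ R : L, (e I s t Q a * e I s t a R) *
            ((e I s t Q b * e I s t b R) * (((t : ℤ) + 1) * (s + t) * e I s t Q R)) := by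
      intro a b
      rw [Finset.sum_congr rfl (fun c _ => h1 a b c), Finset.sum_comm]
      refine Finset.sum_congr rfl (fun Q _ => ?_)
      rw [Finset.sum_comm]
      refine Finset.sum_congr rfl (fun R _ => ?_)
      rw [← Finset.mul_sum, ← Finset.mul_sum, e_sq H]
    have h3 : ∀ a : L, ∑ b : L, ∑ c : L, (∑ Q : L, e I s t a Q * e I s t b Q * e I s t c Q) ^ 2
        = ∑ Q : L, ∑ R : L, (e I s t Q a * e I s t a R) *
            ((((t : ℤ) + 1) * (s + t) * e I s t Q R) * (((t : ℤ) + 1) * (s + t) * e I s t Q R)) := by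
      intro a
      rw [Finset.sum_congr rfl (fun b _ => h2 a b), Finset.sum_comm]
      refine Finset.sum_congr rfl (fun Q _ => ?_)
      rw [Finset.sum_comm]
      refine Finset.sum_congr rfl (fun R _ => ?_)
      rw [← Finset.mul_sum, ← Finset.sum_mul, e_sq H]
    rw [Finset.sum_congr rfl (fun a _ => h3 a), Finset.sum_comm]
    refine Finset.sum_eq_zero (fun Q _ => ?_)
    rw [Finset.sum_comm]
    have h4 : ∀ R : L, ∑ a : L, (e I s t Q a * e I s t a R) *
            ((((t : ℤ) + 1) * (s + t) * e I s t Q R) * (((t : ℤ) + 1) * (s + t) * e I s t Q R))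
        = (((t : ℤ) + 1) * (s + t)) ^ 3 * e I s t Q R ^ 3 := by
      intro R
      rw [← Finset.sum_mul, e_sq H]; ring
    rw [Finset.sum_congr rfl (fun R _ => h4 R), ← Finset.mul_sum, e_cube_sum H hs, mul_zero]
  have h5 := (Finset.sum_eq_zero_iff_of_nonneg (fun a _ => Finset.sum_nonneg
    (fun b _ => Finset.sum_nonneg (fun c _ => sq_nonneg _)))).1 h0 A (Finset.mem_univ A)
  have h6 := (Finset.sum_eq_zero_iff_of_nonneg (fun b _ => Finset.sum_nonneg
    (fun c _ => sq_nonneg _))).1 h5 B (Finset.mem_univ B)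
  have h7 := (Finset.sum_eq_zero_iff_of_nonneg (fun c _ => sq_nonneg _)).1 h6 C (Finset.mem_univ C)
  exact pow_eq_zero_iff (two_ne_zero) |>.1 h7

/-- for a permutation `h` of the lines preserving `e`, `Q ↦ e Q (h Q)` is orthogonal to the
eigenspace. -/
lemma aut_orth (H : IsGQ I s t) (hs : s = t ^ 2) (ht : 0 < t) (h : Equiv.Perm L)
    (hh : ∀ Q R : L, e I s t (h Q) (h R) = e I s t Q R) (M : L) :
    ∑ Q : L, e I s t Q (h Q) * e I s t M Q = 0 := by
  have h1 : (((t : ℤ) + 1) * (s + t)) * ∑ Q : L, e I s t Q (h Q) * e I s t M Q = 0 := by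
    rw [Finset.mul_sum]
    have h2 : ∀ Q : L, (((t : ℤ) + 1) * (s + t)) * (e I s t Q (h Q) * e I s t M Q)
        = ∑ N : L, e I s t N Q * e I s t (h.symm N) Q * e I s t M Q := by
      intro Q
      rw [← mul_assoc, ← e_sq H Q (h Q), Finset.sum_mul]
      refine Finset.sum_congr rfl (fun N _ => ?_)
      have : e I s t N (h Q) = e I s t (h.symm N) Q := by
        rw [← hh (h.symm N) Q, Equiv.apply_symm_apply]
      rw [this, e_symm Q N]
    rw [Finset.sum_congr rfl (fun Q _ => h2 Q), Finset.sum_comm]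
    exact Finset.sum_eq_zero (fun N _ => krein H hs N (h.symm N) M)
  have h3 : (((t : ℤ) + 1) * (s + t)) ≠ 0 := by positivity
  exact (mul_eq_zero.1 h1).resolve_left h3

/-- consequence: `∑_{p ∈ M} ∑_{Q ∋ p} e Q (h Q)` is the same for all fixed lines `M`. -/
lemma local_eq (H : IsGQ I s t) (hs : s = t ^ 2) (ht : 0 < t) (h : Equiv.Perm L)
    (hh : ∀ Q R : L, e I s t (h Q) (h R) = e I s t Q R) {M N : L} (hM : h M = M) (hN : h N = N) :
    ∑ p : P, inc I p M * ∑ Q : L, inc I p Q * e I s t Q (h Q)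
      = ∑ p : P, inc I p N * ∑ Q : L, inc I p Q * e I s t Q (h Q) := by
  classical
  have key : ∀ K : L, h K = K → ((t : ℤ) + 1) * ∑ p : P, inc I p K * ∑ Q : L, inc I p Q * e I s t Q (h Q)
      = ∑ Q : L, e I s t Q (h Q) + ((t : ℤ) + 1) * (s + t) * t ^ 2 := by
    intro K hK
    have h1 := aut_orth H hs ht h hh K
    have h2 : ∀ Q : L, e I s t Q (h Q) * e I s t K Q
        = e I s t Q (h Q) + ((t : ℤ) + 1) * (s + t) * (if K = Q then e I s t Q (h Q) else 0)
          - ((t : ℤ) + 1) * (T I K Q * e I s t Q (h Q)) := by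
      intro Q
      conv_lhs => rw [show e I s t K Q = 1 + ((t : ℤ) + 1) *
        ((if K = Q then ((s : ℤ) + t) else 0) - T I K Q) from rfl]
      split_ifs <;> ring
    rw [Finset.sum_congr rfl (fun Q _ => h2 Q), Finset.sum_sub_distrib, Finset.sum_add_distrib,
      ← Finset.mul_sum, ← Finset.mul_sum, Finset.sum_ite_eq, if_pos (Finset.mem_univ K), hK,
      e_self H] at h1
    have h3 : ∑ Q : L, T I K Q * e I s t Q (h Q)
        = ∑ p : P, inc I p K * ∑ Q : L, inc I p Q * e I s t Q (h Q) := by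
      unfold T
      simp_rw [Finset.sum_mul, Finset.mul_sum]
      rw [Finset.sum_comm]
      exact Finset.sum_congr rfl (fun p _ => Finset.sum_congr rfl (fun Q _ => by ring))
    rw [h3] at h1
    linarith
  have h4 : ((t : ℤ) + 1) ≠ 0 := by positivity
  exact mul_left_cancel₀ h4 ((key M hM).trans (key N hN).symm)

end gq

end Pool.Agent.Helper55.GQ
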