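import Pool.Agent.Helper55.GQGroup

set_option autoImplicit false

/-!
# The centrality conjecture follows from its group theoretic form
-/

namespace Pool.Agent.Helper55.GQ

/-- Group data (Kantor family with a normal subgroup of symmetries). -/
structure KFam (Γ : Type) [Group Γ] (s t : ℕ) (ι : Type) (A : ι → Subgroup Γ)
    (S : Subgroup Γ) : Prop where
  hs : 1 < s
  ht : 1 < t
  normS : S.Normal
  cardG : Nat.card Γ = s ^ 2 * t
  cardI : Nat.card ι = t + 1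
  cardA : ∀ i, Nat.card (A i) = s
  cardS : Nat.card S = t
  K1 : ∀ i j k, i ≠ j → j ≠ k → i ≠ k → ∀ a ∈ A i, ∀ b ∈ A j, a * b ∈ A k → a = 1 ∧ b = 1
  K2 : ∀ i j, i ≠ j → ∀ a ∈ A i, ∀ c ∈ S, a * c ∈ A j → a * c = 1
  higman : s ≤ t ^ 2

/-- Reduction of the centrality conjecture to group theory; the case `s = t ^ 2` is settled. -/
theorem reduction
    (hgrp : ∀ (Γ : Type) [Group Γ] [Finite Γ] (s t : ℕ) (ι : Type) [Finite ι]
      (A : ι → Subgroup Γ) (S : Subgroup Γ), KFam Γ s t ι A S → s ≠ t ^ 2 →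
      ∀ c ∈ S, ∀ g : Γ, c * g = g * c) :
    ∀ (P L : Type) [Finite P] [Finite L] (I : P → L → Prop) (s t : ℕ),
    1 < s → 1 < t →
    (∀ l : L, {p : P | I p l}.ncard = s + 1) →
    (∀ p : P, {l : L | I p l}.ncard = t + 1) →
    (∀ (p q : P) (l m : L), p ≠ q → I p l → I q l → I p m → I q m → l = m) →
    (∀ (p : P) (l : L), ¬ I p l → ∃! q : P, I q l ∧ ∃ m : L, I p m ∧ I q m) →
    ∀ (x : P) (G : Subgroup (Equiv.Perm P × Equiv.Perm L)),
    (∀ g ∈ G, ∀ (p : P) (l : L), I (g.1 p) (g.2 l) ↔ I p l) →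
    (∀ g ∈ G, g.1 x = x ∧ ∀ l : L, I x l → g.2 l = l) →
    (∀ p q : P, (¬ ∃ l : L, I x l ∧ I p l) → (¬ ∃ l : L, I x l ∧ I q l) →
      ∃! g : Equiv.Perm P × Equiv.Perm L, g ∈ G ∧ g.1 p = q) →
    (∃ S : Subgroup (Equiv.Perm P × Equiv.Perm L),
      (∀ σ ∈ S, (∀ (p : P) (l : L), I (σ.1 p) (σ.2 l) ↔ I p l) ∧
        ∀ p : P, (∃ l : L, I x l ∧ I p l) → σ.1 p = p) ∧
      ∀ v w : P, (∃ l : L, I x l ∧ I v l) → (∃ l : L, I x l ∧ I w l) →
        (¬ ∃ l : L, I v l ∧ I w l) →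
        ∀ a b : P, a ≠ x → b ≠ x →
          (∃ l : L, I a l ∧ I v l) → (∃ l : L, I a l ∧ I w l) →
          (∃ l : L, I b l ∧ I v l) → (∃ l : L, I b l ∧ I w l) →
          ∃ σ ∈ S, σ.1 a = b) →
    (∀ σ : Equiv.Perm P × Equiv.Perm L, (∀ (p : P) (l : L), I (σ.1 p) (σ.2 l) ↔ I p l) →
      (∀ p : P, (∃ l : L, I x l ∧ I p l) → σ.1 p = p) → σ ∈ G) →
    ∀ σ : Equiv.Perm P × Equiv.Perm L, (∀ (p : P) (l : L), I (σ.1 p) (σ.2 l) ↔ I p l) →
      (∀ p : P, (∃ l : L, I x l ∧ I p l) → σ.1 p = p) →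
      ∀ g ∈ G, σ * g = g * σ := by
  intro P L hP hL I s t hs ht h1 h2 h3 h4 x G hI hx hreg hS hall σ hσ1 hσ2 g hg
  haveI := Fintype.ofFinite P
  haveI := Fintype.ofFinite L
  have E : IsElation I s t x G := ⟨⟨h1, h2, h3, h4⟩, hI, hx, hreg⟩
  have hσG : σ ∈ G := hall σ hσ1 hσ2
  by_cases hst : s = t ^ 2
  · exact main E.gq hst ht x G hI hx hreg σ hσG hσ2 g hg
  obtain ⟨y0, hy0⟩ := E.exists_aff (by omega) (by omega)
  obtain ⟨l0, _⟩ := exists_line E.gq x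
  haveI : Nonempty L := ⟨l0⟩
  obtain ⟨S0, hS1, hS2⟩ := hS
  have hcS : Nat.card (symS I x G) = t := by
    refine E.card_symS (by omega) (by omega) ?_
    intro v w hxv hxw hvw a b hax hbx hav haw hbv hbw
    obtain ⟨τ, hτ, hτa⟩ := hS2 v w hxv hxw hvw a b hax hbx hav haw hbv hbw
    exact ⟨τ, hall τ (hS1 τ hτ).1 (hS1 τ hτ).2, (hS1 τ hτ).2, hτa⟩
  have hK : KFam G s t {l : L // I y0 l} (fun l => stabL G l.1) (symS I x G) :=
    { hs := hs
      ht := ht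
      normS := E.normal_symS
      cardG := E.card_G hy0
      cardI := h2 y0
      cardA := fun i => E.card_stabL hy0 i.2
      cardS := hcS
      K1 := fun i j k hij hjk hik a ha b hb hab =>
        E.K1 hy0 i.2 j.2 k.2 (fun h => hij (Subtype.ext h)) (fun h => hjk (Subtype.ext h))
          (fun h => hik (Subtype.ext h)) ha hb hab
      K2 := fun i j hij a ha c hc hac =>
        E.K2 hy0 i.2 j.2 (fun h => hij (Subtype.ext h)) ha hc hac
      higman := higman E.gq ht }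
  have hmem : (⟨σ, hσG⟩ : G) ∈ symS I x G := hσ2
  have := hgrp G s t {l : L // I y0 l} (fun l => stabL G l.1) (symS I x G) hK hst _ hmem ⟨g, hg⟩
  exact congrArg Subtype.val this

end Pool.Agent.Helper55.GQ
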