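import Mathlib
import Pool.Agent.Helper90.ST.Defs

set_option autoImplicit false

/-!
# Basic facts on the group data `KFam`
-/

namespace Pool.Agent.Helper55.GQ

open Finset

/-- Group data (Kantor family with a normal subgroup of symmetries). -/
structure KFam0 (Γ : Type) [Group Γ] (s t : ℕ) (ι : Type) (A : ι → Subgroup Γ)
    (S : Subgroup Γ) : Prop where
  hs : 0 < s
  ht : 0 < t
  normS : S.Normal
  cardG : Nat.card Γ = s ^ 2 * t
  cardI : Nat.card ι = t + 1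
  cardA : ∀ i, Nat.card (A i) = s
  cardS : Nat.card S = t
  K1 : ∀ i j k, i ≠ j → j ≠ k → i ≠ k → ∀ a ∈ A i, ∀ b ∈ A j, a * b ∈ A k → a = 1 ∧ b = 1
  K2 : ∀ i j, i ≠ j → ∀ a ∈ A i, ∀ c ∈ S, a * c ∈ A j → a * c = 1

namespace KFam0

variable {Γ : Type} [Group Γ] [Finite Γ] {s t : ℕ} {ι : Type} [Finite ι]
  {A : ι → Subgroup Γ} {S : Subgroup Γ}

omit [Finite Γ] [Finite ι] in
lemma inter_A (h : KFam0 Γ s t ι A S) {i j : ι} (hij : i ≠ j) {a : Γ} (hi : a ∈ A i)
    (hj : a ∈ A j) : a = 1 := by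
  have := h.K2 i j hij a hi 1 S.one_mem (by rwa [mul_one])
  rwa [mul_one] at this

omit [Finite Γ] in
lemma exists_ne (h : KFam0 Γ s t ι A S) (i : ι) : ∃ j, j ≠ i := by
  have : Nontrivial ι := by
    rw [← Finite.one_lt_card_iff_nontrivial, h.cardI]
    have := h.ht
    omega
  exact _root_.exists_ne i

omit [Finite Γ] in
lemma inter_AS (h : KFam0 Γ s t ι A S) {i : ι} {a : Γ} (hi : a ∈ A i) (hS : a ∈ S) : a = 1 := by
  obtain ⟨j, hj⟩ := h.exists_ne i
  have := h.K2 j i hj 1 (A j).one_mem a hS (by rwa [one_mul])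
  rwa [one_mul] at this

omit [Finite Γ] [Finite ι] in
lemma mem_AS (h : KFam0 Γ s t ι A S) {i : ι} {g : Γ} :
    g ∈ A i ⊔ S ↔ ∃ a ∈ A i, ∃ c ∈ S, a * c = g := by
  haveI := h.normS
  exact Subgroup.mem_sup_of_normal_right

omit [Finite Γ] in
/-- unique factorization in `A i * S` -/
lemma fact_AS (h : KFam0 Γ s t ι A S) {i : ι} {a a' c c' : Γ} (ha : a ∈ A i) (ha' : a' ∈ A i)
    (hc : c ∈ S) (hc' : c' ∈ S) (he : a * c = a' * c') : a = a' ∧ c = c' := by
  have h1 : a'⁻¹ * a = c' * c⁻¹ := by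
    have : a'⁻¹ * (a * c) * c⁻¹ = a'⁻¹ * (a' * c') * c⁻¹ := by rw [he]
    simpa [mul_assoc] using this
  have h2 : a'⁻¹ * a = 1 := h.inter_AS ((A i).mul_mem ((A i).inv_mem ha') ha)
    (by rw [h1]; exact S.mul_mem hc' (S.inv_mem hc))
  have h3 : a = a' := (inv_mul_eq_one.1 h2).symm
  refine ⟨h3, ?_⟩
  rw [h3] at he
  exact mul_left_cancel he

omit [Finite Γ] [Finite ι] in
/-- unique factorization in `A i * A k` -/
lemma fact_AA (h : KFam0 Γ s t ι A S) {i k : ι} (hik : i ≠ k) {a a' c c' : Γ} (ha : a ∈ A i)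
    (ha' : a' ∈ A i) (hc : c ∈ A k) (hc' : c' ∈ A k) (he : a * c = a' * c') :
    a = a' ∧ c = c' := by
  have h1 : a'⁻¹ * a = c' * c⁻¹ := by
    have : a'⁻¹ * (a * c) * c⁻¹ = a'⁻¹ * (a' * c') * c⁻¹ := by rw [he]
    simpa [mul_assoc] using this
  have h2 : a'⁻¹ * a = 1 := h.inter_A hik ((A i).mul_mem ((A i).inv_mem ha') ha)
    (by rw [h1]; exact (A k).mul_mem hc' ((A k).inv_mem hc))
  have h3 : a = a' := (inv_mul_eq_one.1 h2).symm
  refine ⟨h3, ?_⟩
  rw [h3] at he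
  exact mul_left_cancel he

lemma card_AS (h : KFam0 Γ s t ι A S) (i : ι) : Nat.card (A i ⊔ S : Subgroup Γ) = s * t := by
  rw [← h.cardA i, ← h.cardS, ← Nat.card_prod]
  refine (Nat.card_congr (Equiv.ofBijective
    (fun p : A i × S => (⟨p.1.1 * p.2.1, h.mem_AS.2 ⟨_, p.1.2, _, p.2.2, rfl⟩⟩ :
      (A i ⊔ S : Subgroup Γ))) ⟨?_, ?_⟩)).symm
  · rintro ⟨a, c⟩ ⟨a', c'⟩ he
    have := h.fact_AS a.2 a'.2 c.2 c'.2 (congrArg Subtype.val he)
    exact Prod.ext (Subtype.ext this.1) (Subtype.ext this.2)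
  · rintro ⟨g, hg⟩
    obtain ⟨a, ha, c, hc, he⟩ := h.mem_AS.1 hg
    exact ⟨(⟨a, ha⟩, ⟨c, hc⟩), Subtype.ext he⟩

/-- The set `A i * A k`. -/
def AA (A : ι → Subgroup Γ) (i k : ι) : Set Γ := {g | ∃ a ∈ A i, ∃ c ∈ A k, a * c = g}

omit [Finite Γ] [Finite ι] in
lemma card_AA (h : KFam0 Γ s t ι A S) {i k : ι} (hik : i ≠ k) : (AA A i k).ncard = s * s := by
  rw [← Nat.card_coe_set_eq]
  have : s * s = Nat.card (A i × A k) := by
    rw [Nat.card_prod, h.cardA i, h.cardA k]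
  rw [this]
  refine (Nat.card_congr (Equiv.ofBijective
    (fun p : A i × A k => (⟨p.1.1 * p.2.1, ⟨_, p.1.2, _, p.2.2, rfl⟩⟩ : AA A i k)) ⟨?_, ?_⟩)).symm
  · rintro ⟨a, c⟩ ⟨a', c'⟩ he
    have := h.fact_AA hik a.2 a'.2 c.2 c'.2 (congrArg Subtype.val he)
    exact Prod.ext (Subtype.ext this.1) (Subtype.ext this.2)
  · rintro ⟨g, a, ha, c, hc, he⟩
    exact ⟨(⟨a, ha⟩, ⟨c, hc⟩), Subtype.ext he⟩

omit [Finite Γ] [Finite ι] in
/-- two of the sets `A i * A k` meet in `A k`. -/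
lemma AA_disj (h : KFam0 Γ s t ι A S) {i j k : ι} (hik : i ≠ k) (hjk : j ≠ k) (hij : i ≠ j)
    {g : Γ} (hi : g ∈ AA A i k) (hj : g ∈ AA A j k) : g ∈ A k := by
  obtain ⟨a, ha, c, hc, he⟩ := hi
  obtain ⟨b, hb, d, hd, he'⟩ := hj
  have h1 : b⁻¹ * a = d * c⁻¹ := by
    have : b⁻¹ * (a * c) * c⁻¹ = b⁻¹ * (b * d) * c⁻¹ := by rw [he, he']
    simpa [mul_assoc] using this
  have h2 := h.K1 j i k hij.symm hik hjk b⁻¹ ((A j).inv_mem hb) a ha
    (by rw [h1]; exact (A k).mul_mem hd ((A k).inv_mem hc))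
  rw [← he, h2.2, one_mul]; exact hc

omit [Finite Γ] [Finite ι] in
/-- `A i * A k` and `A k * S` meet in `A k`. -/
lemma AA_AS_disj (h : KFam0 Γ s t ι A S) {i k : ι} (hik : i ≠ k)
    {g : Γ} (hi : g ∈ AA A i k) (hS : g ∈ A k ⊔ S) : g ∈ A k := by
  obtain ⟨a, ha, c, hc, he⟩ := hi
  have h1 : a ∈ A k ⊔ S := by
    have : a = g * c⁻¹ := by rw [← he]; group
    rw [this]
    exact (A k ⊔ S).mul_mem hS ((A k ⊔ S).inv_mem (Subgroup.mem_sup_left hc))
  obtain ⟨b, hb, d, hd, he'⟩ := h.mem_AS.1 h1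
  have h2 := h.K2 k i hik.symm b hb d hd (by rw [he']; exact ha)
  rw [he'] at h2
  rw [← he, h2, one_mul]; exact hc

omit [Finite Γ] [Finite ι] in
lemma A_sub_AA {i k : ι} {g : Γ} (hg : g ∈ A k) : g ∈ AA A i k :=
  ⟨1, (A i).one_mem, g, hg, one_mul g⟩

/-- The partition: every element outside `A k` lies in `A k * S` or in some `A i * A k`. -/
lemma cover (h : KFam0 Γ s t ι A S) (k : ι) (g : Γ) :
    g ∈ A k ⊔ S ∨ ∃ i, i ≠ k ∧ g ∈ AA A i k := by
  classical
  haveI := Fintype.ofFinite Γ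
  haveI := Fintype.ofFinite ι
  -- the union of disjoint sets
  set U : Finset Γ := Finset.univ.filter (fun g => g ∈ A k ⊔ S) with hU
  set V : ι → Finset Γ := fun i => Finset.univ.filter (fun g => g ∈ AA A i k ∧ g ∉ A k) with hV
  have hUcard : U.card = s * t := by
    rw [← h.card_AS k, Nat.card_eq_fintype_card, hU, Fintype.card_subtype]
  have hVcard : ∀ i, i ≠ k → (V i).card = s * s - s := by
    intro i hik
    have h1 : (V i).card = ((AA A i k) \ (A k : Set Γ)).ncard := by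
      rw [← Set.ncard_coe_finset]
      congr 1
      ext g
      simp [hV]
    rw [h1, Set.ncard_diff (fun g hg => A_sub_AA hg) (Set.toFinite _), h.card_AA hik]
    congr 1
    rw [← Nat.card_coe_set_eq]
    exact h.cardA k
  have hdisj : ∀ i ∈ (Finset.univ.erase k : Finset ι), ∀ j ∈ (Finset.univ.erase k : Finset ι),
      i ≠ j → Disjoint (V i) (V j) := by
    intro i hi j hj hij
    rw [Finset.disjoint_left]
    intro g hg hg'
    simp only [hV, Finset.mem_filter, Finset.mem_univ, true_and] at hg hg'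
    exact hg.2 (h.AA_disj (Finset.ne_of_mem_erase hi) (Finset.ne_of_mem_erase hj) hij hg.1 hg'.1)
  have hdisj2 : Disjoint U ((Finset.univ.erase k).biUnion V) := by
    rw [Finset.disjoint_left]
    intro g hg hg'
    simp only [hU, hV, Finset.mem_filter, Finset.mem_univ, true_and, Finset.mem_biUnion,
      Finset.mem_erase] at hg hg'
    obtain ⟨i, ⟨hik, -⟩, hg1, hg2⟩ := hg'
    exact hg2 (h.AA_AS_disj hik hg1 hg)
  have hcard : (U ∪ (Finset.univ.erase k).biUnion V).card = Fintype.card Γ := by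
    rw [Finset.card_union_of_disjoint hdisj2, Finset.card_biUnion hdisj, hUcard,
      Finset.sum_congr rfl (fun i hi => hVcard i (Finset.ne_of_mem_erase hi)), Finset.sum_const,
      Finset.card_erase_of_mem (Finset.mem_univ k), Finset.card_univ, ← Nat.card_eq_fintype_card,
      ← Nat.card_eq_fintype_card, h.cardI, h.cardG]
    obtain ⟨r, hr⟩ : ∃ r, s = r + 1 := ⟨s - 1, by have := h.hs; omega⟩
    rw [hr]
    have : (r + 1) * (r + 1) - (r + 1) = r * (r + 1) := by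
      have : (r + 1) * (r + 1) = r * (r + 1) + (r + 1) := by ring
      omega
    rw [this]
    simp only [Nat.add_sub_cancel, smul_eq_mul]
    ring
  have huniv : U ∪ (Finset.univ.erase k).biUnion V = Finset.univ :=
    (Finset.card_eq_iff_eq_univ _).1 hcard
  have hg : g ∈ U ∪ (Finset.univ.erase k).biUnion V := by rw [huniv]; exact Finset.mem_univ g
  rw [Finset.mem_union, Finset.mem_biUnion] at hg
  rcases hg with hg | ⟨i, hi, hg⟩
  · left
    simpa [hU] using hg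
  · right
    refine ⟨i, Finset.ne_of_mem_erase hi, ?_⟩
    simp only [hV, Finset.mem_filter, Finset.mem_univ, true_and] at hg
    exact hg.1

end KFam0

open Pool.Agent.Helper90.ST in
lemma _root_.Pool.Agent.Helper90.ST.IsKF.toKFam0 {Γ : Type} [Group Γ] {s t : ℕ} {ι : Type}
    {A : ι → Subgroup Γ} {S : Subgroup Γ} (h : IsKF A S s t) (hs : 0 < s) (ht : 0 < t) :
    KFam0 Γ s t ι A S := by
  refine ⟨hs, ht, h.normS, h.cardG, h.cardI, h.cardA, h.cardS, ?_, ?_⟩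
  · intro i j k hij hjk hik a ha b hb hab
    have h1 : a = 1 := h.K1 i j k hij hjk hik a ha b hb hab
    refine ⟨h1, ?_⟩
    rw [h1, one_mul] at hab
    exact h.K2 j k hjk b hb b⁻¹ ((A k).inv_mem hab) (by rw [mul_inv_cancel]; exact S.one_mem)
  · intro i j hij a ha c hc hac
    have h1 : (a * c)⁻¹ * a ∈ S := by
      have : (a * c)⁻¹ * a = c⁻¹ := by group
      rw [this]; exact S.inv_mem hc
    have h2 := h.K2 j i hij.symm (a * c)⁻¹ ((A j).inv_mem hac) a ha h1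
    exact inv_eq_one.1 h2

end Pool.Agent.Helper55.GQ
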