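import Mathlib

set_option autoImplicit false

/-!
# Rational matrices with `M ^ (n + 1) = M` have integral trace
-/

namespace Pool.Agent.Helper55.TraceInt

open Polynomial

lemma eig {ι : Type} [Fintype ι] [DecidableEq ι] (M : Matrix ι ι ℂ) (n : ℕ)
    (hM : M ^ (n + 2) = M) {μ : ℂ} (hμ : μ ∈ spectrum ℂ M) : IsIntegral ℤ μ := by
  have h1 : (Polynomial.aeval M) (X ^ (n + 2) - X : ℂ[X]) = 0 := by
    simp [hM]
  have h2 := spectrum.subset_polynomial_aeval M (X ^ (n + 2) - X : ℂ[X])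
  have h3 : Polynomial.eval μ (X ^ (n + 2) - X : ℂ[X]) ∈ spectrum ℂ (0 : Matrix ι ι ℂ) := by
    rw [← h1]
    exact h2 ⟨μ, hμ, rfl⟩
  have hne : Nontrivial (Matrix ι ι ℂ) := by
    by_contra hn
    rw [not_nontrivial_iff_subsingleton] at hn
    have := spectrum.of_subsingleton (R := ℂ) M
    rw [this] at hμ
    exact hμ
  rw [spectrum.zero_eq] at h3
  simp only [eval_sub, eval_pow, eval_X, Set.mem_singleton_iff] at h3
  refine ⟨X ^ (n + 2) - X, ?_, ?_⟩
  · apply Polynomial.monic_X_pow_sub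
    rw [Polynomial.degree_X]
    exact_mod_cast (by omega : 1 < n + 2)
  · simpa using h3

theorem trace_int {ι : Type} [Fintype ι] [DecidableEq ι] (M : Matrix ι ι ℚ) (n : ℕ)
    (hn : 1 ≤ n) (hM : M ^ (n + 1) = M) : ∃ z : ℤ, M.trace = z := by
  obtain ⟨m, rfl⟩ : ∃ m, n = m + 1 := ⟨n - 1, by omega⟩
  set M' : Matrix ι ι ℂ := M.map (algebraMap ℚ ℂ) with hM'
  have h1 : M' ^ (m + 2) = M' := by
    have : M' = (algebraMap ℚ ℂ).mapMatrix M := rfl
    rw [this, ← map_pow, hM]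
  have h2 : IsIntegral ℤ M'.trace := by
    rw [Matrix.trace_eq_sum_roots_charpoly]
    have : ∀ μ ∈ M'.charpoly.roots, IsIntegral ℤ μ := by
      intro μ hμ
      apply eig M' m h1
      rw [Matrix.mem_spectrum_iff_isRoot_charpoly]
      exact Polynomial.isRoot_of_mem_roots hμ
    exact IsIntegral.multiset_sum this
  have h3 : M'.trace = algebraMap ℚ ℂ M.trace := by
    rw [hM', Matrix.trace, Matrix.trace, map_sum]
    rfl
  rw [h3] at h2
  have h4 : IsIntegral ℤ M.trace := by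
    rwa [isIntegral_algebraMap_iff (algebraMap ℚ ℂ).injective] at h2
  obtain ⟨z, hz⟩ := (IsIntegrallyClosed.isIntegral_iff (R := ℤ) (K := ℚ)).1 h4
  exact ⟨z, by rw [← hz]; simp⟩

end Pool.Agent.Helper55.TraceInt
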