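import Pool.Agent.Helper55.KFBasic
import Pool.Agent.Helper55.TraceInt

set_option autoImplicit false

/-!
# The trace congruence for `KFam`
-/

namespace Pool.Agent.Helper55.GQ

open Finset

section conv

variable {Γ : Type} [Group Γ] [Fintype Γ]

open Classical in
/-- indicator -/
noncomputable def ind (p : Prop) : ℚ := if p then 1 else 0

lemma ind_true {p : Prop} (h : p) : ind p = 1 := by unfold ind; rw [if_pos h]

lemma ind_false {p : Prop} (h : ¬ p) : ind p = 0 := by unfold ind; rw [if_neg h]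

lemma ind_congr {p q : Prop} (h : p ↔ q) : ind p = ind q := by
  by_cases hp : p
  · rw [ind_true hp, ind_true (h.1 hp)]
  · rw [ind_false hp, ind_false (fun hq => hp (h.2 hq))]

/-- convolution matrix -/
noncomputable def cv (f : Γ → ℚ) : Matrix Γ Γ ℚ := fun x y => f (x⁻¹ * y)

/-- convolution matrix of the indicator function of a set -/
noncomputable def cM (H : Set Γ) : Matrix Γ Γ ℚ := cv (fun g => ind (g ∈ H))

omit [Fintype Γ] in
lemma cM_apply (H : Set Γ) (x y : Γ) : cM H x y = ind (x⁻¹ * y ∈ H) := rfl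

lemma cM_mul_of_trivial (H K : Subgroup Γ) (hHK : ∀ x ∈ H, x ∈ K → x = 1) :
    cM (H : Set Γ) * cM (K : Set Γ) = cM {g | ∃ a ∈ H, ∃ c ∈ K, a * c = g} := by
  classical
  ext x y
  rw [Matrix.mul_apply, cM_apply]
  by_cases hg : x⁻¹ * y ∈ {g | ∃ a ∈ H, ∃ c ∈ K, a * c = g}
  · rw [ind_true hg]
    obtain ⟨a, ha, c, hc, he⟩ := hg
    rw [Finset.sum_eq_single (x * a)]
    · rw [cM_apply, cM_apply, ind_true, ind_true, mul_one]
      · have : (x * a)⁻¹ * y = c := by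
          have h1 : y = x * (a * c) := by rw [he]; group
          rw [h1]; group
        rw [this]; exact hc
      · have : x⁻¹ * (x * a) = a := by group
        rw [this]; exact ha
    · intro z _ hz
      by_cases h1 : x⁻¹ * z ∈ H
      · by_cases h2 : z⁻¹ * y ∈ K
        · exfalso
          apply hz
          have h3 : a⁻¹ * (x⁻¹ * z) = 1 := by
            apply hHK
            · exact H.mul_mem (H.inv_mem ha) h1
            · have : a⁻¹ * (x⁻¹ * z) = c * (z⁻¹ * y)⁻¹ := by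
                have h4 : x⁻¹ * z = (x⁻¹ * y) * (z⁻¹ * y)⁻¹ := by group
                rw [h4, ← he]; group
              rw [this]
              exact K.mul_mem hc (K.inv_mem h2)
          have h4 : x⁻¹ * z = a := (inv_mul_eq_one.1 h3).symm
          rw [← h4]; group
        · rw [cM_apply, cM_apply, ind_false (p := z⁻¹ * y ∈ (K : Set Γ)) h2, mul_zero]
      · rw [cM_apply, ind_false (p := x⁻¹ * z ∈ (H : Set Γ)) h1, zero_mul]
    · intro h; exact absurd (Finset.mem_univ _) h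
  · rw [ind_false hg]
    refine Finset.sum_eq_zero (fun z _ => ?_)
    by_cases h1 : x⁻¹ * z ∈ H
    · by_cases h2 : z⁻¹ * y ∈ K
      · exact absurd ⟨x⁻¹ * z, h1, z⁻¹ * y, h2, by group⟩ hg
      · rw [cM_apply, cM_apply, ind_false (p := z⁻¹ * y ∈ (K : Set Γ)) h2, mul_zero]
    · rw [cM_apply, ind_false (p := x⁻¹ * z ∈ (H : Set Γ)) h1, zero_mul]

lemma sum_ind_coset (H : Subgroup Γ) (y : Γ) :
    ∑ z : Γ, ind (z⁻¹ * y ∈ H) = (Nat.card H : ℚ) := by
  classical
  have h1 : ∑ z : Γ, ind (z⁻¹ * y ∈ H) = ∑ z : Γ, ind (z ∈ H) := by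
    refine Fintype.sum_equiv ((Equiv.inv Γ).trans (Equiv.mulRight y)) _ _ (fun z => ?_)
    simp [Equiv.trans_apply]
  rw [h1]
  unfold ind
  rw [Finset.sum_boole, Nat.card_eq_fintype_card, Fintype.card_subtype]

lemma cM_sq (H : Subgroup Γ) : cM (H : Set Γ) * cM (H : Set Γ) = (Nat.card H : ℚ) • cM (H : Set Γ) := by
  classical
  ext x y
  rw [Matrix.mul_apply, Matrix.smul_apply, cM_apply, smul_eq_mul]
  by_cases hg : x⁻¹ * y ∈ H
  · rw [ind_true (p := x⁻¹ * y ∈ (H : Set Γ)) hg, mul_one, ← sum_ind_coset H y]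
    refine Finset.sum_congr rfl (fun z _ => ?_)
    rw [cM_apply, cM_apply]
    by_cases h2 : z⁻¹ * y ∈ H
    · have h1 : x⁻¹ * z ∈ H := by
        have : x⁻¹ * z = (x⁻¹ * y) * (z⁻¹ * y)⁻¹ := by group
        rw [this]; exact H.mul_mem hg (H.inv_mem h2)
      rw [ind_true (p := x⁻¹ * z ∈ (H : Set Γ)) h1, one_mul]; rfl
    · rw [ind_false (p := z⁻¹ * y ∈ (H : Set Γ)) h2, mul_zero, ind_false h2]
  · rw [ind_false (p := x⁻¹ * y ∈ (H : Set Γ)) hg, mul_zero]
    refine Finset.sum_eq_zero (fun z _ => ?_)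
    by_cases h1 : x⁻¹ * z ∈ H
    · by_cases h2 : z⁻¹ * y ∈ H
      · exfalso
        apply hg
        have : x⁻¹ * y = (x⁻¹ * z) * (z⁻¹ * y) := by group
        rw [this]; exact H.mul_mem h1 h2
      · rw [cM_apply, cM_apply, ind_false (p := z⁻¹ * y ∈ (H : Set Γ)) h2, mul_zero]
    · rw [cM_apply, ind_false (p := x⁻¹ * z ∈ (H : Set Γ)) h1, zero_mul]

/-- all ones -/
noncomputable def mJ (Γ : Type) : Matrix Γ Γ ℚ := fun _ _ => 1

lemma mJ_mul (H : Subgroup Γ) : mJ Γ * cM (H : Set Γ) = (Nat.card H : ℚ) • mJ Γ := by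
  ext x y
  rw [Matrix.mul_apply, Matrix.smul_apply, smul_eq_mul]
  show ∑ z : Γ, (1 : ℚ) * ind (z⁻¹ * y ∈ (H : Set Γ)) = _ * 1
  rw [mul_one, ← sum_ind_coset H y]
  exact Finset.sum_congr rfl (fun z _ => by rw [one_mul]; rfl)

/-- trace of a twisted convolution idempotent is an integer -/
lemma trace_twist [DecidableEq Γ] (q : Γ → ℚ) (hq : cv q * cv q = cv q) (h : Γ) :
    ∃ z : ℤ, ∑ x : Γ, q (x⁻¹ * h * x) = z := by
  set M : Γ → Matrix Γ Γ ℚ := fun h x y => q (x⁻¹ * h * y) with hM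
  have hmul : ∀ h h' : Γ, M h * M h' = M (h * h') := by
    intro h h'
    ext x y
    rw [Matrix.mul_apply]
    have h1 : cv q x (h * h' * y) = (cv q * cv q) x (h * h' * y) := by rw [hq]
    have h2 : M (h * h') x y = cv q x (h * h' * y) := by
      show q _ = q _
      congr 1; group
    rw [h2, h1, Matrix.mul_apply]
    refine Fintype.sum_equiv (Equiv.mulLeft h) _ _ (fun z => ?_)
    show q (x⁻¹ * h * z) * q (z⁻¹ * h' * y) = q (x⁻¹ * (h * z)) * q ((h * z)⁻¹ * (h * h' * y))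
    congr 2
    · group
    · group
  have hpow : ∀ n : ℕ, M h ^ (n + 1) = M (h ^ (n + 1)) := by
    intro n
    induction n with
    | zero => simp
    | succ n ih => rw [pow_succ, ih, hmul, ← pow_succ]
  have hord : 1 ≤ orderOf h := orderOf_pos h
  have hfix : M h ^ (orderOf h + 1) = M h := by
    rw [hpow, pow_succ, pow_orderOf_eq_one, one_mul]
  obtain ⟨z, hz⟩ := TraceInt.trace_int (M h) (orderOf h) hord hfix
  refine ⟨z, ?_⟩
  rw [← hz, Matrix.trace]
  rfl

end conv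

namespace KFam0

variable {Γ : Type} [Group Γ] {s t : ℕ} {ι : Type}
  {A : ι → Subgroup Γ} {S : Subgroup Γ}

/-- the partition, in matrix form -/
lemma mat_partition [Fintype Γ] [Fintype ι] [DecidableEq ι] (h : KFam0 Γ s t ι A S) (k : ι) :
    ∑ i ∈ (Finset.univ.erase k), cM (A i : Set Γ) * cM (A k : Set Γ)
      + cM (A k : Set Γ) * cM (S : Set Γ) = mJ Γ + (t : ℚ) • cM (A k : Set Γ) := by
  classical
  have h1 : ∀ i ∈ (Finset.univ.erase k : Finset ι), cM (A i : Set Γ) * cM (A k : Set Γ)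
      = cM (AA A i k) := by
    intro i hi
    exact cM_mul_of_trivial (A i) (A k)
      (fun x hx hx' => h.inter_A (Finset.ne_of_mem_erase hi) hx hx')
  rw [Finset.sum_congr rfl h1, cM_mul_of_trivial (A k) S (fun x hx hx' => h.inter_AS hx hx')]
  ext x y
  rw [Matrix.add_apply, Matrix.sum_apply, Matrix.add_apply, Matrix.smul_apply, smul_eq_mul]
  simp only [cM_apply]
  show _ = (1 : ℚ) + _
  set g := x⁻¹ * y with hg
  have hiff : g ∈ {g | ∃ a ∈ A k, ∃ c ∈ S, a * c = g} ↔ g ∈ A k ⊔ S := h.mem_AS.symm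
  rw [ind_congr hiff]
  by_cases hgk : g ∈ A k
  · rw [ind_true (p := g ∈ (A k : Set Γ)) hgk, ind_true (Subgroup.mem_sup_left hgk)]
    rw [Finset.sum_congr rfl (fun i _ => ind_true (p := g ∈ AA A i k) (A_sub_AA hgk)),
      Finset.sum_const, Finset.card_erase_of_mem (Finset.mem_univ k), Finset.card_univ,
      ← Nat.card_eq_fintype_card, h.cardI]
    simp; ring
  · rw [ind_false (p := g ∈ (A k : Set Γ)) hgk, mul_zero, add_zero]
    by_cases hgS : g ∈ A k ⊔ S
    · rw [ind_true hgS, Finset.sum_eq_zero, zero_add]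
      intro i hi
      exact ind_false (fun hh => hgk (h.AA_AS_disj (Finset.ne_of_mem_erase hi) hh hgS))
    · rw [ind_false hgS, add_zero]
      rcases h.cover k g with h2 | ⟨i, hik, hi⟩
      · exact absurd h2 hgS
      · rw [Finset.sum_eq_single i]
        · exact ind_true hi
        · intro j hj hji
          exact ind_false (fun hh => hgk (h.AA_disj (Finset.ne_of_mem_erase hj) hik hji hh hi))
        · intro hh
          exact absurd (Finset.mem_erase.2 ⟨hik, Finset.mem_univ i⟩) hh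

/-- number of pairs `(i, g)` with `g⁻¹ h g ∈ A i` -/
noncomputable def N1 (A : ι → Subgroup Γ) (h : Γ) : ℕ :=
  Nat.card {p : ι × Γ // p.2⁻¹ * h * p.2 ∈ A p.1}

/-- number of pairs `(i, g)` with `g⁻¹ h g ∈ A i * S` -/
noncomputable def N2 (A : ι → Subgroup Γ) (S : Subgroup Γ) (h : Γ) : ℕ :=
  Nat.card {p : ι × Γ // p.2⁻¹ * h * p.2 ∈ A p.1 ⊔ S}

/-- the function `t * a - b` -/
noncomputable def fF (A : ι → Subgroup Γ) (S : Subgroup Γ) [Fintype ι] (t : ℕ) : Γ → ℚ :=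
  fun g => ∑ i : ι, ((t : ℚ) * ind (g ∈ A i) - ind (g ∈ A i ⊔ S))

lemma fF_sq [Fintype Γ] [Fintype ι] (h : KFam0 Γ s t ι A S) :
    cv (fF A S t) * cv (fF A S t) = ((t : ℚ) * (s + t)) • cv (fF A S t) := by
  classical
  set mA : Matrix Γ Γ ℚ := ∑ i : ι, cM (A i : Set Γ) with hmA
  set mS : Matrix Γ Γ ℚ := cM (S : Set Γ) with hmS
  haveI := h.normS
  have hAS : mA * mS = ∑ i : ι, cM ((A i ⊔ S : Subgroup Γ) : Set Γ) := by
    rw [hmA, Finset.sum_mul]
    refine Finset.sum_congr rfl (fun i _ => ?_)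
    rw [hmS, cM_mul_of_trivial (A i) S (fun x hx hx' => h.inter_AS hx hx')]
    congr 1
    ext g
    exact h.mem_AS.symm
  have hSA : mS * mA = mA * mS := by
    rw [hAS, hmA, Finset.mul_sum]
    refine Finset.sum_congr rfl (fun i _ => ?_)
    rw [hmS, cM_mul_of_trivial S (A i) (fun x hx hx' => h.inter_AS hx' hx)]
    congr 1
    ext g
    show (∃ a ∈ S, ∃ c ∈ A i, a * c = g) ↔ g ∈ A i ⊔ S
    rw [sup_comm, Subgroup.mem_sup_of_normal_left]
  have hF : cv (fF A S t) = (t : ℚ) • mA - mA * mS := by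
    rw [hAS]
    ext x y
    rw [Matrix.sub_apply, Matrix.smul_apply, hmA, Matrix.sum_apply, Matrix.sum_apply, smul_eq_mul,
      Finset.mul_sum, ← Finset.sum_sub_distrib]
    rfl
  have hSS : mS * mS = (t : ℚ) • mS := by rw [hmS, cM_sq, h.cardS]
  have hJS : mJ Γ * mS = (t : ℚ) • mJ Γ := by rw [hmS, mJ_mul, h.cardS]
  have hAA : mA * mA = ((t : ℚ) + 1) • mJ Γ + ((s : ℚ) + t) • mA - mA * mS := by
    have h1 : mA * mA = ∑ k : ι, ∑ i : ι, cM (A i : Set Γ) * cM (A k : Set Γ) := by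
      rw [hmA, Finset.sum_mul_sum, Finset.sum_comm]
    have h2 : ∀ k : ι, ∑ i : ι, cM (A i : Set Γ) * cM (A k : Set Γ)
        = mJ Γ + ((s : ℚ) + t) • cM (A k : Set Γ) - cM (A k : Set Γ) * mS := by
      intro k
      rw [← Finset.sum_erase_add _ _ (Finset.mem_univ k), cM_sq, h.cardA]
      have h3 := h.mat_partition k
      have h4 : ∑ i ∈ (Finset.univ.erase k), cM (A i : Set Γ) * cM (A k : Set Γ)
          = mJ Γ + (t : ℚ) • cM (A k : Set Γ) - cM (A k : Set Γ) * cM (S : Set Γ) := by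
        rw [← h3]; abel
      rw [h4, add_smul]; abel
    rw [h1, Finset.sum_congr rfl (fun k _ => h2 k), Finset.sum_sub_distrib,
      Finset.sum_add_distrib, ← Finset.smul_sum, ← Finset.sum_mul, Finset.sum_const,
      Finset.card_univ, ← Nat.card_eq_fintype_card, h.cardI, ← Nat.cast_smul_eq_nsmul ℚ]
    push_cast
    rfl
  rw [hF]
  have e1 : ((t : ℚ) • mA - mA * mS) = mA * ((t : ℚ) • 1 - mS) := by
    rw [Matrix.mul_sub, Matrix.mul_smul, Matrix.mul_one]
  have e2 : ((t : ℚ) • (1 : Matrix Γ Γ ℚ) - mS) * mA = mA * ((t : ℚ) • 1 - mS) := by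
    rw [Matrix.sub_mul, Matrix.mul_sub, Matrix.smul_mul, Matrix.mul_smul, Matrix.one_mul,
      Matrix.mul_one, hSA]
  have e3 : ((t : ℚ) • (1 : Matrix Γ Γ ℚ) - mS) * ((t : ℚ) • 1 - mS)
      = (t : ℚ) • ((t : ℚ) • 1 - mS) := by
    rw [Matrix.mul_sub, Matrix.sub_mul, Matrix.sub_mul, hSS]
    simp only [Matrix.mul_smul, Matrix.smul_mul, Matrix.mul_one, Matrix.one_mul, smul_sub]
    abel
  have e4 : mJ Γ * ((t : ℚ) • (1 : Matrix Γ Γ ℚ) - mS) = 0 := by
    rw [Matrix.mul_sub, hJS, Matrix.mul_smul, Matrix.mul_one, sub_self]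
  have e5 : mS * ((t : ℚ) • (1 : Matrix Γ Γ ℚ) - mS) = 0 := by
    rw [Matrix.mul_sub, hSS, Matrix.mul_smul, Matrix.mul_one, sub_self]
  rw [e1]
  calc mA * ((t : ℚ) • 1 - mS) * (mA * ((t : ℚ) • 1 - mS))
      = mA * ((((t : ℚ) • 1 - mS) * mA) * ((t : ℚ) • 1 - mS)) := by
        simp only [Matrix.mul_assoc]
    _ = (mA * mA) * (((t : ℚ) • 1 - mS) * ((t : ℚ) • 1 - mS)) := by
        rw [e2]; simp only [Matrix.mul_assoc]
    _ = (t : ℚ) • ((mA * mA) * ((t : ℚ) • 1 - mS)) := by rw [e3, Matrix.mul_smul]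
    _ = (t : ℚ) • (((s : ℚ) + t) • (mA * ((t : ℚ) • 1 - mS))) := by
        rw [hAA, Matrix.sub_mul, Matrix.add_mul, Matrix.smul_mul, e4, smul_zero, zero_add,
          Matrix.mul_assoc mA mS, e5, Matrix.mul_zero, sub_zero, Matrix.smul_mul]
    _ = ((t : ℚ) * (s + t)) • (mA * ((t : ℚ) • 1 - mS)) := by rw [smul_smul]

lemma card_pairs [Fintype Γ] [Fintype ι] (B : ι → Subgroup Γ) (h : Γ) :
    ∑ x : Γ, ∑ i : ι, ind (x⁻¹ * h * x ∈ B i)
      = (Nat.card {p : ι × Γ // p.2⁻¹ * h * p.2 ∈ B p.1} : ℚ) := by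
  classical
  rw [Finset.sum_comm, ← Fintype.sum_prod_type' (f := fun i x => ind (x⁻¹ * h * x ∈ B i))]
  unfold ind
  rw [Finset.sum_boole, Nat.card_eq_fintype_card, Fintype.card_subtype]

/-- The trace congruence. -/
theorem trace_congr [Finite Γ] [Finite ι] (h : KFam0 Γ s t ι A S) (g : Γ) :
    (((s + t) * t : ℕ) : ℤ) ∣ (t : ℤ) * (N1 A g : ℤ) - (N2 A S g : ℤ) := by
  classical
  haveI := Fintype.ofFinite Γ
  haveI := Fintype.ofFinite ι
  have ht : (t : ℚ) ≠ 0 := by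
    have := h.ht
    exact_mod_cast (by omega : t ≠ 0)
  have hst : (s : ℚ) + t ≠ 0 := by
    have := h.ht
    exact_mod_cast (by omega : s + t ≠ 0)
  set c : ℚ := (t : ℚ) * (s + t) with hc
  have hc0 : c ≠ 0 := mul_ne_zero ht hst
  set q : Γ → ℚ := fun g => c⁻¹ * fF A S t g with hq
  have hcv : cv q = c⁻¹ • cv (fF A S t) := by
    ext x y; rfl
  have hqq : cv q * cv q = cv q := by
    rw [hcv, Matrix.smul_mul, Matrix.mul_smul, h.fF_sq, smul_smul, smul_smul, ← hc,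
      mul_assoc, inv_mul_cancel₀ hc0, mul_one]
  obtain ⟨z, hz⟩ := trace_twist q hqq g
  have h1 : ∑ x : Γ, q (x⁻¹ * g * x) = c⁻¹ * ((t : ℚ) * (N1 A g : ℚ) - (N2 A S g : ℚ)) := by
    rw [hq]
    rw [← Finset.mul_sum]
    congr 1
    unfold fF N1 N2
    rw [← card_pairs A g, ← card_pairs (fun i => A i ⊔ S) g, Finset.mul_sum,
      ← Finset.sum_sub_distrib]
    refine Finset.sum_congr rfl (fun x _ => ?_)
    rw [Finset.sum_sub_distrib, Finset.mul_sum]
  rw [h1] at hz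
  refine ⟨z, ?_⟩
  have h2 : (t : ℚ) * (N1 A g : ℚ) - (N2 A S g : ℚ) = c * z := by
    rw [← hz, ← mul_assoc, mul_inv_cancel₀ hc0, one_mul]
  have h3 : (((t : ℤ) * (N1 A g : ℤ) - (N2 A S g : ℤ) : ℤ) : ℚ) = (((s + t) * t : ℕ) : ℤ) * z := by
    push_cast
    rw [h2, hc]; ring
  exact_mod_cast h3

end KFam0

end Pool.Agent.Helper55.GQ
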